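import Mathlib

/-!
Tournaments with values in `ZMod 2`, crossing parities of chords, switching and gluing.
-/

namespace Pool.Agent.Lib.MP_c59a20_lc

variable {α : Type}

/-- A tournament, written as a function to `ZMod 2`. -/
def Tour (x : α → α → ZMod 2) : Prop := ∀ a b, a ≠ b → x a b + x b a = 1

/-- The crossing parity of the chords `ab` and `cd`. -/
def cr (x : α → α → ZMod 2) (a b c d : α) : ZMod 2 := x a c + x a d + x b c + x b d

theorem z2 (t : ZMod 2) : t = 0 ∨ t = 1 := by revert t; decide

theorem z2_one {t : ZMod 2} (h : t ≠ 0) : t = 1 := (z2 t).resolve_left h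

theorem z2_zero {t : ZMod 2} (h : t ≠ 1) : t = 0 := (z2 t).resolve_right h

theorem z2_ne : (0 : ZMod 2) ≠ 1 := by decide

section cr

variable (x : α → α → ZMod 2)

theorem cr_l (a b c d : α) : cr x a b c d = cr x b a c d := by unfold cr; grind

theorem cr_r (a b c d : α) : cr x a b c d = cr x a b d c := by unfold cr; grind

theorem cr_self_l (a c d : α) : cr x a a c d = 0 := by unfold cr; grind

theorem cr_self_r (a b c : α) : cr x a b c c = 0 := by unfold cr; grind

theorem cr_add_r (a b c d e : α) : cr x a b c e = cr x a b c d + cr x a b d e := by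
  unfold cr; grind

theorem cr_add_l (a b e c d : α) : cr x a e c d = cr x a b c d + cr x b e c d := by
  unfold cr; grind

variable {x}

theorem Tour.swap (hx : Tour x) {a b c d : α} (hac : a ≠ c) (had : a ≠ d) (hbc : b ≠ c)
    (hbd : b ≠ d) : cr x a b c d = cr x c d a b := by
  have h1 := hx a c hac
  have h2 := hx a d had
  have h3 := hx b c hbc
  have h4 := hx b d hbd
  unfold cr; grind

theorem Tour.three (hx : Tour x) {a b c d : α} (hbc : b ≠ c) (hbd : b ≠ d) (hcd : c ≠ d) :
    cr x a b c d + cr x a c b d + cr x a d b c = 1 := by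
  have h1 := hx b c hbc
  have h2 := hx b d hbd
  have h3 := hx c d hcd
  unfold cr; grind

end cr

/-- No four points of `V` have all three pairings crossing. -/
def NoDia (x : α → α → ZMod 2) (V : Finset α) : Prop :=
  ∀ a ∈ V, ∀ b ∈ V, ∀ c ∈ V, ∀ d ∈ V, a ≠ b → a ≠ c → a ≠ d → b ≠ c → b ≠ d → c ≠ d →
    cr x a b c d = 1 → cr x a c b d = 1 → False

/-- Transitivity on `V`. -/
def Trans (x : α → α → ZMod 2) (V : α → Prop) : Prop :=
  ∀ a b c, V a → V b → V c → a ≠ b → a ≠ c → b ≠ c → x a b = 1 → x b c = 1 → x a c = 1

theorem Trans.noDia {x : α → α → ZMod 2} (hx : Tour x) {V : Finset α} (h : Trans x (· ∈ V)) :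
    NoDia x V := by
  intro a ha b hb c hc d hd hab hac had hbc hbd hcd h1 h2
  have t1 := hx a b hab
  have t2 := hx a c hac
  have t3 := hx a d had
  have t4 := hx b c hbc
  have t5 := hx b d hbd
  have t6 := hx c d hcd
  have s1 := h a b c ha hb hc hab hac hbc
  have s2 := h a c b ha hc hb hac hab hbc.symm
  have s3 := h b a c hb ha hc hab.symm hbc hac
  have s4 := h c a b hc ha hb hac.symm hbc.symm hab
  have s5 := h b c a hb hc ha hbc hab.symm hac.symm
  have s6 := h c b a hc hb ha hbc.symm hac.symm hab.symm
  have r1 := h a b d ha hb hd hab had hbd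
  have r2 := h b a d hb ha hd hab.symm hbd had
  have r3 := h a d b ha hd hb had hab hbd.symm
  have r4 := h b d a hb hd ha hbd hab.symm had.symm
  have q1 := h a c d ha hc hd hac had hcd
  have q2 := h a d c ha hd hc had hac hcd.symm
  have q3 := h c d a hc hd ha hcd hac.symm had.symm
  have q4 := h c a d hc ha hd hac.symm hcd had
  have p1 := h b c d hb hc hd hbc hbd hcd
  have p2 := h b d c hb hd hc hbd hbc hcd.symm
  have p3 := h c d b hc hd hb hcd hbc.symm hbd.symm
  have p4 := h c b d hc hb hd hbc.symm hcd hbd
  unfold cr at h1 h2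
  rcases z2 (x a b) with e1 | e1 <;> rcases z2 (x a c) with e2 | e2 <;>
    rcases z2 (x a d) with e3 | e3 <;> rcases z2 (x b c) with e4 | e4 <;> grind

/-- Switching so that `u` becomes a source, after adding the constant `ε`. -/
noncomputable def gauge (x : α → α → ZMod 2) (ε : ZMod 2) (u : α) : α → α → ZMod 2 := by
  classical
  exact fun a b => x a b + ε + (if a = u then 0 else x u a + ε + 1) +
    (if b = u then 0 else x u b + ε + 1)

section gauge

variable {x : α → α → ZMod 2}

theorem gauge_tour (hx : Tour x) (ε : ZMod 2) (u : α) : Tour (gauge x ε u) := by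
  intro a b hab
  have := hx a b hab
  unfold gauge; grind

theorem cr_gauge (ε : ZMod 2) (u a b c d : α) : cr (gauge x ε u) a b c d = cr x a b c d := by
  unfold cr gauge; grind

theorem gauge_src (ε : ZMod 2) {u a : α} (h : a ≠ u) : gauge x ε u u a = 1 := by
  unfold gauge; grind

theorem gauge_snk (hx : Tour x) (ε : ZMod 2) {u a : α} (h : a ≠ u) : gauge x ε u a u = 0 := by
  have := hx a u h
  unfold gauge; grind

theorem gauge_eps (ε : ZMod 2) {u a b : α} (ha : a ≠ u) (hb : b ≠ u) :
    gauge x ε u a b = gauge x 0 u a b + ε := by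
  unfold gauge; grind

theorem NoDia.gauge {V : Finset α} (h : NoDia x V) (ε : ZMod 2) (u : α) :
    NoDia (gauge x ε u) V := by
  intro a ha b hb c hc d hd hab hac had hbc hbd hcd h1 h2
  rw [cr_gauge] at h1 h2
  exact h a ha b hb c hc d hd hab hac had hbc hbd hcd h1 h2

theorem NoDia.trans_of_src (hx : Tour x) {V : Finset α} (h : NoDia x V) {u : α} (hu : u ∈ V)
    (hs : ∀ a, a ≠ u → x u a = 1) : Trans x (· ∈ V) := by
  intro a b c ha hb hc hab hac hbc h1 h2
  by_cases hau : a = u
  · subst hau; exact hs c hac.symm
  by_cases hbu : b = u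
  · subst hbu
    have := hx a b hab
    have := hs a hau
    grind
  by_cases hcu : c = u
  · subst hcu
    have := hx b c hbc
    have := hs b hbu
    grind
  by_contra h3
  have h3 := z2_zero h3
  have t1 := hx a b hab
  have t2 := hx a c hac
  have t3 := hx b c hbc
  have s1 := hs a hau
  have s2 := hs b hbu
  have s3 := hs c hcu
  refine h u hu a ha b hb c hc (Ne.symm hau) (Ne.symm hbu) (Ne.symm hcu) hab hac hbc ?_ ?_
  · unfold cr; grind
  · unfold cr; grind

theorem NoDia.trans_gauge (hx : Tour x) {V : Finset α} (h : NoDia x V) (ε : ZMod 2) {u : α}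
    (hu : u ∈ V) : Trans (Pool.Agent.Lib.MP_c59a20_lc.gauge x ε u) (· ∈ V) :=
  (h.gauge ε u).trans_of_src (gauge_tour hx ε u) hu fun _ ha => gauge_src ε ha

end gauge

/-- Put the set `S` first, ordered by `y`, and the rest after it, ordered by `z`. -/
noncomputable def glue (S : α → Prop) (y z : α → α → ZMod 2) : α → α → ZMod 2 := by
  classical
  exact fun p q => if S p then (if S q then y p q else 1) else (if S q then 0 else z p q)

section glue

variable {S : α → Prop} {y z : α → α → ZMod 2}

theorem glue_tour (hy : Tour y) (hz : Tour z) : Tour (glue S y z) := by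
  intro a b hab
  have := hy a b hab
  have := hz a b hab
  unfold glue; grind

theorem glue_ss {p q : α} (hp : S p) (hq : S q) : glue S y z p q = y p q := by
  unfold glue; grind

theorem glue_sn {p q : α} (hp : S p) (hq : ¬ S q) : glue S y z p q = 1 := by
  unfold glue; grind

theorem glue_ns {p q : α} (hp : ¬ S p) (hq : S q) : glue S y z p q = 0 := by
  unfold glue; grind

theorem glue_nn {p q : α} (hp : ¬ S p) (hq : ¬ S q) : glue S y z p q = z p q := by
  unfold glue; grind

theorem glue_trans {V : α → Prop} (hy : Trans y (fun a => V a ∧ S a))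
    (hz : Trans z (fun a => V a ∧ ¬ S a)) : Trans (glue S y z) V := by
  intro a b c ha hb hc hab hac hbc h1 h2
  have t1 := hy a b c
  have t2 := hz a b c
  have := z2_ne
  unfold glue at *
  grind

end glue

theorem Trans.mono {x : α → α → ZMod 2} {V W : α → Prop} (h : Trans x V) (hW : ∀ a, W a → V a) :
    Trans x W := fun a b c ha hb hc => h a b c (hW a ha) (hW b hb) (hW c hc)

/-- Crossing parity vanishes along a walk all of whose steps are uncrossed. -/
theorem cr_reach {x : α → α → ZMod 2} {R : α → α → Prop} {a b m y : α}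
    (hy : Relation.ReflTransGen R m y)
    (h : ∀ p q, Relation.ReflTransGen R m p → R p q → cr x a b p q = 0) : cr x a b m y = 0 := by
  induction hy with
  | refl => exact cr_self_r x a b m
  | tail h1 h2 ih => rw [cr_add_r x a b m _ _, ih, h _ _ h1 h2, add_zero]

/-- A walk that leaves the part reachable through a smaller relation has an exit step. -/
theorem exit_step {R R' : α → α → Prop} {a b : α} (h : Relation.ReflTransGen R a b)
    (h' : ¬ Relation.ReflTransGen R' a b) :
    ∃ p q, Relation.ReflTransGen R' a p ∧ R p q ∧ ¬ R' p q := by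
  induction h with
  | refl => exact absurd Relation.ReflTransGen.refl h'
  | @tail p q _ h2 ih =>
    by_cases hp : Relation.ReflTransGen R' a p
    · exact ⟨p, q, hp, h2, fun h3 => h' (hp.tail h3)⟩
    · exact ih hp

theorem reach_last {R : α → α → Prop} {a b : α} (h : Relation.ReflTransGen R a b) :
    b = a ∨ ∃ p, R p b := by
  induction h with
  | refl => exact Or.inl rfl
  | @tail p q _ h2 _ => exact Or.inr ⟨p, h2⟩

theorem reach_symm {R : α → α → Prop} (hs : ∀ a b, R a b → R b a) {a b : α}
    (h : Relation.ReflTransGen R a b) : Relation.ReflTransGen R b a := by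
  induction h with
  | refl => exact Relation.ReflTransGen.refl
  | tail _ h2 ih => exact ih.head (hs _ _ h2)

end Pool.Agent.Lib.MP_c59a20_lc
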