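import Pool.Agent.Shared.PolyTime.Extra

/-!
Gaussian elimination over the field with two elements, in polynomial time.
-/

namespace Pool.Agent.Lib.MP_c59a20_lc

open N68a2faeb Pool.Agent.Shared.PolyTime N487b59b3

/-- An equation: the set of unknowns that occur, and the right-hand side. -/
abbrev Row := List (ℕ × ℕ) × Bool

def addRow (C : List (ℕ × ℕ)) (r p : Row) : Row :=
  (C.filter (fun c => xor (decide (c ∈ r.1)) (decide (c ∈ p.1))), xor r.2 p.2)

def elim (C : List (ℕ × ℕ)) (R : List Row) (v : ℕ × ℕ) : List Row :=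
  (R.find? (fun r => decide (v ∈ r.1))).elim R
    (fun p => R.map (fun r => if v ∈ r.1 then addRow C r p else r))

def solvable (C : List (ℕ × ℕ)) (R : List Row) : Bool :=
  (C.foldl (elim C) R).all (fun r => !r.2)

def bz (b : Bool) : ZMod 2 := if b then 1 else 0

def rowVal (C : List (ℕ × ℕ)) (x : ℕ × ℕ → ZMod 2) (l : List (ℕ × ℕ)) : ZMod 2 :=
  ∑ c ∈ C.toFinset, if c ∈ l then x c else 0

def Sat (C : List (ℕ × ℕ)) (x : ℕ × ℕ → ZMod 2) (R : List Row) : Prop :=
  ∀ r ∈ R, rowVal C x r.1 = bz r.2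

theorem bz_xor (a b : Bool) : bz (xor a b) = bz a + bz b := by
  cases a <;> cases b <;> decide

theorem rowVal_add (C : List (ℕ × ℕ)) (x : ℕ × ℕ → ZMod 2) (r p : Row) :
    rowVal C x (addRow C r p).1 = rowVal C x r.1 + rowVal C x p.1 := by
  unfold rowVal addRow
  rw [← Finset.sum_add_distrib]
  refine Finset.sum_congr rfl fun c hc => ?_
  have hc' : c ∈ C := List.mem_toFinset.1 hc
  have : x c + x c = 0 := CharTwo.add_self_eq_zero _
  by_cases h1 : c ∈ r.1 <;> by_cases h2 : c ∈ p.1 <;> simp [h1, h2, hc', this]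

theorem rowVal_update (C : List (ℕ × ℕ)) (x : ℕ × ℕ → ZMod 2) {l : List (ℕ × ℕ)} {v : ℕ × ℕ}
    (hv : v ∉ l) (t : ZMod 2) : rowVal C (Function.update x v t) l = rowVal C x l := by
  unfold rowVal
  refine Finset.sum_congr rfl fun c _ => ?_
  by_cases h : c ∈ l
  · rw [if_pos h, if_pos h, Function.update_of_ne fun e : c = v => hv (e ▸ h)]
  · rw [if_neg h, if_neg h]

theorem exists_update (C : List (ℕ × ℕ)) (x : ℕ × ℕ → ZMod 2) {l : List (ℕ × ℕ)} {v : ℕ × ℕ}
    (hC : v ∈ C) (hv : v ∈ l) (b : ZMod 2) : ∃ t, rowVal C (Function.update x v t) l = b := by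
  have key : ∀ t, rowVal C (Function.update x v t) l =
      t + ∑ c ∈ C.toFinset.erase v, if c ∈ l then x c else 0 := by
    intro t
    unfold rowVal
    rw [← Finset.add_sum_erase _ _ (List.mem_toFinset.2 hC), if_pos hv, Function.update_self]
    congr 1
    refine Finset.sum_congr rfl fun c hc => ?_
    rw [Function.update_of_ne (Finset.ne_of_mem_erase hc)]
  exact ⟨b - _, by rw [key, sub_add_cancel]⟩

theorem elim_sat (C : List (ℕ × ℕ)) (R : List Row) {v : ℕ × ℕ} (hC : v ∈ C) :
    (∃ x, Sat C x (elim C R v)) ↔ ∃ x, Sat C x R := by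
  unfold elim
  cases h : R.find? (fun r => decide (v ∈ r.1)) with
  | none => rfl
  | some p =>
    have hp : p ∈ R := List.mem_of_find?_eq_some h
    have hv : v ∈ p.1 := by simpa using List.find?_some h
    simp only [Option.elim_some]
    constructor
    · rintro ⟨x, hx⟩
      obtain ⟨t, ht⟩ := exists_update C x hC hv (bz p.2)
      refine ⟨Function.update x v t, fun r hr => ?_⟩
      have h1 := hx _ (List.mem_map_of_mem hr)
      by_cases h2 : v ∈ r.1
      · rw [if_pos h2, ← rowVal_update C x (v := v) (by simp [addRow, h2, hv]) t, rowVal_add, ht,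
          addRow, bz_xor] at h1
        exact add_right_cancel h1
      · rw [if_neg h2] at h1
        rw [rowVal_update C x h2, h1]
    · rintro ⟨x, hx⟩
      refine ⟨x, fun r hr => ?_⟩
      obtain ⟨r, hr', rfl⟩ := List.mem_map.1 hr
      split_ifs
      · rw [rowVal_add, hx r hr', hx p hp, addRow, bz_xor]
      · exact hx r hr'

theorem elim_free (C : List (ℕ × ℕ)) (R : List Row) (v : ℕ × ℕ) :
    (∀ r ∈ elim C R v, v ∉ r.1) ∧ ∀ w, (∀ r ∈ R, w ∉ r.1) → ∀ r ∈ elim C R v, w ∉ r.1 := by
  unfold elim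
  cases h : R.find? (fun r => decide (v ∈ r.1)) with
  | none =>
    refine ⟨fun r hr => ?_, fun w hw => hw⟩
    simpa using List.find?_eq_none.1 h r hr
  | some p =>
    have hp : p ∈ R := List.mem_of_find?_eq_some h
    have hv : v ∈ p.1 := by simpa using List.find?_some h
    simp only [Option.elim_some]
    refine ⟨fun r hr => ?_, fun w hw r hr => ?_⟩ <;> obtain ⟨r, hr', rfl⟩ := List.mem_map.1 hr <;>
      split_ifs with h2
    · simp [addRow, h2, hv]
    · exact h2
    · simp [addRow, hw r hr', hw p hp]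
    · exact hw r hr'

theorem foldl_elim (C : List (ℕ × ℕ)) (L : List (ℕ × ℕ)) (hL : ∀ v ∈ L, v ∈ C) :
    ∀ R : List Row, ((∃ x, Sat C x (L.foldl (elim C) R)) ↔ ∃ x, Sat C x R) ∧
      ∀ w, (w ∈ L ∨ ∀ r ∈ R, w ∉ r.1) → ∀ r ∈ L.foldl (elim C) R, w ∉ r.1 := by
  induction L with
  | nil => exact fun R => ⟨Iff.rfl, fun w hw => hw.resolve_left (by simp)⟩
  | cons v L ih =>
    intro R
    obtain ⟨h1, h2⟩ := ih (fun w hw => hL w (List.mem_cons_of_mem _ hw)) (elim C R v)
    refine ⟨h1.trans (elim_sat C R (hL v List.mem_cons_self)), fun w hw => h2 w ?_⟩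
    rcases hw with hw | hw
    · rcases List.mem_cons.1 hw with rfl | hw
      · exact Or.inr (elim_free C R w).1
      · exact Or.inl hw
    · exact Or.inr ((elim_free C R v).2 w hw)

theorem solvable_iff (C : List (ℕ × ℕ)) (R : List Row) :
    solvable C R = true ↔ ∃ x, Sat C x R := by
  obtain ⟨h1, h2⟩ := foldl_elim C C (fun _ h => h) R
  have zero : ∀ x, ∀ r ∈ C.foldl (elim C) R, rowVal C x r.1 = 0 := fun x r hr =>
    Finset.sum_eq_zero fun c hc => if_neg (h2 c (Or.inl (List.mem_toFinset.1 hc)) r hr)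
  rw [← h1, solvable, List.all_eq_true]
  constructor
  · intro h
    refine ⟨0, fun r hr => ?_⟩
    have : r.2 = false := by simpa using h r hr
    rw [zero 0 r hr, this]; rfl
  · rintro ⟨x, hx⟩ r hr
    have := hx r hr
    rw [zero x r hr] at this
    revert this
    cases r.2 <;> decide

theorem rowVal_nodup (C : List (ℕ × ℕ)) (x : ℕ × ℕ → ZMod 2) {l : List (ℕ × ℕ)} (hl : l.Nodup)
    (hC : ∀ c ∈ l, c ∈ C) : rowVal C x l = (l.map x).sum := by
  unfold rowVal
  rw [← List.sum_toFinset x hl, ← Finset.sum_filter]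
  refine Finset.sum_congr ?_ fun _ _ => rfl
  ext c
  simp only [Finset.mem_filter, List.mem_toFinset]
  exact ⟨fun h => h.2, fun h => ⟨hC c h, h⟩⟩

theorem elim_pt : IsPolyTime (fun p : List (ℕ × ℕ) × List Row × (ℕ × ℕ) =>
    elim p.1 p.2.1 p.2.2) := by
  unfold elim addRow
  fun_prop

theorem solvable_pt : IsPolyTime (fun p : List (ℕ × ℕ) × List Row => solvable p.1 p.2) := by
  have h : IsPolyTime (fun p : List (ℕ × ℕ) × List Row => p.1.foldl (elim p.1) p.2) := by
    refine IsPolyTime.foldl_inv (f := fun p : List (ℕ × ℕ) × List Row => elim p.1)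
      (elim_pt.comp (g := fun q : (List (ℕ × ℕ) × List Row) × List Row × (ℕ × ℕ) =>
        (q.1.1, q.2.1, q.2.2)) (by fun_prop)) (by fun_prop) (by fun_prop)
      (fun p s => s.length = p.2.length ∧ ∀ r ∈ s, bsize r ≤ 2 * bsize p.1 + 2 + bsize p.2)
      (fun p => ⟨rfl, fun r hr => (bsize_le_of_mem hr).trans (by omega)⟩) ?_
      (fun p => p.2.length * (2 * (2 * bsize p.1 + 2 + bsize p.2) + 1)) (by fun_prop)
      (fun p s hs => hs.1 ▸ bsize_list_le s _ hs.2)
    rintro p s v - ⟨h1, h2⟩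
    unfold elim
    cases s.find? (fun r => decide (v ∈ r.1)) with
    | none => exact ⟨h1, h2⟩
    | some q =>
      simp only [Option.elim_some]
      refine ⟨by rw [List.length_map, h1], fun r hr => ?_⟩
      obtain ⟨r, hr', rfl⟩ := List.mem_map.1 hr
      split_ifs
      · have := bsize_sublist (List.filter_sublist (l := p.1)
          (p := fun c => xor (decide (c ∈ r.1)) (decide (c ∈ q.1))))
        rw [addRow, bsize_pair, bsize_bool]
        omega
      · exact h2 r hr'
  unfold solvable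
  fun_prop

end Pool.Agent.Lib.MP_c59a20_lc
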