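import Pool.Agent.Lib.MP_c59a20_lc.Sys

/-!
A pair lying in two triples is distinguished, or both other pairs of each of its triples are.
-/

namespace Pool.Agent.Lib.MP_c59a20_lc

variable {α : Type} {V : Finset α} {T : α → α → α → Prop} {P : α → α → Prop}
  {x : α → α → ZMod 2}

open Relation

theorem Ctx.co2_blocked (h : Ctx V T P x) {a b c d : α} (t : T a b c) (t' : T a b d) (hcd : c ≠ d)
    (n : ¬ P a b) : cr x a b c d = 1 ∧ P c d ∧ (∀ e, T a b e → e = c ∨ e = d) ∧
      (∀ e, T c d e → e = a ∨ e = b) ∧ T c d a ∧ T c d b := by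
  obtain ⟨p, q, r, o, h1, h2, h3, h4, h5, h6, h7⟩ :=
    h.max a b c x t n (fun _ _ => ⟨c, d, hcd, t, t'⟩) h.tour h.lin
  have all : ∀ e, T a b e → e = p ∨ e = q := fun e te => by
    have := h.tob te o h1 h2 h3 h4 h5 h6
    have := z2_ne
    grind
  have k1 := all c t
  have k2 := all d t'
  have hcr : cr x a b c d = 1 := by
    have := cr_r x a b p q
    grind
  have o' : Ob T P c d r := by
    have := h.o12 o
    grind
  have third : ∀ e, Ob T P c d e → e ≠ a → e ≠ b → e = c ∨ e = d := by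
    intro e oe e1 e2
    have n1 := h.nes t
    have n2 := h.nes t'
    have a1 := h.tob t' (h.o23 oe)
    have a2 := h.tob t (h.oc1 oe)
    have a3 := cr_add_r x a b c e d
    have a4 := cr_r x a b e d
    have := z2_ne
    grind
  have pcd : P c d := h.oP o' hcd (third r o' h3.symm h6.symm)
  have nb : ∀ e, T c d e → e = a ∨ e = b := fun e te => by
    have := third e (Or.inl te)
    have := h.nes te
    grind
  have hab := h.ne1 t
  have both : ∀ a b, a ≠ b → T a b c → T a b d → (∀ e, T c d e → e = a ∨ e = b) → T c d a →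
      T c d b := by
    intro a b hab t t' nb ta
    obtain ⟨e, e', h1, h2, h3⟩ := h.i2 pcd ta ⟨b, d, h.ne3 t', h.c2 t, h.s23 ta⟩
      ⟨b, c, h.ne3 t, h.c2 t', h.c1 ta⟩
    have := nb e h2
    have := nb e' h3
    grind
  obtain ⟨e, te⟩ := h.pT pcd
  refine ⟨hcr, pcd, fun e te => by have := all e te; grind, nb, ?_⟩
  rcases nb e te with rfl | rfl
  · exact ⟨te, both e b hab t t' nb te⟩
  · exact ⟨both e a hab.symm (h.s12 t) (h.s12 t') (fun e te => (nb e te).symm) te, te⟩

/-- In a closed crossed tetrahedron no other triple passes through `a`. -/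
theorem Ctx.dia_one (h : Ctx V T P x) {a b c d : α} (t1 : T a b c) (t2 : T a b d) (t3 : T a c d)
    (t4 : T b c d) (c1 : cr x a b c d = 1) (c2 : cr x a c b d = 1)
    (cl : ∀ p q r, T p q r → (p = a ∨ p = b ∨ p = c ∨ p = d) → (q = a ∨ q = b ∨ q = c ∨ q = d) →
      (r = a ∨ r = b ∨ r = c ∨ r = d)) :
    ∀ q r, T a q r → q = b ∨ q = c ∨ q = d := by
  obtain ⟨n1, n2, n3⟩ := h.nes t1
  obtain ⟨-, n4, n5⟩ := h.nes t2
  have n6 := h.ne3 t3
  have c3 : cr x a d b c = 1 := by
    have := h.tour.three (a := a) n3 n5 n6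
    grind
  set R : α → α → Prop := fun p q => ∃ r, T p q r ∧ p ≠ b ∧ p ≠ c ∧ p ≠ d ∧ q ≠ b ∧ q ≠ c ∧
    q ≠ d ∧ r ≠ b ∧ r ≠ c ∧ r ≠ d with hR
  have out : ∀ p, ReflTransGen R a p → p ≠ b ∧ p ≠ c ∧ p ≠ d := fun p hp => by
    rcases reach_last hp with rfl | ⟨q, r, h⟩
    · exact ⟨n1, n2, n4⟩
    · exact ⟨h.2.2.2.2.1, h.2.2.2.2.2.1, h.2.2.2.2.2.2.1⟩
  have walk : ∀ u v w, T u v w → (u = b ∨ u = c ∨ u = d) → (v = b ∨ v = c ∨ v = d) →
      (w = b ∨ w = c ∨ w = d) → ∀ p, ReflTransGen R a p → cr x u v a p = 0 := by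
    intro u v w t hu hv hw p hp
    refine cr_reach hp ?_
    rintro p q - ⟨r, t', h'⟩
    have := h.tt t t'
    grind
  have step : ∀ p q r, T p q r → ReflTransGen R a p → p ≠ a → R p q := by
    intro p q r t hp hpa
    obtain ⟨o1, o2, o3⟩ := out p hp
    have k := cl q r p (h.c1 t)
    have last : ∀ s s', T p s s' → s ≠ b ∧ s ≠ c ∧ s ≠ d := by
      intro s s' t
      have k := cl s s' p (h.c1 t)
      refine ⟨?_, ?_, ?_⟩ <;> rintro rfl
      · have a1 := walk c d s (h.c1 t4) (by simp) (by simp) (by simp) p hp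
        have a2 := h.tt (h.c1 t3) t
        have a3 := cr_add_r x c d a p s
        have a4 := h.tour.swap n2 n4 n3 n5
        have := z2_ne
        grind
      · have a1 := walk b d s (h.s23 t4) (by simp) (by simp) (by simp) p hp
        have a2 := h.tt (h.c1 t2) t
        have a3 := cr_add_r x b d a p s
        have a4 := h.tour.swap n1 n4 n3.symm n6
        have := z2_ne
        grind
      · have a1 := walk b c s t4 (by simp) (by simp) (by simp) p hp
        have a2 := h.tt (h.c1 t1) t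
        have a3 := cr_add_r x b c a p s
        have a4 := h.tour.swap n1 n2 n5.symm n6.symm
        have := z2_ne
        grind
    obtain ⟨q1, q2, q3⟩ := last q r t
    obtain ⟨r1, r2, r3⟩ := last r q (h.s23 t)
    exact ⟨r, t, o1, o2, o3, q1, q2, q3, r1, r2, r3⟩
  intro q r t
  by_contra hq
  have hr := cl a r q (h.s23 t)
  have hqa := h.ne1 t
  have := h.nocut a (h.mem t) (fun p => ReflTransGen R a p ∧ p ≠ a) (fun p h => h.2)
    (fun p q r t hp hq => ⟨hp.1.tail (step p q r t hp.1 hp.2), hq⟩) q (h.mem2 t)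
    ⟨ReflTransGen.single ⟨r, t, by grind⟩, hqa.symm⟩ b (h.mem2 t1) n1.symm
  exact (out b this.1).1 rfl

theorem Ctx.stage0 [DecidableEq α] (h : Ctx V T P x) (hV : 4 < V.card) {a b c : α} (t : T a b c)
    (n : ¬ P a b) (co : Co2 T a b) : P a c := by
  by_contra n'
  obtain ⟨d, hcd, t'⟩ : ∃ d, c ≠ d ∧ T a b d := by
    obtain ⟨e, e', h1, h2, h3⟩ := co
    by_cases h : c = e
    · exact ⟨e', h ▸ h1, h3⟩
    · exact ⟨e, h, h2⟩
  obtain ⟨c1, -, k1, k2, t3, t4⟩ := h.co2_blocked t t' hcd n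
  obtain ⟨n1, n2, n3⟩ := h.nes t
  obtain ⟨-, n4, n5⟩ := h.nes t'
  obtain ⟨c2, -, k3, k4, -, -⟩ := h.co2_blocked (h.s23 t) (h.c2 t3) n5 n'
  have c3 : cr x a d b c = 1 := by
    have := h.tour.three (a := a) n3 n5 hcd
    grind
  have k56 : (∀ e, T a d e → e = b ∨ e = c) ∧ ∀ e, T b c e → e = a ∨ e = d := by
    by_cases p1 : P a d
    · by_cases p2 : P b c
      · rw [h.pp p1 p2 n1 n2 n5.symm hcd.symm] at c3
        exact absurd c3 z2_ne
      · obtain ⟨-, -, k5, k6, -, -⟩ := h.co2_blocked (h.c1 t) (h.c2 t4) n4 p2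
        exact ⟨k6, k5⟩
    · obtain ⟨-, -, k5, k6, -, -⟩ := h.co2_blocked (h.s23 t') (h.s13 t3) n3 p1
      exact ⟨k5, k6⟩
  obtain ⟨k5, k6⟩ := k56
  have cl : ∀ p q r, T p q r → (p = a ∨ p = b ∨ p = c ∨ p = d) → (q = a ∨ q = b ∨ q = c ∨ q = d) →
      (r = a ∨ r = b ∨ r = c ∨ r = d) := by
    intro p q r t hp hq
    have := h.ne1 t
    have := h.s12 t
    grind
  have db := h.dia_one (h.s12 t) (h.s12 t') (h.c2 t4) (h.c2 t3) (by rw [cr_l]; exact c1)
    (by rw [← h.tour.swap n1 n2 n5.symm hcd.symm]; exact c3)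
    (fun p q r t hp hq => by have := cl p q r t; grind)
  have dc := h.dia_one (h.c2 t) (h.s23 t3) (h.s23 t4) t' (by rw [cr_l]; exact c2)
    (by rw [cr_l, ← h.tour.swap n1 n2 n5.symm hcd.symm]; exact c3)
    (fun p q r t hp hq => by have := cl p q r t; grind)
  have dd := h.dia_one (h.c2 t') (h.c1 t3) (h.c1 t4) t (by rw [cr_l]; exact c3)
    (by rw [cr_l, ← h.tour.swap n1 n4 n3.symm hcd]; exact c2)
    (fun p q r t hp hq => by have := cl p q r t; grind)
  have all := h.nocut a (h.mem t) (fun p => p = b ∨ p = c ∨ p = d) (by grind)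
    (fun p q r t hp hq => by
      have := db q r
      have := dc q r
      have := dd q r
      grind) b (h.mem2 t) (Or.inl rfl)
  have : V ⊆ {a, b, c, d} := fun w hw => by
    have := all w hw
    simp only [Finset.mem_insert, Finset.mem_singleton]
    grind
  have h1 := Finset.card_le_card this
  have h2 : ({a, b, c, d} : Finset α).card ≤ 4 := Finset.card_le_four
  omega

end Pool.Agent.Lib.MP_c59a20_lc
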