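import Pool.Agent.Lib.MP_c59a20_lc.Stage2a

/-!
There is no triple with exactly one distinguished pair.
-/

namespace Pool.Agent.Lib.MP_c59a20_lc

variable {α : Type} {V : Finset α} {T : α → α → α → Prop} {P : α → α → Prop}
  {x : α → α → ZMod 2}

open Relation

/-- Move the set `Z`, contracted to `m`, across the set `S`. -/
noncomputable def move (y : α → α → ZMod 2) (Z S : α → Prop) (m : α) : α → α → ZMod 2 := by
  classical
  exact fun p q => if Z p then (if Z q then y p q else y m q + ind S q)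
    else (if Z q then y p m + ind S p else y p q)

theorem Ctx.pend_move (h : Ctx V T P x) {m u v : α} {Z S : α → Prop} (A : Pend T P m u v)
    (z : ZS T P m u v Z) (Sv : ¬ S v)
    (S1 : ∀ p q r, Ob T P p q r → p ≠ v → q ≠ v → r ≠ v → p ≠ u → q ≠ u → S p → S q)
    (S2 : ∀ d r, Ob T P v d r → d ≠ u → r ≠ u → d ≠ v → (S d ↔ cr x m u v d = 1)) : False := by
  obtain ⟨n1, n2, n3⟩ := h.nes A.t
  have hy := h.change (gauge_tour h.tour 0 u) (fun a b c p q r o o' h1 h2 h3 h4 h5 h6 h7 h8 => by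
    rw [cr_gauge]; exact h.lin a b c p q r o o' h1 h2 h3 h4 h5 h6 h7 h8)
  have hyc : ∀ a b p q, cr (gauge x 0 u) a b p q = cr x a b p q := fun a b p q =>
    cr_gauge _ _ _ _ _ _
  have ysnk : ∀ a, a ≠ u → gauge x 0 u a u = 0 := fun a ha => gauge_snk h.tour 0 ha
  generalize gauge x 0 u = y at hy hyc ysnk
  set w := move y Z S m with hw
  have w11 : ∀ p q, Z p → Z q → w p q = y p q := fun p q h1 h2 => by
    simp only [hw, move, h1, h2, if_true]
  have w12 : ∀ p q, Z p → ¬ Z q → w p q = y m q + ind S q := fun p q h1 h2 => by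
    simp only [hw, move, h1, h2, if_true, if_false]
  have w21 : ∀ p q, ¬ Z p → Z q → w p q = y p m + ind S p := fun p q h1 h2 => by
    simp only [hw, move, h1, h2, if_true, if_false]
  have w22 : ∀ p q, ¬ Z p → ¬ Z q → w p q = y p q := fun p q h1 h2 => by
    simp only [hw, move, h1, h2, if_false]
  clear_value w
  have zm : ∀ p, ¬ Z p → p ≠ m := fun p k e => k (e ▸ z.zm)
  have zu : ∀ p, Z p → p ≠ u := fun p k e => z.zu (e ▸ k)
  have zv : ∀ p, Z p → p ≠ v := fun p k e => z.zv (e ▸ k)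
  have wt : Tour w := by
    intro p q hpq
    by_cases h1 : Z p <;> by_cases h2 : Z q
    · rw [w11 p q h1 h2, w11 q p h2 h1]; exact hy.tour p q hpq
    · rw [w12 p q h1 h2, w21 q p h2 h1]
      have := hy.tour q m (zm q h2)
      grind
    · rw [w21 p q h1 h2, w12 q p h2 h1]
      have := hy.tour p m (zm p h1)
      grind
    · rw [w22 p q h1 h2, w22 q p h2 h1]; exact hy.tour p q hpq
  have Seq : ∀ p q r, Ob T P p q r → p ≠ v → q ≠ v → r ≠ v → p ≠ u → q ≠ u →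
      ind S p = ind S q := by
    intro p q r o h1 h2 h3 h4 h5
    by_cases k : S p
    · rw [ind_pos k, ind_pos (S1 p q r o h1 h2 h3 h4 h5 k)]
    · rw [ind_neg k, ind_neg fun k' => k (S1 q p r (h.o12 o) h2 h1 h3 h5 h4 k')]
  have Sat : ∀ d r, Ob T P v d r → d ≠ u → r ≠ u → d ≠ v → ind S d = cr x m u v d := by
    intro d r o h1 h2 h3
    have := S2 d r o h1 h2 h3
    by_cases k : S d
    · rw [ind_pos k, this.1 k]
    · rw [ind_neg k, z2_zero fun k' => k (this.2 k')]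
  -- a chord inside `Z`
  have c1 : ∀ a b c p q r, Ob T P a b c → Ob T P p q r → a ≠ p → a ≠ q → a ≠ r → b ≠ p → b ≠ q →
      b ≠ r → c ≠ p → c ≠ q → Z a → Z b → cr w a b p q = 0 := by
    have c0 : ∀ a b c p q r, Ob T P a b c → Ob T P p q r → a ≠ p → b ≠ p → c ≠ p → Z a → Z b →
        Z p → ¬ Z q → cr w a b p q = 0 := by
      intro a b c p q r o o' h1 h4 h7 za zb zp zq
      have zc : Z c := by
        rcases z.cl a b c za o with k | k | k
        exacts [k.2, absurd k.1 (zu b zb), absurd k.1 (zv b zb)]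
      have ou : Ob T P p u v := by
        rcases z.cl p q r zp o' with k | ⟨rfl, rfl⟩ | ⟨rfl, rfl⟩
        exacts [absurd k.1 zq, o', h.o23 o']
      have := hy.lin a b c p u v o ou h1 (zu a za) (zv a za) h4 (zu b zb) (zv b zb) h7 (zu c zc)
      have := ysnk a (zu a za)
      have := ysnk b (zu b zb)
      unfold cr at *
      rw [w11 a p za zp, w11 b p zb zp, w12 a q za zq, w12 b q zb zq]
      grind
    intro a b c p q r o o' h1 h2 h3 h4 h5 h6 h7 h8 za zb
    by_cases zp : Z p <;> by_cases zq : Z q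
    · have := hy.lin a b c p q r o o' h1 h2 h3 h4 h5 h6 h7 h8
      unfold cr at *
      rw [w11 a p za zp, w11 b p zb zp, w11 a q za zq, w11 b q zb zq, this]
    · exact c0 a b c p q r o o' h1 h4 h7 za zb zp zq
    · rw [cr_r]; exact c0 a b c q p r o (h.o12 o') h2 h5 h8 za zb zq zp
    · unfold cr
      rw [w12 a p za zp, w12 b p zb zp, w12 a q za zq, w12 b q zb zq]
      grind
  -- a chord leaving `Z`
  have c2 : ∀ a b c p q r, Ob T P a b c → Ob T P p q r → b ≠ p → b ≠ q →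
      b ≠ r → c ≠ p → c ≠ q → Z a → ¬ Z b → ¬ (Z p ∧ Z q) → cr w a b p q = 0 := by
    intro a b c p q r o o' h4 h5 h6 h7 h8 za zb zpq
    have hb : (b = u ∧ c = v) ∨ (b = v ∧ c = u) := (z.cl a b c za o).resolve_left fun k => zb k.1
    have zp : ¬ Z p := fun k => by
      have := z.cl p q r k o'
      grind
    have zq : ¬ Z q := fun k => by
      have := z.cl q p r k (h.o12 o')
      grind
    have zr : ¬ Z r := fun k => by
      have := z.cl r p q k (h.oc2 o')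
      grind
    have e : cr y m b p q = 0 ∧ ind S p = ind S q := by
      rcases hb with ⟨rfl, rfl⟩ | ⟨rfl, rfl⟩
      · have e1 := hy.tob A.t o' (zm p zp).symm (zm q zq).symm (zm r zr).symm h4 h5 h6 h7 h8
        refine ⟨e1, ?_⟩
        by_cases rv : r = c
        · subst rv
          rw [Sat p q (h.oc2 o') h4.symm h5.symm h7.symm, Sat q p (h.o13 o') h5.symm h4.symm h8.symm,
            cr_add_r x m b r p q, ← hyc m b p q, e1, add_zero]
        · exact Seq p q r o' h7.symm h8.symm rv h4.symm h5.symm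
      · exact ⟨hy.tob (h.s23 A.t) o' (zm p zp).symm (zm q zq).symm (zm r zr).symm h4 h5 h6 h7 h8,
          Seq p q r o' h4.symm h5.symm h6.symm h7.symm h8.symm⟩
    unfold cr at *
    rw [w12 a p za zp, w12 a q za zq, w22 b p zb zp, w22 b q zb zq]
    grind
  have wl : Lin w (Ob T P) := by
    intro a b c p q r o o' h1 h2 h3 h4 h5 h6 h7 h8
    by_cases k1 : Z a ∧ Z b
    · exact c1 a b c p q r o o' h1 h2 h3 h4 h5 h6 h7 h8 k1.1 k1.2
    by_cases k2 : Z p ∧ Z q
    · rw [wt.swap h1 h2 h4 h5]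
      exact c1 p q r a b c o' o h1.symm h4.symm h7.symm h2.symm h5.symm h8.symm h3.symm h6.symm
        k2.1 k2.2
    by_cases za : Z a
    · exact c2 a b c p q r o o' h4 h5 h6 h7 h8 za (fun k => k1 ⟨za, k⟩) k2
    by_cases zb : Z b
    · rw [cr_l]; exact c2 b a c p q r (h.o12 o) o' h1 h2 h3 h7 h8 zb za k2
    by_cases zp : Z p
    · rw [wt.swap h1 h2 h4 h5]
      exact c2 p q r a b c o' o h2.symm h5.symm h8.symm h3.symm h6.symm zp (fun k => k2 ⟨zp, k⟩) k1
    by_cases zq : Z q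
    · rw [wt.swap h1 h2 h4 h5, cr_l]
      exact c2 q p r a b c (h.o12 o') o h1.symm h4.symm h7.symm h3.symm h6.symm zq zp k1
    have := hy.lin a b c p q r o o' h1 h2 h3 h4 h5 h6 h7 h8
    unfold cr at *
    rw [w22 a p za zp, w22 b p zb zp, w22 a q za zq, w22 b q zb zq, this]
  have h' := h.change wt wl
  obtain ⟨d, r, o, h1, h2, h3, h4, h5, h6, -⟩ := h'.blocker A.t (h'.pend_blocked A)
  have zd : ¬ Z d := fun k => by
    have := z.cl d v r k (h.o12 o)
    have := z.zv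
    grind
  have e := Sat d r o h2 h5 h3
  rw [← hyc] at e
  unfold cr at h6 e
  rw [w12 m v z.zm z.zv, w12 m d z.zm zd, w22 u v z.zu z.zv, w22 u d z.zu zd, ind_neg Sv] at h6
  have := z2_ne
  grind

/-- Steps through objects avoiding `u` and `v`. -/
def St0 (T : α → α → α → Prop) (P : α → α → Prop) (u v p q : α) : Prop :=
  ∃ r, Ob T P p q r ∧ (p ≠ u ∧ p ≠ v) ∧ (q ≠ u ∧ q ≠ v) ∧ r ≠ u ∧ r ≠ v

/-- A part outside `Z` joined to `v` at `d` and to `u` at `f`. -/
structure Dbl (T : α → α → α → Prop) (P : α → α → Prop) (Z : α → Prop) (u v d f : α) : Prop where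
  od : ∃ r, Ob T P v d r ∧ r ≠ u
  of : ∃ s, Ob T P u f s ∧ s ≠ v
  du : d ≠ u
  dv : d ≠ v
  zd : ¬ Z d
  w : ReflTransGen (St0 T P u v) d f

theorem Ctx.st0_inv (h : Ctx V T P x) {m u v d p : α} {Z : α → Prop} (A : Pend T P m u v)
    (z : ZS T P m u v Z) (du : d ≠ u) (dv : d ≠ v) (zd : ¬ Z d)
    (w : ReflTransGen (St0 T P u v) d p) : (p ≠ u ∧ p ≠ v ∧ ¬ Z p) ∧
      cr x m v u p = cr x m v u d ∧ cr x m u v p = cr x m u v d := by
  induction w with
  | refl => exact ⟨⟨du, dv, zd⟩, rfl, rfl⟩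
  | @tail p q _ h2 ih =>
    obtain ⟨r, o, ⟨pu, pv⟩, ⟨qu, qv⟩, ru, rv⟩ := h2
    obtain ⟨⟨-, -, zp⟩, e1, e2⟩ := ih
    have zq : ¬ Z q := fun k => by
      have := z.cl q p r k (h.o12 o)
      grind
    have zr : ¬ Z r := fun k => by
      have := z.cl r p q k (h.oc2 o)
      grind
    have zm : ∀ p, ¬ Z p → m ≠ p := fun p k e => k (e ▸ z.zm)
    refine ⟨⟨qu, qv, zq⟩, ?_, ?_⟩
    · rw [cr_add_r x m v u p q, e1, h.tob (h.s23 A.t) o (zm p zp) (zm q zq) (zm r zr) pv.symm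
        qv.symm rv.symm pu.symm qu.symm, add_zero]
    · rw [cr_add_r x m u v p q, e2, h.tob A.t o (zm p zp) (zm q zq) (zm r zr) pu.symm
        qu.symm ru.symm pv.symm qv.symm, add_zero]

theorem st0_sw {u v p q : α} (s : St0 T P u v p q) : St0 T P v u p q := by
  obtain ⟨r, o, h⟩ := s
  exact ⟨r, o, by tauto⟩

theorem Ctx.st0_symm (h : Ctx V T P x) {u v p q : α} (s : St0 T P u v p q) : St0 T P u v q p := by
  obtain ⟨r, o, k⟩ := s
  exact ⟨r, h.o12 o, by tauto⟩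

theorem Ctx.dsw (h : Ctx V T P x) {m u v d f : α} {Z : α → Prop} (A : Pend T P m u v)
    (z : ZS T P m u v Z) (D : Dbl T P Z u v d f) : Dbl T P Z v u f d := by
  obtain ⟨⟨fu, fv, zf⟩, -⟩ := h.st0_inv A z D.du D.dv D.zd D.w
  exact ⟨D.of, D.od, fv, fu, zf,
    ReflTransGen.mono (fun _ _ => st0_sw) _ _ (reach_symm (fun _ _ => h.st0_symm) D.w)⟩

/-- The other point of an object at `v` avoiding `u` lies on the same side of `mu`. -/
theorem Ctx.same_side (h : Ctx V T P x) {m u v d r : α} {Z : α → Prop} (A : Pend T P m u v)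
    (z : ZS T P m u v Z) (o : Ob T P v d r) (du : d ≠ u) (dv : d ≠ v) (ru : r ≠ u) (zd : ¬ Z d) :
    r = v ∨ cr x m u v r = cr x m u v d := by
  by_cases rv : r = v
  · exact Or.inl rv
  have zr : ¬ Z r := fun k => by
    have := z.cl r v d k (h.oc2 o)
    grind
  have zm : ∀ p, ¬ Z p → m ≠ p := fun p k e => k (e ▸ z.zm)
  refine Or.inr ?_
  rw [cr_add_r x m u v d r, h.tob A.t (h.oc1 o) (zm d zd) (zm r zr) (h.ne2 A.t) du.symm ru.symm
    (h.ne3 A.t) dv.symm (Ne.symm rv), add_zero]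

theorem Ctx.half_dd (h : Ctx V T P x) {m u v d f d' f' : α} {Z : α → Prop} (A : Pend T P m u v)
    (z : ZS T P m u v Z) (D : Dbl T P Z u v d f) (D' : Dbl T P Z u v d' f')
    (b : cr x m v u d ≠ cr x m v u d') (g : cr x m u v d ≠ cr x m u v d') :
    cr x u f v f' = 0 := by
  obtain ⟨⟨fu, fv, zf⟩, bf, gf⟩ := h.st0_inv A z D.du D.dv D.zd D.w
  obtain ⟨s, o, sv⟩ := D.of
  obtain ⟨r, o', ru⟩ := D'.od
  have hs := h.same_side (h.psw A) z.sw o fv fu sv zf
  have hr := h.same_side A z o' D'.du D'.dv ru D'.zd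
  have far : ∀ p, ReflTransGen (St0 T P u v) d' p → u ≠ p ∧ f ≠ p ∧ s ≠ p := by
    intro p hp
    obtain ⟨⟨pu, -, -⟩, bp, -⟩ := h.st0_inv A z D'.du D'.dv D'.zd hp
    refine ⟨pu.symm, ?_, ?_⟩ <;> rintro rfl
    · exact b (bf.symm.trans bp)
    · rcases hs with e | e
      · exact pu e
      · exact b ((e.trans bf).symm.trans bp)
  have a1 : cr x u f d' f' = 0 := cr_reach D'.w (by
    rintro p q hp ⟨t, ot, k1, k2, k3⟩
    obtain ⟨p1, p2, p3⟩ := far p hp
    obtain ⟨q1, q2, q3⟩ := far q (hp.tail ⟨t, ot, k1, k2, k3⟩)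
    obtain ⟨t1, t2, -⟩ := far t (hp.tail ⟨q, h.o23 ot, k1, k3, k2⟩)
    exact h.lin u f s p q t o ot p1 q1 t1 p2 q2 t2 p3 q3)
  obtain ⟨p1, p2, p3⟩ := far d' ReflTransGen.refl
  have fr : f ≠ r := by
    rintro rfl
    rcases hr with e | e
    · exact fv e
    · exact g (gf.symm.trans e)
  rw [cr_add_r x u f v d' f', a1,
    h.lin u f s v d' r o o' (h.ne3 A.t) p1 ru.symm fv p2 fr sv p3, add_zero]

theorem Ctx.dd (h : Ctx V T P x) {m u v d f d' f' : α} {Z : α → Prop} (A : Pend T P m u v)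
    (z : ZS T P m u v Z) (D : Dbl T P Z u v d f) (D' : Dbl T P Z u v d' f')
    (b : cr x m v u d ≠ cr x m v u d') (g : cr x m u v d ≠ cr x m u v d') : False := by
  obtain ⟨n1, n2, n3⟩ := h.nes A.t
  obtain ⟨⟨fu, fv, zf⟩, bf, gf⟩ := h.st0_inv A z D.du D.dv D.zd D.w
  obtain ⟨⟨fu', fv', zf'⟩, bf', gf'⟩ := h.st0_inv A z D'.du D'.dv D'.zd D'.w
  have a1 := h.half_dd A z D D' b g
  have a2 := h.half_dd A z D' D b.symm g.symm
  have ff : f ≠ f' := by rintro rfl; exact b (bf.symm.trans bf')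
  have a3 := h.tour.three (a := u) fv.symm fv'.symm ff
  have a4 := third_one h.tour f n1 n2 n3
  have a5 := third_one h.tour f' n1 n2 n3
  have a6 := cr_add_r x u v m f f'
  rw [← bf, ← bf'] at b
  rw [← gf, ← gf'] at g
  generalize cr x m v u f = b1 at *
  generalize cr x m v u f' = b2 at *
  generalize cr x m u v f = g1 at *
  generalize cr x m u v f' = g2 at *
  have := z2_ne
  rcases z2 b1 with rfl | rfl <;> rcases z2 b2 with rfl | rfl <;> rcases z2 g1 with rfl | rfl <;>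
    rcases z2 g2 with rfl | rfl <;> grind

theorem Ctx.fail (h : Ctx V T P x) {m u v : α} {Z : α → Prop} (A : Pend T P m u v)
    (z : ZS T P m u v Z) : ∃ b, ∀ g, ∃ d f, Dbl T P Z u v d f ∧ cr x m v u d = b ∧
      cr x m u v d = g := by
  set St : α → α → Prop := fun p q => ∃ r, Ob T P p q r ∧ p ≠ v ∧ q ≠ v ∧ r ≠ v ∧ p ≠ u ∧ q ≠ u
    with hSt
  set att : α → Prop := fun d => d ≠ u ∧ d ≠ v ∧ ∃ r, Ob T P v d r ∧ r ≠ u with hatt
  obtain ⟨d1, d0, a1, g1, w, a0, g0⟩ : ∃ d1 d0, att d1 ∧ cr x m u v d1 = 1 ∧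
      ReflTransGen St d1 d0 ∧ att d0 ∧ cr x m u v d0 = 0 := by
    by_contra hn
    refine h.pend_move (S := fun w => ∃ d, att d ∧ cr x m u v d = 1 ∧ ReflTransGen St d w) A z
      ?_ ?_ ?_
    · rintro ⟨d, k1, -, k3⟩
      rcases reach_last k3 with e | ⟨p, r, k⟩
      · exact k1.2.1 e.symm
      · exact k.2.2.1 rfl
    · rintro p q r o h1 h2 h3 h4 h5 ⟨d, k1, k2, k3⟩
      exact ⟨d, k1, k2, k3.tail ⟨r, o, h1, h2, h3, h4, h5⟩⟩
    · intro d r o h1 h2 h3
      constructor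
      · rintro ⟨d1, k1, k2, k3⟩
        exact z2_one fun e => hn ⟨d1, d, k1, k2, k3, ⟨h1, h3, r, o, h2⟩, e⟩
      · exact fun e => ⟨d, ⟨h1, h3, r, o, h2⟩, e, ReflTransGen.refl⟩
  have az : ∀ d, att d → ¬ Z d := by
    rintro d ⟨-, -, r, o, ru⟩ k
    have := z.cl d v r k (h.o12 o)
    have := z.zv
    have := h.ne3 A.t
    grind
  have mk : ∀ d d', att d → ReflTransGen St d d' → cr x m u v d' ≠ cr x m u v d →
      ∃ f, Dbl T P Z u v d f := by
    intro d d' a w g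
    obtain ⟨p, q, w1, ⟨r, o, h1, h2, h3, h4, h5⟩, w3⟩ := exit_step (R' := St0 T P u v) w
      fun k => g (h.st0_inv A z a.1 a.2.1 (az d a) k).2.2
    have ru : r = u := by
      by_contra ru
      exact w3 ⟨r, o, ⟨h4, h1⟩, ⟨h5, h2⟩, ru, h3⟩
    subst ru
    exact ⟨p, a.2.2, ⟨q, h.oc2 o, h2⟩, a.1, a.2.1, az d a, w1⟩
  have bb : ∀ p, ReflTransGen St d1 p → ¬ Z p ∧ cr x m v u p = cr x m v u d1 := by
    intro p hp
    induction hp with
    | refl => exact ⟨az d1 a1, rfl⟩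
    | @tail p q _ h2 ih =>
      obtain ⟨r, o, pv, qv, rv, pu, qu⟩ := h2
      have zq : ¬ Z q := fun k => by
        have := z.cl q p r k (h.o12 o)
        grind
      have zr : ¬ Z r := fun k => by
        have := z.cl r p q k (h.oc2 o)
        grind
      have zm : ∀ p, ¬ Z p → m ≠ p := fun p k e => k (e ▸ z.zm)
      refine ⟨zq, ?_⟩
      rw [cr_add_r x m v u p q, ih.2, h.tob (h.s23 A.t) o (zm p ih.1) (zm q zq) (zm r zr) pv.symm
        qv.symm rv.symm pu.symm qu.symm, add_zero]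
  refine ⟨cr x m v u d1, fun g => ?_⟩
  rcases z2 g with rfl | rfl
  · obtain ⟨f, D⟩ := mk d0 d1 a0 (reach_symm (by
      rintro p q ⟨r, o, k⟩
      exact ⟨r, h.o12 o, by tauto⟩) w) (by rw [g1, g0]; exact z2_ne.symm)
    exact ⟨d0, f, D, (bb d0 w).2, g0⟩
  · obtain ⟨f, D⟩ := mk d1 d0 a1 w (by rw [g1, g0]; exact z2_ne)
    exact ⟨d1, f, D, rfl, g1⟩

theorem Ctx.not_pend (h : Ctx V T P x) (M1 : ∀ a b c, T a b c → P a b ∨ P a c ∨ P b c) {m u v : α}
    (A : Pend T P m u v) : False := by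
  obtain ⟨Z, z⟩ := h.exZS M1 A
  obtain ⟨b, hb⟩ := h.fail A z
  obtain ⟨g, hg⟩ := h.fail (h.psw A) z.sw
  obtain ⟨d, f, D, e1, e2⟩ := hb (g + 1)
  obtain ⟨f', d', D', e3, e4⟩ := hg (b + 1)
  obtain ⟨-, e5, e6⟩ := h.st0_inv (h.psw A) z.sw D'.du D'.dv D'.zd D'.w
  have ne : ∀ t : ZMod 2, t ≠ t + 1 := by decide
  refine h.dd A z D (h.dsw (h.psw A) z.sw D') ?_ ?_
  · rw [e1, e6, e4]; exact ne b
  · rw [e2, e5, e3]; exact (ne g).symm

end Pool.Agent.Lib.MP_c59a20_lc
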