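import Pool.Agent.Lib.MP_c59a20_lc.Pages
import Pool.Agent.Lib.MP_c59a20_lc.Stage0
import Pool.Agent.Lib.MP_c59a20_lc.Stage2b

/-!
The parity criterion for triple systems: a tournament in which independent chords have even
crossing parity can be replaced by one that comes from a cyclic order.
-/

namespace Pool.Agent.Lib.MP_c59a20_lc

variable {α : Type}

theorem Ctx.two_pairs [DecidableEq α] {V : Finset α} {T : α → α → α → Prop} {P : α → α → Prop}
    {x : α → α → ZMod 2} (h : Ctx V T P x) (hV : 4 < V.card) {a b c : α} (t : T a b c)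
    (n : ¬ P a b) : P c a := by
  have s0 : ∀ a b c, T a b c → ¬ P a b → ¬ P a c → ∀ r, T a b r → r = c :=
    fun a b c t n n' r t' => co2_uniq (fun co => n' (h.stage0 hV t n co)) t t'
  have M1 : ∀ a b c, T a b c → P a b ∨ P a c ∨ P b c := by
    intro a b c t
    by_contra hn
    obtain ⟨p1, p2, p3⟩ : ¬ P a b ∧ ¬ P a c ∧ ¬ P b c := by tauto
    exact h.not_loose ⟨t, s0 a b c t p1 p2, s0 a c b (h.s23 t) p2 p1,
      s0 b c a (h.c1 t) p3 fun p => p1 (h.ps p), p1, p2, p3⟩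
  by_contra n'
  have p2 : ¬ P a c := fun p => n' (h.ps p)
  exact h.not_pend M1 ⟨t, ((M1 a b c t).resolve_left n).resolve_left p2, s0 a b c t n p2,
    s0 a c b (h.s23 t) p2 n, n, p2⟩

theorem ht_nocut [DecidableEq α] {V : Finset α} {T : α → α → α → Prop} {x : α → α → ZMod 2}
    (hT : Tri V T) (hx : Tour x) (hL : Lin x T) (hV : 4 < V.card) (hc : NoCut V T) :
    ∃ σ, Tour σ ∧ NoDia σ V ∧ Lin σ T := by
  obtain ⟨P, y, hG, hy, hyL, hM⟩ := exists_max hT hx hL
  have h : Ctx V T P y := ⟨hT, hG, hy, hyL, hM, hc⟩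
  obtain ⟨σ, s1, s2, s3, s4⟩ := pages V (fun u a b => T u a b ∧ P u a ∧ P u b) V P y hy
    (fun a b => h.ps) (fun a b p => by
      obtain ⟨c, t⟩ := h.pT p
      exact ⟨h.ne1 t, h.mem t, h.mem2 t⟩)
    (fun a b c d p p' => h.pp p p') (fun u a b k => k.2) (by
      rintro u - a b c d ⟨t, -⟩ ⟨t', -⟩ h1 h2 h3 h4
      exact h.tt (h.c1 t) (h.c1 t') h1 h2 (h.ne1 t).symm h3 h4 (h.ne2 t).symm (h.ne1 t')
        (h.ne2 t'))
  refine ⟨σ, s1, s2, ?_⟩
  have both : ∀ a b c, T a b c → P a b ∨ (P c a ∧ P c b) := fun a b c t => by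
    by_cases p : P a b
    · exact Or.inl p
    · exact Or.inr ⟨h.two_pairs hV t p, h.two_pairs hV (h.s12 t) fun k => p (h.ps k)⟩
  have pt : ∀ a b p q r, P a b → T p q r → a ≠ p → a ≠ q → a ≠ r → b ≠ p → b ≠ q → b ≠ r →
      cr σ a b p q = 0 := by
    intro a b p q r k t h1 h2 h3 h4 h5 h6
    rcases both p q r t with k' | ⟨k1, k2⟩
    · exact s3 a b p q k k' h1 h2 h4 h5
    · rw [cr_add_r σ a b p r q, cr_r, s3 a b r p k k1 h3 h1 h6 h4, s3 a b r q k k2 h3 h2 h6 h5,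
        add_zero]
  intro a b c p q r t t' h1 h2 h3 h4 h5 h6 h7 h8
  rcases both a b c t with k | ⟨k1, k2⟩
  · exact pt a b p q r k t' h1 h2 h3 h4 h5 h6
  by_cases e : c = r
  · subst e
    rcases both p q c t' with k | ⟨k3, k4⟩
    · rw [s1.swap h1 h2 h4 h5]
      exact pt p q a b c k t h1.symm h4.symm h7.symm h2.symm h5.symm h8.symm
    · exact s4 c (h.mem3 t) a b p q ⟨h.c2 t, k1, k2⟩ ⟨h.c2 t', k3, k4⟩ h1 h2 h4 h5
  · rw [cr_add_l σ a c b, cr_l, pt c a p q r k1 t' h7 h8 e h1 h2 h3,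
      pt c b p q r k2 t' h7 h8 e h4 h5 h6, add_zero]

theorem ht_small [DecidableEq α] {V : Finset α} {T : α → α → α → Prop} {x : α → α → ZMod 2}
    (hT : Tri V T) (hx : Tour x) (hV : V.card ≤ 4) : ∃ σ, Tour σ ∧ NoDia σ V ∧ Lin σ T := by
  obtain ⟨σ, s1, s2, -⟩ := graph_ht _ V x (fun _ _ => False) le_rfl hx (by simp)
    (fun _ _ _ _ h => h.elim)
  refine ⟨σ, s1, s2, fun a b c p q r t t' h1 h2 h3 h4 h5 h6 h7 h8 => ?_⟩
  exfalso
  obtain ⟨n1, n2, n3⟩ := hT.nes t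
  have n4 := hT.ne1 t'
  have : ({a, b, c, p, q} : Finset α) ⊆ V := by
    intro w hw
    simp only [Finset.mem_insert, Finset.mem_singleton] at hw
    rcases hw with rfl | rfl | rfl | rfl | rfl
    exacts [hT.mem t, hT.mem2 t, hT.mem3 t, hT.mem t', hT.mem2 t']
  have h1 := Finset.card_le_card this
  rw [Finset.card_insert_of_notMem (by simp [*]), Finset.card_insert_of_notMem (by simp [*]),
    Finset.card_insert_of_notMem (by simp [*]), Finset.card_pair n4] at h1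
  omega

theorem ht [DecidableEq α] (n : ℕ) : ∀ (V : Finset α) (T : α → α → α → Prop)
    (x : α → α → ZMod 2), V.card ≤ n → Tri V T → Tour x → Lin x T →
    ∃ σ, Tour σ ∧ NoDia σ V ∧ Lin σ T := by
  classical
  induction n with
  | zero => exact fun V T x hV hT hx _ => ht_small hT hx (by omega)
  | succ n ih =>
    intro V T x hV hT hx hL
    by_cases h4 : V.card ≤ 4
    · exact ht_small hT hx h4
    by_cases hc : NoCut V T
    · exact ht_nocut hT hx hL (by omega) hc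
    unfold NoCut at hc
    push Not at hc
    obtain ⟨s, hs, S, S1, S2, p0, hp0, Sp0, w0, hw0, ws, Sw0⟩ := hc
    set V1 := V.filter (fun w => w = s ∨ S w) with hV1
    set V2 := V.filter (fun w => ¬ S w) with hV2
    have m1 : ∀ w, w ∈ V1 ↔ w ∈ V ∧ (w = s ∨ S w) := fun w => by simp [hV1]
    have m2 : ∀ w, w ∈ V2 ↔ w ∈ V ∧ ¬ S w := fun w => by simp [hV2]
    have c1 : V1.card ≤ n := by
      have : V1.card < V.card := Finset.card_lt_card ⟨Finset.filter_subset _ _, fun h => by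
        have := (m1 w0).1 (h hw0); tauto⟩
      omega
    have c2 : V2.card ≤ n := by
      have : V2.card < V.card := Finset.card_lt_card ⟨Finset.filter_subset _ _, fun h => by
        have := (m2 p0).1 (h hp0); tauto⟩
      omega
    have res : ∀ W : Finset α, Tri W (fun a b c => T a b c ∧ a ∈ W ∧ b ∈ W ∧ c ∈ W) := fun W =>
      ⟨fun h => ⟨hT.s12 h.1, h.2.2.1, h.2.1, h.2.2.2⟩, fun h => ⟨hT.s23 h.1, h.2.1, h.2.2.2, h.2.2.1⟩,
        fun h => hT.ne1 h.1, fun h => h.2.1⟩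
    obtain ⟨σ1, t1, d1, l1⟩ := ih V1 _ x c1 (res V1) hx
      fun a b c p q r t t' => hL a b c p q r t.1 t'.1
    obtain ⟨σ2, t2, d2, l2⟩ := ih V2 _ x c2 (res V2) hx
      fun a b c p q r t t' => hL a b c p q r t.1 t'.1
    have hs1 : s ∈ V1 := (m1 s).2 ⟨hs, Or.inl rfl⟩
    have hs2 : s ∈ V2 := (m2 s).2 ⟨hs, fun k => S1 s k rfl⟩
    have g1 := gauge_tour t1 0 s
    have g2 := gauge_tour t2 0 s
    set z := glue (· ∈ V1) (gauge σ1 0 s) (gauge σ2 0 s) with hz
    have hzt : Tour z := glue_tour g1 g2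
    have cover : ∀ w ∈ V, w ∉ V1 → w ∈ V2 := fun w hw k => by
      rw [m1] at k; rw [m2]; tauto
    have inter : ∀ w, w ∈ V1 → w ∈ V2 → w = s := fun w h1 h2 => by
      rw [m1] at h1; rw [m2] at h2; tauto
    have z11 : ∀ p q, p ∈ V1 → q ∈ V1 → z p q = gauge σ1 0 s p q := fun p q hp hq => glue_ss hp hq
    have z12 : ∀ p q, p ∈ V1 → q ∉ V1 → z p q = 1 := fun p q hp hq => glue_sn hp hq
    have z22 : ∀ p q, p ∈ V2 → q ∈ V2 → p ≠ q → z p q = gauge σ2 0 s p q := by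
      intro p q hp hq hpq
      by_cases hp1 : p ∈ V1 <;> by_cases hq1 : q ∈ V1
      · exact absurd ((inter p hp1 hp).trans (inter q hq1 hq).symm) hpq
      · obtain rfl := inter p hp1 hp
        rw [z12 p q hp1 hq1, gauge_src 0 hpq.symm]
      · obtain rfl := inter q hq1 hq
        rw [gauge_snk t2 0 hpq]; exact glue_ns hp1 hq1
      · exact glue_nn hp1 hq1
    have cross : ∀ a b c d, a ∈ V1 → b ∈ V1 → c ∈ V2 → d ∈ V2 → a ≠ c → a ≠ d → b ≠ c →
        b ≠ d → cr z a b c d = 0 := by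
      intro a b c d ha hb hc hd hac had hbc hbd
      have key : ∀ c, c ∈ V2 → a ≠ c → b ≠ c → z a c = z b c := by
        intro c hc hac hbc
        by_cases h : c ∈ V1
        · obtain rfl := inter c h hc
          rw [z11 a c ha h, z11 b c hb h, gauge_snk t1 0 hac, gauge_snk t1 0 hbc]
        · rw [z12 a c ha h, z12 b c hb h]
      have := key c hc hac hbc
      have := key d hd had hbd
      unfold cr; grind
    have side : ∀ a b c, T a b c → (a ∈ V1 ∧ b ∈ V1 ∧ c ∈ V1) ∨ (a ∈ V2 ∧ b ∈ V2 ∧ c ∈ V2) := by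
      intro a b c t
      simp only [m1, m2, hT.mem t, hT.mem2 t, hT.mem3 t, true_and]
      have a1 := S2 a b c t
      have a2 := S2 a c b (hT.s23 t)
      have a3 := S2 b a c (hT.s12 t)
      have a4 := S2 b c a (hT.c1 t)
      have a5 := S2 c a b (hT.c2 t)
      have a6 := S2 c b a (hT.s13 t)
      clear * - a1 a2 a3 a4 a5 a6
      grind
    refine ⟨z, hzt, Trans.noDia hzt (glue_trans ((d1.trans_gauge t1 0 hs1).mono fun a h => h.2)
      ((d2.trans_gauge t2 0 hs2).mono fun a h => cover a h.1 h.2)), ?_⟩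
    intro a b c p q r t t' h1 h2 h3 h4 h5 h6 h7 h8
    rcases side a b c t with k | k <;> rcases side p q r t' with k' | k'
    · rw [← l1 a b c p q r ⟨t, k⟩ ⟨t', k'⟩ h1 h2 h3 h4 h5 h6 h7 h8, ← cr_gauge (x := σ1) 0 s]
      unfold cr
      rw [z11 a p k.1 k'.1, z11 a q k.1 k'.2.1, z11 b p k.2.1 k'.1, z11 b q k.2.1 k'.2.1]
    · exact cross a b p q k.1 k.2.1 k'.1 k'.2.1 h1 h2 h4 h5
    · rw [hzt.swap h1 h2 h4 h5]
      exact cross p q a b k'.1 k'.2.1 k.1 k.2.1 h1.symm h4.symm h2.symm h5.symm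
    · rw [← l2 a b c p q r ⟨t, k⟩ ⟨t', k'⟩ h1 h2 h3 h4 h5 h6 h7 h8, ← cr_gauge (x := σ2) 0 s]
      unfold cr
      rw [z22 a p k.1 k'.1 h1, z22 a q k.1 k'.2.1 h2, z22 b p k.2.1 k'.1 h4,
        z22 b q k.2.1 k'.2.1 h5]

/-- The criterion in its final form: a transitive tournament on `V`. -/
theorem ht_trans [DecidableEq α] {V : Finset α} {T : α → α → α → Prop} {x : α → α → ZMod 2}
    (hT : Tri V T) (hx : Tour x) (hL : Lin x T) : ∃ σ, Tour σ ∧ Trans σ (· ∈ V) ∧ Lin σ T := by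
  obtain ⟨σ, s1, s2, s3⟩ := ht _ V T x le_rfl hT hx hL
  rcases V.eq_empty_or_nonempty with rfl | ⟨u, hu⟩
  · exact ⟨σ, s1, fun a _ _ h => by simp at h, s3⟩
  · refine ⟨gauge σ 0 u, gauge_tour s1 _ _, s2.trans_gauge s1 0 hu, ?_⟩
    intro a b c p q r t t' h1 h2 h3 h4 h5 h6 h7 h8
    rw [cr_gauge]; exact s3 a b c p q r t t' h1 h2 h3 h4 h5 h6 h7 h8

end Pool.Agent.Lib.MP_c59a20_lc
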