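import Pool.Agent.Lib.MP_c59a20_lc.Defs
import Pool.Agent.Lib.MP_c59a20_lc.Main
import Pool.Agent.Lib.MP_c59a20_lc.Gauss

/-!
From orderings to tournaments and back, and the linear system.
-/

namespace Pool.Agent.Lib.MP_c59a20_lc

open N68a2faeb Pool.Agent.Shared.PolyTime N487b59b3

/-- The parity condition, written with the hyperedges. -/
def Par (x : ℕ → ℕ → ZMod 2) (E : List (List ℕ)) : Prop :=
  ∀ A ∈ E, ∀ B ∈ E, ∀ a ∈ A, ∀ b ∈ A, ∀ p ∈ B, ∀ q ∈ B, a ∉ B → b ∉ B → p ∉ A → q ∉ A →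
    cr x a b p q = 0

def TriOf (E : List (List ℕ)) (a b c : ℕ) : Prop :=
  (a ≠ b ∧ a ≠ c ∧ b ≠ c) ∧ ∃ A ∈ E, a ∈ A ∧ b ∈ A ∧ c ∈ A

theorem three_mem {A : List ℕ} (h : A.toFinset.card = 3) {a b c : ℕ} (n1 : a ≠ b) (n2 : a ≠ c)
    (n3 : b ≠ c) (ha : a ∈ A) (hb : b ∈ A) (hc : c ∈ A) {w : ℕ} (hw : w ∈ A) :
    w = a ∨ w = b ∨ w = c := by
  have h1 : ({a, b, c} : Finset ℕ) ⊆ A.toFinset := by
    intro t ht
    simp only [Finset.mem_insert, Finset.mem_singleton] at ht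
    rcases ht with rfl | rfl | rfl <;> simpa
  have h2 : ({a, b, c} : Finset ℕ).card = 3 := Finset.card_eq_three.2 ⟨a, b, c, n1, n2, n3, rfl⟩
  have h3 := Finset.eq_of_subset_of_card_le h1 (by omega)
  have : w ∈ ({a, b, c} : Finset ℕ) := h3 ▸ List.mem_toFinset.2 hw
  simpa using this

theorem third_mem {A : List ℕ} (h : A.toFinset.card = 3) (a b : ℕ) : ∃ c ∈ A, c ≠ a ∧ c ≠ b := by
  by_contra hn
  push Not at hn
  have h1 : A.toFinset ⊆ {a, b} := by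
    intro t ht
    have := hn t (List.mem_toFinset.1 ht)
    simp only [Finset.mem_insert, Finset.mem_singleton]
    tauto
  have := Finset.card_le_card h1
  have : ({a, b} : Finset ℕ).card ≤ 2 := Finset.card_le_two
  omega

theorem par_iff {V : List ℕ} {E : List (List ℕ)} (h : ThreeUniform V E) (x : ℕ → ℕ → ZMod 2) :
    Par x E ↔ Lin x (TriOf E) := by
  constructor
  · rintro hp a b c p q r ⟨⟨n1, n2, n3⟩, A, hA, ha, hb, hc⟩ ⟨⟨k1, k2, k3⟩, B, hB, hp', hq, hr⟩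
      h1 h2 h3 h4 h5 h6 h7 h8
    have mA := fun w hw => three_mem (h A hA).1 n1 n2 n3 ha hb hc (w := w) hw
    have mB := fun w hw => three_mem (h B hB).1 k1 k2 k3 hp' hq hr (w := w) hw
    exact hp A hA B hB a ha b hb p hp' q hq (fun k => by have := mB a k; grind)
      (fun k => by have := mB b k; grind) (fun k => by have := mA p k; grind)
      (fun k => by have := mA q k; grind)
  · intro hl A hA B hB a ha b hb p hp q hq h1 h2 h3 h4
    by_cases hab : a = b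
    · rw [hab]; exact cr_self_l _ _ _ _
    by_cases hpq : p = q
    · rw [hpq]; exact cr_self_r _ _ _ _
    obtain ⟨c, hc, c1, c2⟩ := third_mem (h A hA).1 a b
    obtain ⟨r, hr, r1, r2⟩ := third_mem (h B hB).1 p q
    exact hl a b c p q r ⟨⟨hab, c1.symm, c2.symm⟩, A, hA, ha, hb, hc⟩
      ⟨⟨hpq, r1.symm, r2.symm⟩, B, hB, hp, hq, hr⟩ (fun e => h1 (e ▸ hp)) (fun e => h1 (e ▸ hq))
      (fun e => h1 (e ▸ hr)) (fun e => h2 (e ▸ hp)) (fun e => h2 (e ▸ hq)) (fun e => h2 (e ▸ hr))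
      (fun e => h3 (e ▸ hc)) (fun e => h4 (e ▸ hc))

theorem exists_sorted {σ : ℕ → ℕ → ZMod 2} (hσ : Tour σ) (V : Finset ℕ) (ht : Trans σ (· ∈ V)) :
    ∃ π : List ℕ, π.Nodup ∧ (∀ v, v ∈ π ↔ v ∈ V) ∧ π.Pairwise (fun a b => a = b ∨ σ a b = 1) := by
  classical
  set le : {a // a ∈ V} → {a // a ∈ V} → Bool := fun a b => decide (a.1 = b.1 ∨ σ a.1 b.1 = 1)
    with hle
  have pm := List.mergeSort_perm V.attach.toList le
  have pw := List.pairwise_mergeSort (le := le) (by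
      rintro ⟨a, ha⟩ ⟨b, hb⟩ ⟨c, hc⟩
      simp only [hle, decide_eq_true_eq]
      have := ht a b c ha hb hc
      have := hσ a b
      have := z2_ne
      grind) (by
      rintro ⟨a, ha⟩ ⟨b, hb⟩
      simp only [hle, Bool.or_eq_true, decide_eq_true_eq]
      have := hσ a b
      rcases z2 (σ a b) with h | h <;> grind) V.attach.toList
  refine ⟨(V.attach.toList.mergeSort le).map Subtype.val, ?_, fun v => ?_, ?_⟩
  · exact (pm.nodup_iff.2 (Finset.nodup_toList _)).map Subtype.val_injective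
  · simp only [List.mem_map, pm.mem_iff, Finset.mem_toList]
    exact ⟨fun ⟨a, _, e⟩ => e ▸ a.2, fun h => ⟨⟨v, h⟩, Finset.mem_attach _ _, rfl⟩⟩
  · rw [List.pairwise_map]
    exact pw.imp fun h => by simpa [hle] using h

theorem sublist_of_idx {π : List ℕ} (hπ : π.Nodup) {a b c d : ℕ} (ha : a ∈ π) (hb : b ∈ π)
    (hc : c ∈ π) (hd : d ∈ π) (h1 : π.idxOf a < π.idxOf b) (h2 : π.idxOf b < π.idxOf c)
    (h3 : π.idxOf c < π.idxOf d) : List.Sublist [a, b, c, d] π := by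
  have p1 : [a, b, c, d].Pairwise (fun s t => π.idxOf s < π.idxOf t) := by
    simp only [List.pairwise_cons, List.mem_cons, List.not_mem_nil, or_false, forall_eq_or_imp,
      forall_eq, List.Pairwise.nil, and_true, IsEmpty.forall_iff, implies_true]
    omega
  have p2 : π.Pairwise (fun s t => π.idxOf s < π.idxOf t) := by
    rw [List.pairwise_iff_getElem]
    intro i j hi hj hij
    rw [hπ.idxOf_getElem, hπ.idxOf_getElem]
    exact hij
  have : Std.Antisymm (fun s t => π.idxOf s < π.idxOf t) := ⟨fun s t h h' => by omega⟩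
  refine List.sublist_of_subperm_of_pairwise ?_ p1 p2
  refine List.subperm_of_subset (p1.imp fun h e => by rw [e] at h; omega) ?_
  intro w hw
  simp only [List.mem_cons, List.not_mem_nil, or_false] at hw
  rcases hw with rfl | rfl | rfl | rfl <;> assumption

theorem ord_cr {i j k l : ℕ} (n1 : i ≠ k) (n2 : i ≠ l) (n3 : j ≠ k) (n4 : j ≠ l)
    (a1 : ¬ (i < k ∧ k < j ∧ j < l) ∧ ¬ (k < i ∧ i < l ∧ l < j))
    (a2 : ¬ (i < l ∧ l < j ∧ j < k) ∧ ¬ (l < i ∧ i < k ∧ k < j))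
    (a3 : ¬ (j < k ∧ k < i ∧ i < l) ∧ ¬ (k < j ∧ j < l ∧ l < i))
    (a4 : ¬ (j < l ∧ l < i ∧ i < k) ∧ ¬ (l < j ∧ j < k ∧ k < i)) :
    (if i < k then 1 else 0) + (if i < l then 1 else 0) + (if j < k then 1 else 0) +
      (if j < l then 1 else 0) = (0 : ZMod 2) := by
  split_ifs <;> first | decide | omega

theorem free_iff {V : List ℕ} {E : List (List ℕ)} (h : ThreeUniform V E) :
    ABABFree V E ↔ ∃ x, Tour x ∧ Par x E := by
  constructor
  · rintro ⟨π, h1, h2, h3⟩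
    refine ⟨fun a b => if π.idxOf a < π.idxOf b ∨ (π.idxOf a = π.idxOf b ∧ a < b) then 1 else 0,
      fun a b hab => ?_, ?_⟩
    · dsimp only
      split_ifs <;> first | omega | simp
    · intro A hA B hB a ha b hb p hp q hq k1 k2 k3 k4
      have ma := (h2 a).2 ((h A hA).2 a ha)
      have mb := (h2 b).2 ((h A hA).2 b hb)
      have mp := (h2 p).2 ((h B hB).2 p hp)
      have mq := (h2 q).2 ((h B hB).2 q hq)
      have ne : ∀ s t, s ∈ π → s ∈ A → t ∉ A → π.idxOf s ≠ π.idxOf t := fun s t hs h4 h5 e =>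
        h5 (((List.idxOf_inj hs).1 e) ▸ h4)
      have n1 := ne a p ma ha k3
      have n2 := ne a q ma ha k4
      have n3 := ne b p mb hb k3
      have n4 := ne b q mb hb k4
      have AB : ∀ s t s' t', s ∈ π → t ∈ π → s' ∈ π → t' ∈ π → (s ∈ A ∧ s ∉ B) → (t ∈ B ∧ t ∉ A) →
          (s' ∈ A ∧ s' ∉ B) → (t' ∈ B ∧ t' ∉ A) → ¬ (π.idxOf s < π.idxOf t ∧
          π.idxOf t < π.idxOf s' ∧ π.idxOf s' < π.idxOf t') ∧ ¬ (π.idxOf t < π.idxOf s ∧
          π.idxOf s < π.idxOf t' ∧ π.idxOf t' < π.idxOf s') := by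
        intro s t s' t' m1 m2 m3 m4 j1 j2 j3 j4
        exact ⟨fun k => h3 A hA B hB ⟨s, t, s', t',
          sublist_of_idx h1 m1 m2 m3 m4 k.1 k.2.1 k.2.2, j1, j3, j2, j4⟩,
          fun k => h3 B hB A hA ⟨t, s, t', s',
          sublist_of_idx h1 m2 m1 m4 m3 k.1 k.2.1 k.2.2, j2, j4, j1, j3⟩⟩
      have a1 := AB a p b q ma mp mb mq ⟨ha, k1⟩ ⟨hp, k3⟩ ⟨hb, k2⟩ ⟨hq, k4⟩
      have a2 := AB a q b p ma mq mb mp ⟨ha, k1⟩ ⟨hq, k4⟩ ⟨hb, k2⟩ ⟨hp, k3⟩
      have a3 := AB b p a q mb mp ma mq ⟨hb, k2⟩ ⟨hp, k3⟩ ⟨ha, k1⟩ ⟨hq, k4⟩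
      have a4 := AB b q a p mb mq ma mp ⟨hb, k2⟩ ⟨hq, k4⟩ ⟨ha, k1⟩ ⟨hp, k3⟩
      unfold cr
      simp only [n1, n2, n3, n4, false_and, or_false]
      exact ord_cr n1 n2 n3 n4 a1 a2 a3 a4
  · rintro ⟨x, hx, hp⟩
    have hT : Tri V.toFinset (TriOf E) := by
      refine ⟨?_, ?_, fun t => t.1.1, ?_⟩
      · rintro a b c ⟨k, A, hA, k'⟩
        exact ⟨⟨k.1.symm, k.2.2, k.2.1⟩, A, hA, k'.2.1, k'.1, k'.2.2⟩
      · rintro a b c ⟨k, A, hA, k'⟩
        exact ⟨⟨k.2.1, k.1, k.2.2.symm⟩, A, hA, k'.1, k'.2.2, k'.2.1⟩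
      · rintro a b c ⟨-, A, hA, k'⟩
        exact List.mem_toFinset.2 ((h A hA).2 a k'.1)
    obtain ⟨σ, s1, s2, s3⟩ := ht_trans hT hx ((par_iff h x).1 hp)
    obtain ⟨π, p1, p2, p3⟩ := exists_sorted s1 _ s2
    refine ⟨π, p1, fun v => (p2 v).trans List.mem_toFinset, ?_⟩
    rintro A hA B hB ⟨a, p, b, q, hs, ⟨ha, k1⟩, ⟨hb, k2⟩, ⟨hp, k3⟩, hq, k4⟩
    have c := (par_iff h σ).2 s3 A hA B hB a ha b hb p hp q hq k1 k2 k3 k4
    have pw := p3.sublist hs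
    simp only [List.pairwise_cons, List.mem_cons, List.not_mem_nil, or_false, forall_eq_or_imp,
      forall_eq] at pw
    have n1 : a ≠ p := fun e => k3 (e ▸ ha)
    have n2 : a ≠ q := fun e => k4 (e ▸ ha)
    have n3 : b ≠ p := fun e => k3 (e ▸ hb)
    have n4 : b ≠ q := fun e => k4 (e ▸ hb)
    have := s1 b p n3
    have := z2_ne
    unfold cr at c
    grind

def cols (V : List ℕ) : List (ℕ × ℕ) := V.flatMap (fun a => V.map (fun b => (a, b)))

def rows (V : List ℕ) (E : List (List ℕ)) : List Row :=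
  ((cols V).filter (fun c => decide (c.1 ≠ c.2))).map (fun c => ([(c.1, c.2), (c.2, c.1)], true)) ++
  E.flatMap (fun A => E.flatMap (fun B => (cols A).flatMap (fun c =>
    ((cols B).filter (fun d => decide (c.1 ≠ c.2 ∧ d.1 ≠ d.2 ∧ c.1 ∉ B ∧ c.2 ∉ B ∧ d.1 ∉ A ∧
      d.2 ∉ A))).map (fun d => ([(c.1, d.1), (c.1, d.2), (c.2, d.1), (c.2, d.2)], false)))))

theorem mem_cols {V : List ℕ} {a b : ℕ} : (a, b) ∈ cols V ↔ a ∈ V ∧ b ∈ V := by
  simp [cols]

theorem sat_iff {V : List ℕ} {E : List (List ℕ)} (h : ThreeUniform V E) (x : ℕ × ℕ → ZMod 2) :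
    Sat (cols V) x (rows V E) ↔ (∀ a ∈ V, ∀ b ∈ V, a ≠ b → x (a, b) + x (b, a) = 1) ∧
      Par (fun a b => x (a, b)) E := by
  have r1 : ∀ a ∈ V, ∀ b ∈ V, a ≠ b → rowVal (cols V) x [(a, b), (b, a)] = x (a, b) + x (b, a) := by
    intro a ha b hb hab
    rw [rowVal_nodup _ _ (by simp [hab]) (by simp [mem_cols, ha, hb])]
    simp
  have r2 : ∀ a ∈ V, ∀ b ∈ V, ∀ p ∈ V, ∀ q ∈ V, a ≠ b → p ≠ q →
      rowVal (cols V) x [(a, p), (a, q), (b, p), (b, q)] = cr (fun a b => x (a, b)) a b p q := by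
    intro a ha b hb p hp q hq hab hpq
    rw [rowVal_nodup _ _ (by simp [hab, hpq]) (by simp [mem_cols, ha, hb, hp, hq])]
    simp [cr, add_assoc]
  unfold Sat rows
  simp only [List.mem_append, or_imp, forall_and, List.mem_map, List.mem_filter, List.mem_flatMap,
    decide_eq_true_eq]
  refine and_congr ⟨fun k a ha b hb hab => ?_, ?_⟩ ⟨?_, ?_⟩
  · rw [← r1 a ha b hb hab]
    exact k _ ⟨(a, b), ⟨mem_cols.2 ⟨ha, hb⟩, hab⟩, rfl⟩
  · rintro k _ ⟨⟨a, b⟩, ⟨hc, hab⟩, rfl⟩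
    obtain ⟨ha, hb⟩ := mem_cols.1 hc
    exact (r1 a ha b hb hab).trans (k a ha b hb hab)
  · intro k A hA B hB a ha b hb p hp q hq k1 k2 k3 k4
    by_cases hab : a = b
    · rw [hab]; exact cr_self_l _ _ _ _
    by_cases hpq : p = q
    · rw [hpq]; exact cr_self_r _ _ _ _
    rw [← r2 a ((h A hA).2 a ha) b ((h A hA).2 b hb) p ((h B hB).2 p hp) q ((h B hB).2 q hq) hab hpq]
    exact k _ ⟨A, hA, B, hB, (a, b), mem_cols.2 ⟨ha, hb⟩, (p, q),
      ⟨mem_cols.2 ⟨hp, hq⟩, hab, hpq, k1, k2, k3, k4⟩, rfl⟩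
  · rintro k _ ⟨A, hA, B, hB, ⟨a, b⟩, hc, ⟨p, q⟩, ⟨hd, hab, hpq, k1, k2, k3, k4⟩, rfl⟩
    obtain ⟨ha, hb⟩ := mem_cols.1 hc
    obtain ⟨hp, hq⟩ := mem_cols.1 hd
    exact (r2 a ((h A hA).2 a ha) b ((h A hA).2 b hb) p ((h B hB).2 p hp) q ((h B hB).2 q hq) hab
      hpq).trans (k A hA B hB a ha b hb p hp q hq k1 k2 k3 k4)

theorem solvable_iff_free {V : List ℕ} {E : List (List ℕ)} (h : ThreeUniform V E) :
    solvable (cols V) (rows V E) = true ↔ ABABFree V E := by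
  rw [solvable_iff, free_iff h]
  constructor
  · rintro ⟨x, hx⟩
    obtain ⟨h1, h2⟩ := (sat_iff h x).1 hx
    refine ⟨fun a b => if a ∈ V ∧ b ∈ V then x (a, b) else if a < b then 1 else 0,
      fun a b hab => ?_, fun A hA B hB a ha b hb p hp q hq k1 k2 k3 k4 => ?_⟩
    · dsimp only
      by_cases k : a ∈ V ∧ b ∈ V
      · rw [if_pos k, if_pos k.symm]; exact h1 a k.1 b k.2 hab
      · rw [if_neg k, if_neg fun k' : b ∈ V ∧ a ∈ V => k k'.symm]
        split_ifs <;> first | omega | simp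
    · have := h2 A hA B hB a ha b hb p hp q hq k1 k2 k3 k4
      simpa [cr, (h A hA).2 a ha, (h A hA).2 b hb, (h B hB).2 p hp, (h B hB).2 q hq] using this
  · rintro ⟨x, hx, hp⟩
    exact ⟨fun c => x c.1 c.2, (sat_iff h _).2 ⟨fun a _ b _ hab => hx a b hab, hp⟩⟩

def decider (I : List ℕ × List (List ℕ)) : Bool :=
  decide (∀ A ∈ I.2, A.dedup.length = 3 ∧ ∀ v ∈ A, v ∈ I.1) && solvable (cols I.1) (rows I.1 I.2)

theorem decider_iff (I : List ℕ × List (List ℕ)) :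
    decider I = true ↔ ThreeUniform I.1 I.2 ∧ ABABFree I.1 I.2 := by
  have e : (∀ A ∈ I.2, A.dedup.length = 3 ∧ ∀ v ∈ A, v ∈ I.1) ↔ ThreeUniform I.1 I.2 := by
    simp only [ThreeUniform, List.card_toFinset]
  rw [decider, Bool.and_eq_true, decide_eq_true_eq, e]
  exact and_congr_right fun h => solvable_iff_free h

theorem decider_pt : IsPolyTime decider := by
  have h1 : IsPolyTime (fun I : List ℕ × List (List ℕ) => (cols I.1, rows I.1 I.2)) := by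
    unfold rows cols
    fun_prop
  have h2 := solvable_pt.comp h1
  unfold decider
  exact IsPolyTime.and (by fun_prop) h2

end Pool.Agent.Lib.MP_c59a20_lc
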