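import Mathlib

/-!
Hypergraphs given by a list of vertices and a list of hyperedges; a hyperedge is given by a list
of its vertices.
-/

namespace Pool.Agent.Lib.MP_c59a20_lc

/-- Every hyperedge is a set of exactly three vertices of `V`. -/
def ThreeUniform (V : List ℕ) (E : List (List ℕ)) : Prop :=
  ∀ A ∈ E, A.toFinset.card = 3 ∧ ∀ v ∈ A, v ∈ V

/-- The hyperedges `A` and `B` form an `ABAB` pattern in the ordering `π`. -/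
def ABABPattern (π A B : List ℕ) : Prop :=
  ∃ v₁ v₂ v₃ v₄ : ℕ, List.Sublist [v₁, v₂, v₃, v₄] π ∧
    (v₁ ∈ A ∧ v₁ ∉ B) ∧ (v₃ ∈ A ∧ v₃ ∉ B) ∧ (v₂ ∈ B ∧ v₂ ∉ A) ∧ (v₄ ∈ B ∧ v₄ ∉ A)

/-- Some linear ordering `π` of the vertex set has no `ABAB` pattern. -/
def ABABFree (V : List ℕ) (E : List (List ℕ)) : Prop :=
  ∃ π : List ℕ, π.Nodup ∧ (∀ v, v ∈ π ↔ v ∈ V) ∧ ∀ A ∈ E, ∀ B ∈ E, ¬ ABABPattern π A B

end Pool.Agent.Lib.MP_c59a20_lc
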