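import Pool.Agent.Lib.MP_c59a20_lc.Stage1a

/-!
Reversing all pairs between two sets, and two ways of freeing a side of a loose triple.
-/

namespace Pool.Agent.Lib.MP_c59a20_lc

variable {α : Type} {V : Finset α} {T : α → α → α → Prop} {P : α → α → Prop}
  {x : α → α → ZMod 2}

/-- Indicator of a set. -/
noncomputable def ind (S : α → Prop) (a : α) : ZMod 2 := by
  classical
  exact if S a then 1 else 0

theorem ind_pos {S : α → Prop} {a : α} (h : S a) : ind S a = 1 := by unfold ind; grind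

theorem ind_neg {S : α → Prop} {a : α} (h : ¬ S a) : ind S a = 0 := by unfold ind; grind

/-- Reverse all pairs between `S` and `S'`. -/
noncomputable def flip (x : α → α → ZMod 2) (S S' : α → Prop) : α → α → ZMod 2 :=
  fun p q => x p q + ind S p * ind S' q + ind S q * ind S' p

theorem flip_tour (hx : Tour x) (S S' : α → Prop) : Tour (flip x S S') := by
  intro a b hab
  have := hx a b hab
  unfold flip; grind

theorem cr_flip (S S' : α → Prop) (a b p q : α) : cr (flip x S S') a b p q = cr x a b p q +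
    (ind S a + ind S b) * (ind S' p + ind S' q) + (ind S p + ind S q) * (ind S' a + ind S' b) := by
  unfold cr flip; grind

theorem ind_split (S : α → Prop) (a b : α) : ind S a + ind S b = 0 ∨
    (ind S a + ind S b = 1 ∧ ((S a ∧ ¬ S b) ∨ (S b ∧ ¬ S a))) := by
  unfold ind; grind

theorem ind_one {S : α → Prop} {a b : α} (h : (S a ∧ ¬ S b) ∨ (S b ∧ ¬ S a)) :
    ind S a + ind S b = 1 := by
  unfold ind; grind

theorem Ctx.obAt (h : Ctx V T P x) {m u v b c : α} (A : Loose T P m u v) (o : Ob T P u b c)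
    (h1 : b ≠ u) (h3 : c ≠ v) : b ≠ m ∧ ∃ r, T u b r ∧ (P u b ∨ r = c) := by
  rcases o with t | ⟨p, -⟩ | ⟨e, -⟩
  · refine ⟨?_, c, t, Or.inr rfl⟩
    rintro rfl
    exact h3 (A.c1 c (h.s12 t))
  · obtain ⟨r, t⟩ := h.pT p
    refine ⟨?_, r, t, Or.inl p⟩
    rintro rfl
    exact A.p1 (h.ps p)
  · exact absurd e.symm h1

theorem Ctx.alpha (h : Ctx V T P x) {m u v d e : α} (A : Loose T P m u v)
    (Lu : ∀ p q, T u p q → p ≠ m → p ≠ v → (p = d ∧ q = e) ∨ (p = e ∧ q = d))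
    (Lv : ∀ p q, T v p q → p ≠ m → p ≠ u → (p = d ∧ q = e) ∨ (p = e ∧ q = d))
    (cd : cr x m u v d = 1) (ce : cr x m u v e = 1) (n1 : ¬ (P u d ∧ P v e))
    (n2 : ¬ (P u e ∧ P v d)) : False := by
  obtain ⟨k1, k2, k3⟩ := h.nes A.t
  have k : ∀ b c q r, Ob T P u b c → Ob T P v q r → b ≠ u → q ≠ v → u ≠ q → u ≠ r → b ≠ v → b ≠ q →
      b ≠ r → c ≠ v → c ≠ q → False := by
    intro b c q r o o' h1 h2 h3 h4 h5 h6 h7 h8 h9
    obtain ⟨a1, s, a2, a3⟩ := h.obAt A o h1 h8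
    obtain ⟨b1, s', b2, b3⟩ := h.obAt (h.l23 A) o' h2 h4.symm
    have := Lu b s a2 a1 h5
    have := Lv q s' b2 b1 h3.symm
    grind
  have key : ∀ a b c p q r, Ob T P a b c → Ob T P p q r → a ≠ p → a ≠ q → a ≠ r → b ≠ p → b ≠ q →
      b ≠ r → c ≠ p → c ≠ q →
      (ind (· = u) a + ind (· = u) b) * (ind (· = v) p + ind (· = v) q) = 0 := by
    intro a b c p q r o o' h1 h2 h3 h4 h5 h6 h7 h8
    rcases ind_split (· = u) a b with e1 | ⟨-, e1⟩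
    · rw [e1, zero_mul]
    rcases ind_split (· = v) p q with e2 | ⟨-, e2⟩
    · rw [e2, mul_zero]
    exfalso
    rcases e1 with ⟨rfl, e1⟩ | ⟨rfl, e1⟩ <;> rcases e2 with ⟨rfl, e2⟩ | ⟨rfl, e2⟩
    · exact k b c q r o o' e1 e2 h2 h3 h4 h5 h6 h7 h8
    · exact k b c p r o (h.o12 o') e1 e2 h1 h3 h5 h4 h6 h8 h7
    · exact k a c q r (h.o12 o) o' e1 e2 h5 h6 h1 h2 h3 h7 h8
    · exact k a c p r (h.o12 o) (h.o12 o') e1 e2 h4 h6 h2 h1 h3 h8 h7
  have h' : Ctx V T P (flip x (· = u) (· = v)) := h.change (flip_tour h.tour _ _) (by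
    intro a b c p q r o o' h1 h2 h3 h4 h5 h6 h7 h8
    rw [cr_flip, h.lin a b c p q r o o' h1 h2 h3 h4 h5 h6 h7 h8,
      key a b c p q r o o' h1 h2 h3 h4 h5 h6 h7 h8,
      key p q r a b c o' o h1.symm h4.symm h7.symm h2.symm h5.symm h8.symm h3.symm h6.symm]
    simp)
  obtain ⟨p, q, b⟩ := h'.exBL A
  have c := b.cd
  have pv := h.ne1 b.t
  rw [cr_flip, ind_neg (S := (· = u)) k1, ind_pos (S := (· = u)) rfl, ind_pos (S := (· = v)) rfl,
    ind_neg (S := (· = v)) pv.symm, ind_neg (S := (· = v)) k2, ind_neg (S := (· = v)) k3] at c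
  have := Lv p q b.t b.dm b.du
  grind

theorem Ctx.VL (h : Ctx V T P x) {m u v e : α} (A : Loose T P m u v) (U W : α → Prop)
    (ce : cr x m u v e = 1) (ev : e ≠ v)
    (Um : ¬ U m) (Uu : ¬ U u) (Uv : ¬ U v) (Ue : ¬ U e) (Wv : ¬ W v) (We : ¬ W e)
    (Hu : ∀ b c, Ob T P u b c → b ≠ v → c ≠ v → b ≠ u → (b = e ∨ c = e) ∧ (b = e ∨ U b))
    (Hv : ∀ b c, Ob T P v b c → b ≠ u → c ≠ u → b ≠ v → (b = e ∨ c = e) ∧ (b = e ∨ W b))
    (HU : ∀ f p r d, Ob T P f p r → U f → ¬ U p → W d → d ≠ p → d ≠ r →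
      (p = e ∨ r = e) ∧ (p = e ∨ p = u))
    (HW : ∀ d p r f, Ob T P d p r → W d → ¬ W p → U f → f ≠ p → f ≠ r →
      (p = e ∨ r = e) ∧ (p = e ∨ p = v)) : False := by
  obtain ⟨k1, k2, k3⟩ := h.nes A.t
  have ka : ∀ b c q r, Ob T P u b c → Ob T P v q r → b ≠ u → q ≠ v → u ≠ q → u ≠ r → b ≠ v → b ≠ q →
      b ≠ r → c ≠ v → c ≠ q → U b ∧ W q := by
    intro b c q r o o' h1 h2 h3 h4 h5 h6 h7 h8 h9
    have := Hu b c o h5 h8 h1
    have := Hv q r o' h3.symm h4.symm h2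
    grind
  have kb : ∀ a b c p q r, Ob T P a b c → Ob T P p q r → U a → ¬ U b → W p → ¬ W q → a ≠ q → a ≠ r →
      b ≠ p → b ≠ q → b ≠ r → c ≠ p → c ≠ q → b = u ∧ q = v := by
    intro a b c p q r o o' g1 g2 g3 g4 h2 h3 h4 h5 h6 h7 h8
    have := HU a b c p o g1 g2 g3 h4.symm h7.symm
    have := HW p q r a o' g3 g4 g1 h2 h3
    grind
  have key : ∀ a b c p q r, Ob T P a b c → Ob T P p q r → a ≠ p → a ≠ q → a ≠ r → b ≠ p → b ≠ q →
      b ≠ r → c ≠ p → c ≠ q →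
      (ind (· = u) a + ind (· = u) b) * (ind (· = v) p + ind (· = v) q) =
        (ind U a + ind U b) * (ind W p + ind W q) := by
    intro a b c p q r o o' h1 h2 h3 h4 h5 h6 h7 h8
    have fw : ((a = u ∧ ¬ b = u) ∨ (b = u ∧ ¬ a = u)) → ((p = v ∧ ¬ q = v) ∨ (q = v ∧ ¬ p = v)) →
        ind U a + ind U b = 1 ∧ ind W p + ind W q = 1 := by
      rintro (⟨rfl, e1⟩ | ⟨rfl, e1⟩) (⟨rfl, e2⟩ | ⟨rfl, e2⟩)
      · have := ka b c q r o o' e1 e2 h2 h3 h4 h5 h6 h7 h8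
        exact ⟨ind_one (Or.inr ⟨this.1, Uu⟩), ind_one (Or.inr ⟨this.2, Wv⟩)⟩
      · have := ka b c p r o (h.o12 o') e1 e2 h1 h3 h5 h4 h6 h8 h7
        exact ⟨ind_one (Or.inr ⟨this.1, Uu⟩), ind_one (Or.inl ⟨this.2, Wv⟩)⟩
      · have := ka a c q r (h.o12 o) o' e1 e2 h5 h6 h1 h2 h3 h7 h8
        exact ⟨ind_one (Or.inl ⟨this.1, Uu⟩), ind_one (Or.inr ⟨this.2, Wv⟩)⟩
      · have := ka a c p r (h.o12 o) (h.o12 o') e1 e2 h4 h6 h2 h1 h3 h8 h7
        exact ⟨ind_one (Or.inl ⟨this.1, Uu⟩), ind_one (Or.inl ⟨this.2, Wv⟩)⟩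
    have bw : ((U a ∧ ¬ U b) ∨ (U b ∧ ¬ U a)) → ((W p ∧ ¬ W q) ∨ (W q ∧ ¬ W p)) →
        ind (· = u) a + ind (· = u) b = 1 ∧ ind (· = v) p + ind (· = v) q = 1 := by
      rintro (⟨e0, e1⟩ | ⟨e0, e1⟩) (⟨e2, e3⟩ | ⟨e2, e3⟩)
      · have := kb a b c p q r o o' e0 e1 e2 e3 h2 h3 h4 h5 h6 h7 h8
        exact ⟨ind_one (Or.inr ⟨this.1, fun e => Uu (e ▸ e0)⟩),
          ind_one (Or.inr ⟨this.2, fun e => Wv (e ▸ e2)⟩)⟩
      · have := kb a b c q p r o (h.o12 o') e0 e1 e2 e3 h1 h3 h5 h4 h6 h8 h7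
        exact ⟨ind_one (Or.inr ⟨this.1, fun e => Uu (e ▸ e0)⟩),
          ind_one (Or.inl ⟨this.2, fun e => Wv (e ▸ e2)⟩)⟩
      · have := kb b a c p q r (h.o12 o) o' e0 e1 e2 e3 h5 h6 h1 h2 h3 h7 h8
        exact ⟨ind_one (Or.inl ⟨this.1, fun e => Uu (e ▸ e0)⟩),
          ind_one (Or.inr ⟨this.2, fun e => Wv (e ▸ e2)⟩)⟩
      · have := kb b a c q p r (h.o12 o) (h.o12 o') e0 e1 e2 e3 h4 h6 h2 h1 h3 h8 h7
        exact ⟨ind_one (Or.inl ⟨this.1, fun e => Uu (e ▸ e0)⟩),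
          ind_one (Or.inl ⟨this.2, fun e => Wv (e ▸ e2)⟩)⟩
    have s1 := ind_split (· = u) a b
    have s2 := ind_split (· = v) p q
    have s3 := ind_split U a b
    have s4 := ind_split W p q
    have := z2_ne
    generalize ind (· = u) a + ind (· = u) b = i1 at *
    generalize ind (· = v) p + ind (· = v) q = i2 at *
    generalize ind U a + ind U b = i3 at *
    generalize ind W p + ind W q = i4 at *
    rcases s1 with rfl | ⟨rfl, s1⟩ <;> rcases s2 with rfl | ⟨rfl, s2⟩ <;>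
      rcases s3 with rfl | ⟨rfl, s3⟩ <;> rcases s4 with rfl | ⟨rfl, s4⟩ <;>
      first
      | rfl
      | exact absurd (bw s3 s4).1 z2_ne
      | exact absurd (bw s3 s4).2 z2_ne
      | exact absurd (fw s1 s2).1 z2_ne
      | exact absurd (fw s1 s2).2 z2_ne
  have h' : Ctx V T P (flip (flip x (· = u) (· = v)) U W) :=
    h.change (flip_tour (flip_tour h.tour _ _) _ _) (by
    intro a b c p q r o o' h1 h2 h3 h4 h5 h6 h7 h8
    rw [cr_flip, cr_flip, h.lin a b c p q r o o' h1 h2 h3 h4 h5 h6 h7 h8,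
      key a b c p q r o o' h1 h2 h3 h4 h5 h6 h7 h8,
      key p q r a b c o' o h1.symm h4.symm h7.symm h2.symm h5.symm h8.symm h3.symm h6.symm]
    grind)
  obtain ⟨p, q, b⟩ := h'.exBL A
  have c : cr (flip (flip x (· = u) (· = v)) U W) m u v e = 1 ∧ e ≠ u := by
    rcases (Hv p q (Or.inl b.t) b.du b.eu (h.ne1 b.t).symm).1 with rfl | rfl
    · exact ⟨b.cd, b.du⟩
    · exact ⟨b.ce, b.eu⟩
  obtain ⟨c, eu⟩ := c
  rw [cr_flip, cr_flip, ind_neg (S := (· = u)) k1, ind_pos (S := (· = u)) rfl,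
    ind_pos (S := (· = v)) rfl, ind_neg (S := (· = v)) ev, ind_neg (S := (· = v)) k2,
    ind_neg (S := (· = v)) k3, ind_neg Um, ind_neg Uu, ind_neg Uv, ind_neg Ue, ce] at c
  grind

end Pool.Agent.Lib.MP_c59a20_lc
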