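import Pool.Agent.Lib.MP_c59a20_lc.Basic

/-!
The parity criterion for outerplanar orders of graphs, keeping all twins adjacent, and a
rigidity lemma for chains of adjacent points.
-/

namespace Pool.Agent.Lib.MP_c59a20_lc

variable {α : Type}

/-- The chord `ab` crosses no chord of `V`. -/
def Twin (x : α → α → ZMod 2) (V : Finset α) (a b : α) : Prop :=
  ∀ p ∈ V, ∀ q ∈ V, p ≠ a → p ≠ b → q ≠ a → q ≠ b → cr x a b p q = 0

/-- Independent edges of `G` do not cross. -/
def NC (x : α → α → ZMod 2) (G : α → α → Prop) : Prop :=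
  ∀ a b c d, G a b → G c d → a ≠ c → a ≠ d → b ≠ c → b ≠ d → cr x a b c d = 0

theorem Twin.symm {x : α → α → ZMod 2} {V : Finset α} {a b : α} (h : Twin x V a b) :
    Twin x V b a := fun p hp q hq h1 h2 h3 h4 => by
  rw [cr_l]; exact h p hp q hq h2 h1 h4 h3

theorem Twin.mono {x : α → α → ZMod 2} {V W : Finset α} {a b : α} (h : Twin x V a b)
    (hW : W ⊆ V) : Twin x W a b := fun p hp q hq => h p (hW hp) q (hW hq)

/-- Normal form of an order in which `u` and `v` are twins. -/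
theorem normal_form {σ : α → α → ZMod 2} (hσ : Tour σ) {V : Finset α} {u v : α}
    (hu : u ∈ V) (huv : u ≠ v) (hd : NoDia σ V) (ht : Twin σ V u v) (c : ZMod 2) :
    ∃ τ, Tour τ ∧ Trans τ (· ∈ V) ∧ (∀ a b p q, cr τ a b p q = cr σ a b p q) ∧
      (∀ a, a ≠ u → τ u a = 1) ∧ ∀ w ∈ V, w ≠ u → w ≠ v → τ v w = c := by
  by_cases h : ∃ w ∈ V, w ≠ u ∧ w ≠ v
  · obtain ⟨w, hw, hwu, hwv⟩ := h
    refine ⟨gauge σ (gauge σ 0 u v w + c) u, gauge_tour hσ _ _, hd.trans_gauge hσ _ hu,
      fun a b p q => cr_gauge _ _ _ _ _ _, fun a ha => gauge_src _ ha, fun t ht' htu htv => ?_⟩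
    have h1 := ht w hw t ht' hwu hwv htu htv
    rw [← cr_gauge 0 u] at h1
    rw [gauge_eps _ huv.symm htu]
    have h2 : gauge σ 0 u u w = 1 := gauge_src _ hwu
    have h3 : gauge σ 0 u u t = 1 := gauge_src _ htu
    unfold cr at h1
    grind
  · refine ⟨gauge σ 0 u, gauge_tour hσ _ _, hd.trans_gauge hσ _ hu,
      fun a b p q => cr_gauge _ _ _ _ _ _, fun a ha => gauge_src _ ha, fun t ht' htu htv => ?_⟩
    exact absurd ⟨t, ht', htu, htv⟩ h

theorem graph_ht [DecidableEq α] (n : ℕ) : ∀ (V : Finset α) (x : α → α → ZMod 2)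
    (G : α → α → Prop), V.card ≤ n → Tour x → (∀ a b, G a b → a ∈ V ∧ b ∈ V) → NC x G →
    ∃ σ, Tour σ ∧ NoDia σ V ∧ NC σ G ∧ ∀ a ∈ V, ∀ b ∈ V, Twin x V a b → Twin σ V a b := by
  induction n with
  | zero =>
    intro V x G hV hx hG hN
    have : V = ∅ := Finset.card_eq_zero.1 (by omega)
    subst this
    exact ⟨x, hx, fun a ha => by simp at ha, hN, fun a ha => by simp at ha⟩
  | succ n ih =>
    intro V x G hV hx hG hN
    by_cases hall : ∀ a ∈ V, ∀ b ∈ V, Twin x V a b
    · refine ⟨x, hx, ?_, hN, fun _ _ _ _ h => h⟩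
      intro a ha b hb c hc d hd hab hac had hbc hbd hcd h1 _
      rw [hall a ha b hb c hc d hd hac.symm hbc.symm had.symm hbd.symm] at h1
      exact z2_ne h1
    obtain ⟨u, hu, v, hv, hnt, hunc⟩ : ∃ u ∈ V, ∃ v ∈ V, ¬ Twin x V u v ∧
        ∀ c d, G c d → c ≠ u → c ≠ v → d ≠ u → d ≠ v → cr x u v c d = 0 := by
      by_cases hg : ∃ u v, G u v ∧ ¬ Twin x V u v
      · obtain ⟨u, v, h1, h2⟩ := hg
        exact ⟨u, (hG u v h1).1, v, (hG u v h1).2, h2, fun c d h3 h4 h5 h6 h7 =>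
          hN u v c d h1 h3 h4.symm h6.symm h5.symm h7.symm⟩
      · push Not at hg hall
        obtain ⟨u, hu, v, hv, h⟩ := hall
        refine ⟨u, hu, v, hv, h, fun c d h3 h4 h5 h6 h7 => ?_⟩
        rw [hx.swap h4.symm h6.symm h5.symm h7.symm]
        exact hg c d h3 u hu v hv h4.symm h6.symm h5.symm h7.symm
    have huv : u ≠ v := by
      rintro rfl
      exact hnt fun p _ q _ _ _ _ _ => cr_self_l _ _ _ _
    set y := gauge x 0 u with hy
    have hyt : Tour y := gauge_tour hx _ _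
    have hyc : ∀ a b p q, cr y a b p q = cr x a b p q := fun a b p q => cr_gauge _ _ _ _ _ _
    have hys : ∀ a, a ≠ u → y u a = 1 := fun a ha => gauge_src _ ha
    have hphi : ∀ p q, p ≠ u → q ≠ u → cr x u v p q = y v p + y v q := by
      intro p q hp hq
      rw [← hyc]
      have := hys p hp
      have := hys q hq
      unfold cr; grind
    set V1 := V.filter (fun w => w = u ∨ w = v ∨ y v w = 0) with hV1
    set V2 := V.filter (fun w => w = u ∨ w = v ∨ y v w = 1) with hV2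
    have m1 : ∀ w, w ∈ V1 ↔ w ∈ V ∧ (w = u ∨ w = v ∨ y v w = 0) := fun w => by simp [hV1]
    have m2 : ∀ w, w ∈ V2 ↔ w ∈ V ∧ (w = u ∨ w = v ∨ y v w = 1) := fun w => by simp [hV2]
    obtain ⟨s1, hs1, s2, hs2, hs1u, hs1v, hs2u, hs2v, e1, e2⟩ : ∃ s1 ∈ V, ∃ s2 ∈ V,
        s1 ≠ u ∧ s1 ≠ v ∧ s2 ≠ u ∧ s2 ≠ v ∧ y v s1 = 0 ∧ y v s2 = 1 := by
      unfold Twin at hnt
      push Not at hnt
      obtain ⟨p, hp, q, hq, h1, h2, h3, h4, h5⟩ := hnt
      rw [hphi p q h1 h3] at h5
      rcases z2 (y v p) with h6 | h6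
      · exact ⟨p, hp, q, hq, h1, h2, h3, h4, h6, by
          rcases z2 (y v q) with h7 | h7 <;> grind⟩
      · exact ⟨q, hq, p, hp, h3, h4, h1, h2, by
          rcases z2 (y v q) with h7 | h7 <;> grind, h6⟩
    have c1 : V1.card ≤ n := by
      have : V1.card < V.card := Finset.card_lt_card ⟨Finset.filter_subset _ _, fun h => by
        have := (m1 s2).1 (h hs2); have := z2_ne; grind⟩
      omega
    have c2 : V2.card ≤ n := by
      have : V2.card < V.card := Finset.card_lt_card ⟨Finset.filter_subset _ _, fun h => by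
        have := (m2 s1).1 (h hs1); have := z2_ne; grind⟩
      omega
    have sub1 : V1 ⊆ V := Finset.filter_subset _ _
    have sub2 : V2 ⊆ V := Finset.filter_subset _ _
    obtain ⟨σ1, t1, d1, n1, w1⟩ := ih V1 x (fun a b => G a b ∧ a ∈ V1 ∧ b ∈ V1) c1 hx
      (fun a b h => h.2) (fun a b c d h h' => hN a b c d h.1 h'.1)
    obtain ⟨σ2, t2, d2, n2, w2⟩ := ih V2 x (fun a b => G a b ∧ a ∈ V2 ∧ b ∈ V2) c2 hx
      (fun a b h => h.2) (fun a b c d h h' => hN a b c d h.1 h'.1)
    have hu1 : u ∈ V1 := (m1 u).2 ⟨hu, Or.inl rfl⟩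
    have hv1 : v ∈ V1 := (m1 v).2 ⟨hv, Or.inr (Or.inl rfl)⟩
    have hu2 : u ∈ V2 := (m2 u).2 ⟨hu, Or.inl rfl⟩
    have hv2 : v ∈ V2 := (m2 v).2 ⟨hv, Or.inr (Or.inl rfl)⟩
    have tw1 : Twin σ1 V1 u v := w1 u hu1 v hv1 fun p hp q hq h1 h2 h3 h4 => by
      rw [hphi p q h1 h3]
      have := (m1 p).1 hp
      have := (m1 q).1 hq
      grind
    have tw2 : Twin σ2 V2 u v := w2 u hu2 v hv2 fun p hp q hq h1 h2 h3 h4 => by
      rw [hphi p q h1 h3]
      have := (m2 p).1 hp
      have := (m2 q).1 hq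
      grind
    obtain ⟨τ1, a1, b1, f1, g1, k1⟩ := normal_form t1 hu1 huv d1 tw1 0
    obtain ⟨τ2, a2, b2, f2, g2, k2⟩ := normal_form t2 hu2 huv d2 tw2 1
    set z := glue (· ∈ V1) τ1 τ2 with hz
    have hzt : Tour z := glue_tour a1 a2
    have cover : ∀ w ∈ V, w ∈ V1 ∨ w ∈ V2 := fun w hw => by
      rw [m1, m2]; rcases z2 (y v w) with h | h <;> tauto
    have inter : ∀ w, w ∈ V1 → w ∈ V2 → w = u ∨ w = v := fun w h1 h2 => by
      have := (m1 w).1 h1; have := (m2 w).1 h2; have := z2_ne; grind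
    have z11 : ∀ p q, p ∈ V1 → q ∈ V1 → z p q = τ1 p q := fun p q hp hq => glue_ss hp hq
    have z12 : ∀ p q, p ∈ V1 → q ∉ V1 → z p q = 1 := fun p q hp hq => glue_sn hp hq
    have z21 : ∀ p q, p ∉ V1 → q ∈ V1 → z p q = 0 := fun p q hp hq => glue_ns hp hq
    have z22 : ∀ p q, p ∈ V2 → q ∈ V2 → p ≠ q → z p q = τ2 p q := by
      intro p q hp hq hpq
      have i1 := inter p
      have i2 := inter q
      have j1 := g1 v huv.symm
      have j2 := g2 v huv.symm
      have j3 := a1 u v huv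
      have j4 := a2 u v huv
      have j5 := a2 p q hpq
      have j6 := g2 p
      have j7 := g2 q
      have j8 := k2 p hp
      have j9 := k2 q hq
      by_cases hp1 : p ∈ V1 <;> by_cases hq1 : q ∈ V1
      · rw [z11 p q hp1 hq1]; grind
      · rw [z12 p q hp1 hq1]; grind
      · rw [z21 p q hp1 hq1]; grind
      · exact glue_nn hp1 hq1
    have zu : ∀ p, p ≠ u → z u p = 1 := by
      intro p hp
      by_cases h : p ∈ V1
      · rw [z11 u p hu1 h, g1 p hp]
      · exact z12 u p hu1 h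
    have zv1 : ∀ p ∈ V1, p ≠ u → p ≠ v → z v p = 0 := fun p hp h1 h2 => by
      rw [z11 v p hv1 hp, k1 p hp h1 h2]
    have zv1' : ∀ p ∈ V1, p ≠ v → z p v = 1 := fun p hp h2 => by
      by_cases h1 : p = u
      · rw [h1]; exact zu v huv.symm
      · have := hzt p v h2; have := zv1 p hp h1 h2; grind
    have zu' : ∀ p, p ≠ u → z p u = 0 := fun p hp => by
      have := hzt p u hp; have := zu p hp; grind
    -- chords on different sides do not cross
    have cross : ∀ a b c d, a ∈ V1 → b ∈ V1 → c ∈ V2 → d ∈ V2 → a ≠ c → a ≠ d → b ≠ c →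
        b ≠ d → cr z a b c d = 0 := by
      intro a b c d ha hb hc hd hac had hbc hbd
      have key : ∀ c, c ∈ V2 → a ≠ c → b ≠ c → z a c = z b c := by
        intro c hc hac hbc
        by_cases h : c ∈ V1
        · rcases inter c h hc with rfl | rfl
          · rw [zu' a hac, zu' b hbc]
          · rw [zv1' a ha hac, zv1' b hb hbc]
        · rw [z12 a c ha h, z12 b c hb h]
      have := key c hc hac hbc
      have := key d hd had hbd
      unfold cr; grind
    have side : ∀ a b, a ∈ V → b ∈ V → (a ≠ u → a ≠ v → b ≠ u → b ≠ v → cr x u v a b = 0) →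
        (a ∈ V1 ∧ b ∈ V1) ∨ (a ∈ V2 ∧ b ∈ V2) := by
      intro a b ha hb h
      rw [m1, m1, m2, m2]
      have := hphi a b
      rcases z2 (y v a) with h1 | h1 <;> rcases z2 (y v b) with h2 | h2 <;> grind
    have cr11 : ∀ a b c d, a ∈ V1 → b ∈ V1 → c ∈ V1 → d ∈ V1 → cr z a b c d = cr σ1 a b c d := by
      intro a b c d ha hb hc hd
      rw [← f1]; unfold cr
      rw [z11 a c ha hc, z11 a d ha hd, z11 b c hb hc, z11 b d hb hd]
    have cr22 : ∀ a b c d, a ∈ V2 → b ∈ V2 → c ∈ V2 → d ∈ V2 → a ≠ c → a ≠ d → b ≠ c → b ≠ d →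
        cr z a b c d = cr σ2 a b c d := by
      intro a b c d ha hb hc hd h1 h2 h3 h4
      rw [← f2]; unfold cr
      rw [z22 a c ha hc h1, z22 a d ha hd h2, z22 b c hb hc h3, z22 b d hb hd h4]
    refine ⟨z, hzt, ?_, ?_, ?_⟩
    · refine Trans.noDia hzt (glue_trans (b1.mono fun a h => h.2) (b2.mono fun a h => ?_))
      exact (cover a h.1).resolve_left h.2
    · intro a b c d hab hcd h1 h2 h3 h4
      rcases side a b (hG a b hab).1 (hG a b hab).2 (hunc a b hab) with ⟨ha, hb⟩ | ⟨ha, hb⟩ <;>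
        rcases side c d (hG c d hcd).1 (hG c d hcd).2 (hunc c d hcd) with ⟨hc, hd⟩ | ⟨hc, hd⟩
      · rw [cr11 a b c d ha hb hc hd]
        exact n1 a b c d ⟨hab, ha, hb⟩ ⟨hcd, hc, hd⟩ h1 h2 h3 h4
      · exact cross a b c d ha hb hc hd h1 h2 h3 h4
      · rw [hzt.swap h1 h2 h3 h4]
        exact cross c d a b hc hd ha hb h1.symm h3.symm h2.symm h4.symm
      · rw [cr22 a b c d ha hb hc hd h1 h2 h3 h4]
        exact n2 a b c d ⟨hab, ha, hb⟩ ⟨hcd, hc, hd⟩ h1 h2 h3 h4
    · intro a ha b hb htw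
      by_cases hab : a = b
      · subst hab; exact fun p _ q _ _ _ _ _ => cr_self_l _ _ _ _
      have hne : ¬ ((a = u ∧ b = v) ∨ (a = v ∧ b = u)) := by
        rintro (⟨rfl, rfl⟩ | ⟨rfl, rfl⟩)
        · exact hnt htw
        · exact hnt htw.symm
      have hs := side a b ha hb (fun h1 h2 h3 h4 => by
        rw [hx.swap h1.symm h3.symm h2.symm h4.symm]
        exact htw u hu v hv h1.symm h3.symm h2.symm h4.symm)
      -- a reference point among `u`, `v`
      obtain ⟨r, hr1, hr2, hra, hrb⟩ : ∃ r, r ∈ V1 ∧ r ∈ V2 ∧ r ≠ a ∧ r ≠ b := by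
        by_cases h : u ≠ a ∧ u ≠ b
        · exact ⟨u, hu1, hu2, h.1, h.2⟩
        · exact ⟨v, hv1, hv2, by grind, by grind⟩
      have key : ∀ p ∈ V, p ≠ a → p ≠ b → cr z a b r p = 0 := by
        intro p hp hpa hpb
        rcases hs with ⟨ha1, hb1⟩ | ⟨ha2, hb2⟩
        · rcases cover p hp with h | h
          · rw [cr11 a b r p ha1 hb1 hr1 h]
            exact w1 a ha1 b hb1 (htw.mono sub1) r hr1 p h hra hrb hpa hpb
          · exact cross a b r p ha1 hb1 hr2 h hra.symm hpa.symm hrb.symm hpb.symm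
        · rcases cover p hp with h | h
          · rw [hzt.swap hra.symm hpa.symm hrb.symm hpb.symm]
            exact cross r p a b hr1 h ha2 hb2 hra hrb hpa hpb
          · rw [cr22 a b r p ha2 hb2 hr2 h hra.symm hpa.symm hrb.symm hpb.symm]
            exact w2 a ha2 b hb2 (htw.mono sub2) r hr2 p h hra hrb hpa hpb
      intro p hp q hq h1 h2 h3 h4
      rw [cr_add_r z a b p r q, cr_r, key p hp h1 h2, key q hq h3 h4, add_zero]

section rigid

variable {y ρ : α → α → ZMod 2} {N : Finset α} {W : α → Prop}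

/-- If consecutive points of the chain `N` look the same from every other point of `W`, then the
ends of any segment look the same from every point of `W` outside the segment. -/
theorem rigid_outside [DecidableEq α] (hy : Tour y) (ht : Trans y (· ∈ N))
    (hc : ∀ s ∈ N, ∀ s' ∈ N, s ≠ s' → y s s' = 1 →
      (∀ t ∈ N, t ≠ s → t ≠ s' → y s t = 1 → y t s' = 0) →
      ∀ t, W t → t ≠ s → t ≠ s' → ρ s t = ρ s' t) (k : ℕ) :
    ∀ s ∈ N, ∀ s' ∈ N, s ≠ s' → y s s' = 1 →
      (N.filter (fun t => t ≠ s ∧ t ≠ s' ∧ y s t = 1 ∧ y t s' = 1)).card ≤ k →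
      ∀ t, W t → t ≠ s → t ≠ s' → (t ∈ N → y s t = 1 → y t s' = 0) → ρ s t = ρ s' t := by
  induction k with
  | zero =>
    intro s hs s' hs' hne h1 hk t hW h2 h3 _
    refine hc s hs s' hs' hne h1 (fun r hr h4 h5 h6 => z2_zero fun h7 => ?_) t hW h2 h3
    have : r ∈ N.filter (fun t => t ≠ s ∧ t ≠ s' ∧ y s t = 1 ∧ y t s' = 1) := by simp [*]
    have := Finset.card_pos.2 ⟨r, this⟩
    omega
  | succ k ih =>
    intro s hs s' hs' hne h1 hk t hW h2 h3 h4
    by_cases hex : ∃ r ∈ N, r ≠ s ∧ r ≠ s' ∧ y s r = 1 ∧ y r s' = 1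
    · obtain ⟨r, hr, r1, r2, r3, r4⟩ := hex
      have hrm : r ∈ N.filter (fun t => t ≠ s ∧ t ≠ s' ∧ y s t = 1 ∧ y t s' = 1) := by simp [*]
      have htr : t ≠ r := by
        rintro rfl
        have := h4 hr r3
        exact z2_ne (this.symm.trans r4)
      have sub : ∀ a b, (∀ w ∈ N, w ≠ a → w ≠ b → y a w = 1 → y w b = 1 →
          w ≠ r ∧ w ≠ s ∧ w ≠ s' ∧ y s w = 1 ∧ y w s' = 1) →
          (N.filter (fun t => t ≠ a ∧ t ≠ b ∧ y a t = 1 ∧ y t b = 1)).card ≤ k := by
        intro a b h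
        have : (N.filter (fun t => t ≠ a ∧ t ≠ b ∧ y a t = 1 ∧ y t b = 1)) ⊆
            (N.filter (fun t => t ≠ s ∧ t ≠ s' ∧ y s t = 1 ∧ y t s' = 1)).erase r := by
          intro w hw
          simp only [Finset.mem_filter, Finset.mem_erase] at hw ⊢
          have := h w hw.1 hw.2.1 hw.2.2.1 hw.2.2.2.1 hw.2.2.2.2
          tauto
        have h1 := Finset.card_le_card this
        rw [Finset.card_erase_of_mem hrm] at h1
        omega
      have hsr := hy s' r r2.symm
      have hrs := hy r s r1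
      have e1 : ρ s t = ρ r t := by
        refine ih s hs r hr r1.symm r3 (sub s r fun w hw w1 w2 w3 w4 => ?_) t hW h2 htr
          (fun htN h5 => z2_zero fun h6 => ?_)
        · have w5 : w ≠ s' := by rintro rfl; grind
          exact ⟨w2, w1, w5, w3, ht w r s' hw hr hs' w2 w5 r2 w4 r4⟩
        · have := ht t r s' htN hr hs' htr h3 r2 h6 r4
          have := h4 htN h5
          grind
      have e2 : ρ r t = ρ s' t := by
        refine ih r hr s' hs' r2 r4 (sub r s' fun w hw w1 w2 w3 w4 => ?_) t hW htr h3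
          (fun htN h5 => h4 htN (ht s r t hs hr htN r1.symm h2.symm htr.symm r3 h5))
        have w5 : w ≠ s := by rintro rfl; grind
        exact ⟨w1, w5, w2, ht s r w hs hr hw r1.symm w5.symm w1.symm r3 w3, w4⟩
      rw [e1, e2]
    · push Not at hex
      exact hc s hs s' hs' hne h1 (fun r hr h4 h5 h6 => z2_zero (hex r hr h4 h5 h6)) t hW h2 h3

theorem rigid [DecidableEq α] (hy : Tour y) (hρ : Tour ρ) (ht : Trans y (· ∈ N))
    (hNW : ∀ s ∈ N, W s)
    (hc : ∀ s ∈ N, ∀ s' ∈ N, s ≠ s' → y s s' = 1 →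
      (∀ t ∈ N, t ≠ s → t ≠ s' → y s t = 1 → y t s' = 0) →
      ∀ t, W t → t ≠ s → t ≠ s' → ρ s t = ρ s' t) :
    (∀ s ∈ N, ∀ s' ∈ N, ∀ t, W t → t ∉ N → ρ s t = ρ s' t) ∧
    ∀ a ∈ N, ∀ b ∈ N, ∀ c ∈ N, ∀ d ∈ N, a ≠ b → c ≠ d → ρ a b + y a b = ρ c d + y c d := by
  have out := fun s hs s' hs' h1 h2 => rigid_outside hy ht hc _ s hs s' hs' h1 h2 le_rfl
  constructor
  · intro s hs s' hs' t hW htN
    by_cases h : s = s'
    · rw [h]
    have h2 : t ≠ s := fun e => htN (e ▸ hs)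
    have h3 : t ≠ s' := fun e => htN (e ▸ hs')
    rcases z2 (y s s') with h1 | h1
    · have := hy s s' h
      exact (out s' hs' s hs (Ne.symm h) (by grind) t hW h3 h2 fun h => absurd h htN).symm
    · exact out s hs s' hs' h h1 t hW h2 h3 fun h => absurd h htN
  · -- a point outside a segment sees both ends alike
    have A : ∀ a ∈ N, ∀ b ∈ N, ∀ c ∈ N, a ≠ b → a ≠ c → b ≠ c → y b c = 1 →
        (y b a = 1 → y a c = 0) → ρ a b + y a b = ρ a c + y a c := by
      intro a ha b hb c hc hab hac hbc h1 h2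
      have e := out b hb c hc hbc h1 a (hNW a ha) hab hac fun _ => h2
      have t1 := ht a b c ha hb hc hab hac hbc
      have := hy a b hab
      have := hy a c hac
      have := hρ a b hab
      have := hρ a c hac
      rcases z2 (y a b) with h3 | h3 <;> grind
    have B : ∀ a ∈ N, ∀ b ∈ N, ∀ c ∈ N, a ≠ b → a ≠ c → b ≠ c → y b c = 1 →
        ρ a b + y a b = ρ a c + y a c := by
      intro a ha b hb c hc hab hac hbc h1
      by_cases h2 : y b a = 1 → y a c = 0
      · exact A a ha b hb c hc hab hac hbc h1 h2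
      · push Not at h2
        have h3 := z2_one h2.2
        have := hy a b hab
        have := hy a c hac
        have := hy b c hbc
        have := hρ a b hab
        have := hρ a c hac
        have := hρ b c hbc
        have e1 := A b hb a ha c hc hab.symm hbc hac h3 (by grind)
        have e2 := A c hc b hb a ha hbc.symm hac.symm hab.symm h2.1 (by grind)
        grind
    have C : ∀ a ∈ N, ∀ b ∈ N, ∀ c ∈ N, a ≠ b → a ≠ c → ρ a b + y a b = ρ a c + y a c := by
      intro a ha b hb c hc hab hac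
      by_cases hbc : b = c
      · rw [hbc]
      rcases z2 (y b c) with h | h
      · have := hy b c hbc
        exact (B a ha c hc b hb hac hab (Ne.symm hbc) (by grind)).symm
      · exact B a ha b hb c hc hab hac hbc h
    intro a ha b hb c hc d hd hab hcd
    have S : ∀ p q, p ≠ q → ρ p q + y p q = ρ q p + y q p := fun p q h => by
      have := hy p q h; have := hρ p q h; grind
    by_cases hac : a = c
    · subst hac; exact C a ha b hb d hd hab hcd
    · rw [C a ha b hb c hc hab hac, S a c hac, C c hc a ha d hd (Ne.symm hac) hcd]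

end rigid

end Pool.Agent.Lib.MP_c59a20_lc
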