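import Pool.Agent.Lib.MP_c59a20_lc.GraphHT

/-!
The parity criterion for an outerplanar graph together with non-crossing conditions among the
neighbours of each vertex.
-/

namespace Pool.Agent.Lib.MP_c59a20_lc

variable {α : Type}

open Relation

theorem exists_rep (K : α → α → Prop) (hr : ∀ p, K p p) (hK : ∀ p q, K p q → K p = K q)
    (W : α → Prop) : ∃ rep : α → α, (∀ p, K p (rep p)) ∧ (∀ p q, K p q → rep p = rep q) ∧
      ∀ p w, W w → K p w → W (rep p) := by
  classical
  have h : ∀ S : α → Prop, (∃ p, S p) → ∃ r, S r ∧ ∀ w, W w → S w → W r := by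
    rintro S ⟨p, hp⟩
    by_cases h : ∃ w, W w ∧ S w
    · obtain ⟨w, h1, h2⟩ := h
      exact ⟨w, h2, fun _ _ _ => h1⟩
    · exact ⟨p, hp, fun w h1 h2 => absurd ⟨w, h1, h2⟩ h⟩
  choose F hF using h
  refine ⟨fun p => F (K p) ⟨p, hr p⟩, fun p => (hF _ _).1, fun p q hpq => ?_,
    fun p w h1 h2 => (hF _ _).2 w h1 h2⟩
  have := hK p q hpq
  simp only [this]

/-- One step: the neighbours of `u` are put into an order in which the chords `L` do not cross. -/
theorem pages_step [DecidableEq α] (V : Finset α) (P : α → α → Prop) (x : α → α → ZMod 2)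
    (hx : Tour x) (hs : ∀ a b, P a b → P b a) (hV : ∀ a b, P a b → a ≠ b ∧ a ∈ V ∧ b ∈ V)
    (hN : NC x P) (u : α) (L : α → α → Prop) (hL : ∀ a b, L a b → P u a ∧ P u b)
    (hLN : NC x L) :
    ∃ ρ z, Tour ρ ∧ Tour z ∧ Trans ρ (P u) ∧ NC ρ L ∧
      NC z (fun a b => P a b ∨ (a ≠ b ∧ P u a ∧ P u b ∧
        ∀ t, P u t → t ≠ a → t ≠ b → ρ a t = ρ b t)) ∧
      ∀ w a b p q, w ≠ u → P w a → P w b → P w p → P w q → a ≠ p → a ≠ q → b ≠ p → b ≠ q →
        cr z a b p q = cr x a b p q := by
  classical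
  set y := gauge x 0 u with hy
  have hyt : Tour y := gauge_tour hx _ _
  have hyc : ∀ a b p q, cr y a b p q = cr x a b p q := fun a b p q => cr_gauge _ _ _ _ _ _
  have hys : ∀ a, a ≠ u → y u a = 1 := fun a ha => gauge_src _ ha
  have hphi : ∀ v p q, p ≠ u → q ≠ u → cr x u v p q = y v p + y v q := by
    intro v p q hp hq
    rw [← hyc]
    have := hys p hp
    have := hys q hq
    unfold cr; grind
  have hWu : ∀ a, P u a → a ≠ u := fun a h => (hV u a h).1.symm
  set R : α → α → Prop := fun p q => P p q ∧ p ≠ u ∧ q ≠ u with hR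
  set K : α → α → Prop := ReflTransGen R with hK
  have Ks : ∀ p q, K p q → K q p := fun p q h =>
    reach_symm (fun a b h => ⟨hs a b h.1, h.2.2, h.2.1⟩) h
  have Kt : ∀ p q r, K p q → K q r → K p r := fun p q r h1 h2 => h1.trans h2
  have Kr : ∀ p, K p p := fun p => ReflTransGen.refl
  have Ku : ∀ p, K p u → p = u := fun p h => by
    rcases reach_last h with h | ⟨q, h⟩
    · exact h.symm
    · exact absurd rfl h.2.2
  -- walks that avoid a neighbour of `u` are not crossed by its spoke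
  have spoke : ∀ (R' : α → α → Prop) c a b, P u c → (∀ p q, R' p q → R p q ∧ p ≠ c ∧ q ≠ c) →
      ReflTransGen R' a b → cr x u c a b = 0 := by
    intro R' c a b hc hR' h
    refine cr_reach h fun p q _ h2 => ?_
    obtain ⟨⟨h3, h4, h5⟩, h6, h7⟩ := hR' p q h2
    exact hN u c p q hc h3 h4.symm h5.symm h6.symm h7.symm
  have tr : ∀ k, Trans y (fun a => P u a ∧ K k a) := by
    intro k a b c ⟨ha, ka⟩ ⟨hb, kb⟩ ⟨hc, kc⟩ hab hac hbc h1 h2
    by_contra h3
    have h3 := z2_zero h3
    have t1 := hyt a b hab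
    have t2 := hyt a c hac
    have t3 := hyt b c hbc
    have e1 := hphi c a b (hWu a ha) (hWu b hb)
    have e2 := hphi b a c (hWu a ha) (hWu c hc)
    have hab' : K a b := Kt _ _ _ (Ks _ _ ka) kb
    have nb : ∀ p, ReflTransGen (fun p q => R p q ∧ p ≠ b ∧ p ≠ c ∧ q ≠ b ∧ q ≠ c) a p →
        p ≠ b ∧ p ≠ c := fun p h => by
      rcases reach_last h with h | ⟨q, h⟩
      · rw [h]; exact ⟨hab, hac⟩
      · exact h.2.2.2
    obtain ⟨p, q, w1, w2, w3⟩ := exit_step (R' := fun p q => R p q ∧ p ≠ b ∧ p ≠ c ∧ q ≠ b ∧ q ≠ c)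
      hab' fun h => (nb b h).1 rfl
    obtain ⟨pb, pc⟩ := nb p w1
    have s1 := spoke _ c a p hc (fun p q h => ⟨h.1, h.2.2.1, h.2.2.2.2⟩) w1
    have s2 := spoke _ b a p hb (fun p q h => ⟨h.1, h.2.1, h.2.2.2.1⟩) w1
    by_cases hq : q = b
    · subst hq
      have s3 := hN u c p q hc w2.1 w2.2.1.symm w2.2.2.symm pc.symm hbc.symm
      have := cr_add_r x u c a p q
      grind
    · have hq' : q = c := by
        by_contra h
        exact w3 ⟨w2, pb, pc, hq, h⟩
      subst hq'
      have s3 := hN u b p q hb w2.1 w2.2.1.symm w2.2.2.symm pb.symm hbc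
      have := cr_add_r x u b a p q
      grind
  set W := V.filter (P u) with hW
  have mW : ∀ a, a ∈ W ↔ P u a := fun a => by
    simp only [hW, Finset.mem_filter]
    exact ⟨fun h => h.2, fun h => ⟨(hV u a h).2.2, h⟩⟩
  obtain ⟨ρ0, r1, r2, r3, r4⟩ := graph_ht _ (insert u W) x L le_rfl hx
    (fun a b h => ⟨Finset.mem_insert_of_mem ((mW a).2 (hL a b h).1),
      Finset.mem_insert_of_mem ((mW b).2 (hL a b h).2)⟩) hLN
  set ρ := gauge ρ0 0 u with hρ
  have hρt : Tour ρ := gauge_tour r1 _ _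
  have hρc : ∀ a b p q, cr ρ a b p q = cr ρ0 a b p q := fun a b p q => cr_gauge _ _ _ _ _ _
  have hρs : ∀ a, a ≠ u → ρ u a = 1 := fun a ha => gauge_src _ ha
  have hρtr : Trans ρ (P u) := (r2.trans_gauge r1 0 (Finset.mem_insert_self _ _)).mono
    fun a h => Finset.mem_insert_of_mem ((mW a).2 h)
  have rig : ∀ k, (∀ s, P u s → K k s → ∀ s', P u s' → K k s' → ∀ t, P u t → ¬ K k t →
      ρ s t = ρ s' t) ∧ ∀ a b c d, P u a → K k a → P u b → K k b → P u c → K k c → P u d → K k d →
      a ≠ b → c ≠ d → ρ a b + y a b = ρ c d + y c d := by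
    intro k
    have mN : ∀ a, a ∈ W.filter (K k) ↔ P u a ∧ K k a := fun a => by
      rw [Finset.mem_filter, mW]
    have trN : Trans y (· ∈ W.filter (K k)) := (tr k).mono fun a h => (mN a).1 h
    have := rigid (N := W.filter (K k)) (W := P u) hyt hρt trN (fun s h => ((mN s).1 h).1) (by
      intro s hs' s' hs'' hne h1 h2 t ht hts hts'
      obtain ⟨ws, ks⟩ := (mN s).1 hs'
      obtain ⟨ws', ks'⟩ := (mN s').1 hs''
      have one : ∀ t, P u t → t ≠ s → t ≠ s' → cr x s s' u t = 0 := by
        intro t ht hts hts'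
        rw [hx.swap (hWu s ws) hts.symm (hWu s' ws') hts'.symm]
        by_cases kt : K k t
        · rw [hphi t s s' (hWu s ws) (hWu s' ws')]
          have a1 := h2 t ((mN t).2 ⟨ht, kt⟩) hts hts'
          have a2 := tr k t s s' ⟨ht, kt⟩ ⟨ws, ks⟩ ⟨ws', ks'⟩ hts hts' hne
          have a3 := hyt t s hts
          rcases z2 (y t s) with h | h <;> grind
        · refine cr_reach (Kt _ _ _ (Ks _ _ ks) ks') fun p q h3 h4 => ?_
          have kp : K k p := Kt _ _ _ ks h3
          have kq : K k q := kp.tail h4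
          exact hN u t p q ht h4.1 h4.2.1.symm h4.2.2.symm (fun e => kt (e ▸ kp))
            (fun e => kt (e ▸ kq))
      have tw : Twin x (insert u W) s s' := by
        intro p hp q hq b1 b2 b3 b4
        have c : ∀ p ∈ insert u W, p ≠ s → p ≠ s' → cr x s s' u p = 0 := by
          intro p hp b1 b2
          rcases Finset.mem_insert.1 hp with rfl | hp
          · exact cr_self_r _ _ _ _
          · exact one p ((mW p).1 hp) b1 b2
        rw [cr_add_r x s s' p u q, cr_r, c p hp b1 b2, c q hq b3 b4, add_zero]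
      have tw' := r4 s (Finset.mem_insert_of_mem ((mW s).2 ws)) s'
        (Finset.mem_insert_of_mem ((mW s').2 ws')) tw u (Finset.mem_insert_self _ _) t
        (Finset.mem_insert_of_mem ((mW t).2 ht)) (hWu s ws).symm (hWu s' ws').symm hts hts'
      rw [← hρc] at tw'
      have := hρs s (hWu s ws)
      have := hρs s' (hWu s' ws')
      have := hρt s u (hWu s ws)
      have := hρt s' u (hWu s' ws')
      unfold cr at tw'
      grind)
    refine ⟨fun s h1 h2 s' h3 h4 t h5 h6 => this.1 s ((mN s).2 ⟨h1, h2⟩) s' ((mN s').2 ⟨h3, h4⟩)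
      t h5 fun h => h6 ((mN t).1 h).2, fun a b c d h1 h2 h3 h4 h5 h6 h7 h8 =>
      this.2 a ((mN a).2 ⟨h1, h2⟩) b ((mN b).2 ⟨h3, h4⟩) c ((mN c).2 ⟨h5, h6⟩) d
        ((mN d).2 ⟨h7, h8⟩)⟩
  have Keq : ∀ p q, K p q → K p = K q := fun p q h => funext fun r =>
    propext ⟨fun h' => Kt _ _ _ (Ks _ _ h) h', fun h' => Kt _ _ _ h h'⟩
  obtain ⟨rep, p1, p2, p3⟩ := exists_rep K Kr Keq (P u)
  obtain ⟨ε, e1, e2⟩ : ∃ ε : α → ZMod 2, (∀ p q, K p q → ε p = ε q) ∧
      ∀ a b, P u a → P u b → K a b → a ≠ b → ρ a b = y a b + ε a := by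
    refine ⟨fun p => if ∃ a b, P u a ∧ P u b ∧ K p a ∧ K p b ∧ a ≠ b ∧ ρ a b + y a b = 1 then 1
      else 0, fun p q h => by simp only [Keq p q h], fun a b ha hb hab hne => ?_⟩
    dsimp only
    split_ifs with h
    · obtain ⟨c, d, h1, h2, h3, h4, h5, h6⟩ := h
      have := (rig a).2 a b c d ha (Kr a) hb hab h1 h3 h2 h4 hne h5
      grind
    · have := z2_zero fun h' => h ⟨a, b, ha, hb, Kr a, hab, hne, h'⟩
      grind
  set z : α → α → ZMod 2 := fun p q => if K p q then y p q + ε p else ρ (rep p) (rep q) with hz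
  have zin : ∀ p q, K p q → z p q = y p q + ε p := fun p q h => by simp only [hz, h, if_true]
  have zout : ∀ p q, ¬ K p q → z p q = ρ (rep p) (rep q) := fun p q h => by
    simp only [hz, h, if_false]
  have hzt : Tour z := by
    intro p q hpq
    by_cases h : K p q
    · rw [zin p q h, zin q p (Ks _ _ h), e1 p q h]
      have := hyt p q hpq
      grind
    · rw [zout p q h, zout q p fun h' => h (Ks _ _ h')]
      exact hρt _ _ fun e => h (Kt _ _ _ (p1 p) (e ▸ Ks _ _ (p1 q)))
  have zW : ∀ a b, P u a → P u b → a ≠ b → z a b = ρ a b := by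
    intro a b ha hb hab
    by_cases h : K a b
    · rw [zin a b h, e2 a b ha hb h hab]
    · rw [zout a b h]
      have wa := p3 a a ha (Kr a)
      have wb := p3 b b hb (Kr b)
      have n1 : ¬ K a (rep b) := fun h' => h (Kt _ _ _ h' (Ks _ _ (p1 b)))
      have n2 : ¬ K b a := fun h' => h (Ks _ _ h')
      have a1 := (rig a).1 (rep a) wa (p1 a) a ha (Kr a) (rep b) wb n1
      have a2 := (rig b).1 (rep b) wb (p1 b) b hb (Kr b) a ha n2
      have a3 := hρt a b hab
      have a4 := hρt a (rep b) fun e => n1 (e ▸ Kr a)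
      grind
  have zu : ∀ q, q ≠ u → z u q = 1 := by
    intro q hq
    have n : ¬ K u q := fun h => hq (Ku q (Ks _ _ h))
    rw [zout u q n, Ku _ (Ks _ _ (p1 u))]
    exact hρs _ fun e => hq (Ku q (e ▸ p1 q))
  -- points of one component look alike from outside
  have alike : ∀ s p q, K p q → ¬ K s p → z s p = z s q := by
    intro s p q h1 h2
    rw [zout s p h2, zout s q fun h => h2 (Kt _ _ _ h (Ks _ _ h1)), p2 p q h1]
  have inside : ∀ s p q, K s p → K s q → z s p + z s q = y s p + y s q := by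
    intro s p q h1 h2
    rw [zin s p h1, zin s q h2]; grind
  have spk : ∀ s p q, P u s → R p q → s ≠ p → s ≠ q → z s p = z s q := by
    intro s p q h1 h2 h3 h4
    have kpq : K p q := ReflTransGen.single h2
    by_cases h : K s p
    · have a1 := inside s p q h (Kt _ _ _ h kpq)
      have a2 := hN u s p q h1 h2.1 h2.2.1.symm h2.2.2.symm h3 h4
      rw [hphi s p q h2.2.1 h2.2.2] at a2
      grind
    · exact alike s p q kpq h
  have spk' : ∀ s p q, P u s → P p q → u ≠ p → u ≠ q → s ≠ p → s ≠ q → cr z u s p q = 0 := by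
    intro s p q h1 h2 h3 h4 h5 h6
    have := spk s p q h1 ⟨h2, h3.symm, h4.symm⟩ h5 h6
    have := zu p h3.symm
    have := zu q h4.symm
    unfold cr; grind
  have PP : NC z P := by
    intro a b c d hab hcd h1 h2 h3 h4
    by_cases ha : a = u
    · subst ha; exact spk' b c d hab hcd h1 h2 h3 h4
    by_cases hb : b = u
    · subst hb; rw [cr_l]; exact spk' a c d (hs _ _ hab) hcd h3 h4 h1 h2
    by_cases hc : c = u
    · subst hc; rw [hzt.swap h1 h2 h3 h4]
      exact spk' d a b hcd hab h1.symm h3.symm h2.symm h4.symm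
    by_cases hd : d = u
    · subst hd; rw [hzt.swap h1 h2 h3 h4, cr_l]
      exact spk' c a b (hs _ _ hcd) hab h2.symm h4.symm h1.symm h3.symm
    have kab : K a b := ReflTransGen.single ⟨hab, ha, hb⟩
    have kcd : K c d := ReflTransGen.single ⟨hcd, hc, hd⟩
    by_cases h : K a c
    · have kbc := Kt _ _ _ (Ks _ _ kab) h
      have a1 := inside a c d h (Kt _ _ _ h kcd)
      have a2 := inside b c d kbc (Kt _ _ _ kbc kcd)
      have a3 := hN a b c d hab hcd h1 h2 h3 h4
      rw [← hyc] at a3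
      unfold cr at a3 ⊢
      grind
    · have a1 := alike a c d kcd h
      have a2 := alike b c d kcd fun h' => h (Kt _ _ _ kab h')
      unfold cr; grind
  have NP : ∀ a b c d, P u a → P u b → (∀ t, P u t → t ≠ a → t ≠ b → ρ a t = ρ b t) → P c d →
      a ≠ c → a ≠ d → b ≠ c → b ≠ d → cr z a b c d = 0 := by
    have aux : ∀ a b d, P u a → P u b → (∀ t, P u t → t ≠ a → t ≠ b → ρ a t = ρ b t) → P u d →
        a ≠ d → b ≠ d → cr z a b u d = 0 := by
      intro a b d ha hb ht hd h2 h4
      have := ht d hd h2.symm h4.symm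
      have := zW a d ha hd h2
      have := zW b d hb hd h4
      have := zu a (hWu a ha)
      have := zu b (hWu b hb)
      have := hzt a u (hWu a ha)
      have := hzt b u (hWu b hb)
      unfold cr; grind
    intro a b c d ha hb ht hcd h1 h2 h3 h4
    by_cases hc : c = u
    · subst hc; exact aux a b d ha hb ht hcd h2 h4
    by_cases hd : d = u
    · subst hd; rw [cr_r]; exact aux a b c ha hb ht (hs _ _ hcd) h1 h3
    have := spk a c d ha ⟨hcd, hc, hd⟩ h1 h2
    have := spk b c d hb ⟨hcd, hc, hd⟩ h3 h4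
    unfold cr; grind
  refine ⟨ρ, z, hρt, hzt, hρtr, fun a b c d h1 h2 h3 h4 h5 h6 => by
    rw [hρc]; exact r3 a b c d h1 h2 h3 h4 h5 h6, ?_, ?_⟩
  · rintro a b c d (hab | ⟨_, ha, hb, ht⟩) (hcd | ⟨_, hc, hd, ht'⟩) h1 h2 h3 h4
    · exact PP a b c d hab hcd h1 h2 h3 h4
    · rw [hzt.swap h1 h2 h3 h4]
      exact NP c d a b hc hd ht' hab h1.symm h3.symm h2.symm h4.symm
    · exact NP a b c d ha hb ht hcd h1 h2 h3 h4
    · have := ht c hc h1.symm h3.symm
      have := ht d hd h2.symm h4.symm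
      have := zW a c ha hc h1
      have := zW a d ha hd h2
      have := zW b c hb hc h3
      have := zW b d hb hd h4
      unfold cr; grind
  · intro w a b p q hw ha hb hp hq h1 h2 h3 h4
    have kw : ∀ a, P w a → a ≠ u → K w a := fun a h h' => ReflTransGen.single ⟨h, hw, h'⟩
    -- each point sees the pair `p q` as before
    have see : ∀ a p q, P w a → P w p → P w q → p ≠ u → q ≠ u →
        z a p + z a q = y a p + y a q := by
      intro a p q ha hp hq hpu hqu
      by_cases hau : a = u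
      · rw [hau, zu p hpu, zu q hqu, hys p hpu, hys q hqu]
      · have k := Ks _ _ (kw a ha hau)
        exact inside a p q (Kt _ _ _ k (kw p hp hpu)) (Kt _ _ _ k (kw q hq hqu))
    rw [← hyc]
    by_cases h : p ≠ u ∧ q ≠ u
    · have := see a p q ha hp hq h.1 h.2
      have := see b p q hb hp hq h.1 h.2
      unfold cr; grind
    · have hau : a ≠ u := by grind
      have hbu : b ≠ u := by grind
      have := see p a b hp ha hb hau hbu
      have := see q a b hq ha hb hau hbu
      rw [hzt.swap h1 h2 h3 h4, hyt.swap h1 h2 h3 h4]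
      unfold cr; grind

theorem pages [DecidableEq α] (V : Finset α) (L : α → α → α → Prop) (U : Finset α) :
    ∀ (P : α → α → Prop) (x : α → α → ZMod 2), Tour x → (∀ a b, P a b → P b a) →
    (∀ a b, P a b → a ≠ b ∧ a ∈ V ∧ b ∈ V) → NC x P → (∀ u a b, L u a b → P u a ∧ P u b) →
    (∀ u ∈ U, NC x (L u)) →
    ∃ σ, Tour σ ∧ NoDia σ V ∧ NC σ P ∧ ∀ u ∈ U, NC σ (L u) := by
  classical
  induction U using Finset.induction_on with
  | empty =>
    intro P x hx hs hV hN _ _
    obtain ⟨σ, h1, h2, h3, _⟩ := graph_ht _ V x P le_rfl hx (fun a b h => (hV a b h).2) hN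
    exact ⟨σ, h1, h2, h3, fun u hu => by simp at hu⟩
  | insert u U hu ih =>
    intro P x hx hs hV hN hL hU
    obtain ⟨ρ, z, hρ, hz, tr, nL, nP, same⟩ := pages_step V P x hx hs hV hN u (L u) (hL u)
      (hU u (Finset.mem_insert_self _ _))
    obtain ⟨σ, s1, s2, s3, s4⟩ := ih _ z hz (by
        rintro a b (h | ⟨h1, h2, h3, h4⟩)
        · exact Or.inl (hs a b h)
        · exact Or.inr ⟨h1.symm, h3, h2, fun t ht h5 h6 => (h4 t ht h6 h5).symm⟩) (by
        rintro a b (h | ⟨h1, h2, h3, h4⟩)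
        · exact hV a b h
        · exact ⟨h1, (hV u a h2).2.2, (hV u b h3).2.2⟩) nP
      (fun w a b h => ⟨Or.inl (hL w a b h).1, Or.inl (hL w a b h).2⟩) (by
        intro w hw a b c d hab hcd h1 h2 h3 h4
        rw [same w a b c d (fun e => hu (e ▸ hw)) (hL w a b hab).1 (hL w a b hab).2
          (hL w c d hcd).1 (hL w c d hcd).2 h1 h2 h3 h4]
        exact hU w (Finset.mem_insert_of_mem hw) a b c d hab hcd h1 h2 h3 h4)
    refine ⟨σ, s1, s2, fun a b c d hab hcd => s3 a b c d (Or.inl hab) (Or.inl hcd), ?_⟩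
    intro w hw
    rcases Finset.mem_insert.1 hw with rfl | hw
    swap
    · exact s4 w hw
    set W := V.filter (P w) with hW
    have mW : ∀ a, a ∈ W ↔ P w a := fun a => by
      simp only [hW, Finset.mem_filter]
      exact ⟨fun h => h.2, fun h => ⟨(hV w a h).2.2, h⟩⟩
    have hWu : ∀ a, P w a → a ≠ w := fun a h => (hV w a h).1.symm
    have gt : Tour (gauge σ 0 w) := gauge_tour s1 _ _
    have rg := (rigid (N := W) (W := P w) hρ gt (tr.mono fun a h => (mW a).1 h)
      (fun s h => (mW s).1 h) (by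
        intro s hs' s' hs'' hne h1 h2 t ht hts hts'
        have ws := (mW s).1 hs'
        have ws' := (mW s').1 hs''
        have a := s3 s s' w t (Or.inr ⟨hne, ws, ws', fun t ht h3 h4 => by
          have a1 := h2 t ((mW t).2 ht) h3 h4
          have a2 := tr t s s' ht ws ws' h3 h4 hne
          have a3 := hρ t s h3
          have a4 := hρ t s' h4
          rcases z2 (ρ t s) with h | h <;> grind⟩) (Or.inl ht) (hWu s ws) hts.symm (hWu s' ws')
          hts'.symm
        rw [← cr_gauge 0 w] at a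
        have := gauge_snk s1 0 (hWu s ws)
        have := gauge_snk s1 0 (hWu s' ws')
        unfold cr at a
        grind)).2
    intro a b c d hab hcd h1 h2 h3 h4
    have ma := (mW a).2 (hL w a b hab).1
    have mb := (mW b).2 (hL w a b hab).2
    have mc := (mW c).2 (hL w c d hcd).1
    have md := (mW d).2 (hL w c d hcd).2
    have := rg a ma c mc a ma d md h1 h2
    have := rg b mb c mc b mb d md h3 h4
    have e := nL a b c d hab hcd h1 h2 h3 h4
    rw [← cr_gauge 0 w]
    unfold cr at e ⊢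
    grind

end Pool.Agent.Lib.MP_c59a20_lc
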