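import Pool.Agent.Lib.MP_c59a20_lc.Sys

/-!
A triple none of whose pairs is distinguished: the links of its three points.
-/

namespace Pool.Agent.Lib.MP_c59a20_lc

variable {α : Type} {V : Finset α} {T : α → α → α → Prop} {P : α → α → Prop}
  {x : α → α → ZMod 2}

open Relation

/-- A triple whose pairs lie in no other triple and are not distinguished. -/
structure Loose (T : α → α → α → Prop) (P : α → α → Prop) (m u v : α) : Prop where
  t : T m u v
  c1 : ∀ r, T m u r → r = v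
  c2 : ∀ r, T m v r → r = u
  c3 : ∀ r, T u v r → r = m
  p1 : ¬ P m u
  p2 : ¬ P m v
  p3 : ¬ P u v

/-- A triple through `v` whose two chords at `v` cross `mu`. -/
structure BL (T : α → α → α → Prop) (x : α → α → ZMod 2) (m u v d e : α) : Prop where
  t : T v d e
  dm : d ≠ m
  du : d ≠ u
  em : e ≠ m
  eu : e ≠ u
  cd : cr x m u v d = 1
  ce : cr x m u v e = 1

theorem Ctx.l12 (h : Ctx V T P x) {m u v : α} (A : Loose T P m u v) : Loose T P u m v :=
  ⟨h.s12 A.t, fun r t => A.c1 r (h.s12 t), A.c3, A.c2, fun p => A.p1 (h.ps p), A.p3, A.p2⟩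

theorem Ctx.l23 (h : Ctx V T P x) {m u v : α} (A : Loose T P m u v) : Loose T P m v u :=
  ⟨h.s23 A.t, A.c2, A.c1, fun r t => A.c3 r (h.s12 t), A.p2, A.p1, fun p => A.p3 (h.ps p)⟩

theorem Ctx.lc1 (h : Ctx V T P x) {m u v : α} (A : Loose T P m u v) : Loose T P u v m :=
  h.l23 (h.l12 A)

theorem Ctx.lc2 (h : Ctx V T P x) {m u v : α} (A : Loose T P m u v) : Loose T P v m u :=
  h.l12 (h.l23 A)

theorem Ctx.l13 (h : Ctx V T P x) {m u v : α} (A : Loose T P m u v) : Loose T P v u m :=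
  h.l12 (h.lc1 A)

theorem BL.sw {m u v d e : α} (b : BL T x m u v d e) : BL T x u m v d e :=
  ⟨b.t, b.du, b.dm, b.eu, b.em, by rw [cr_l]; exact b.cd, by rw [cr_l]; exact b.ce⟩

theorem Ctx.bsw (h : Ctx V T P x) {m u v d e : α} (b : BL T x m u v d e) : BL T x m u v e d :=
  ⟨h.s23 b.t, b.em, b.eu, b.dm, b.du, b.ce, b.cd⟩

/-- A triple through `v` other than `muv` avoids `m` and `u`. -/
theorem Ctx.link_ne (h : Ctx V T P x) {m u v p q : α} (A : Loose T P m u v) (t : T v p q)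
    (h1 : p ≠ m) (h2 : p ≠ u) : q ≠ m ∧ q ≠ u := by
  constructor <;> rintro rfl
  · exact h2 (A.c2 p (h.c2 t))
  · exact h1 (A.c3 p (h.c2 t))

theorem Ctx.mkBL (h : Ctx V T P x) {m u v d e : α} (A : Loose T P m u v) (t : T v d e)
    (h1 : d ≠ m) (h2 : d ≠ u) (c : cr x m u v d = 1) : BL T x m u v d e := by
  obtain ⟨h3, h4⟩ := h.link_ne A t h1 h2
  obtain ⟨n1, n2, n3⟩ := h.nes t
  refine ⟨t, h1, h2, h3, h4, c, ?_⟩
  rw [cr_add_r x m u v d e, c, h.tt A.t (h.c1 t) h1.symm h3.symm (h.ne2 A.t) h2.symm h4.symm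
    (h.ne3 A.t) n1 n2, add_zero]

theorem Ctx.loose_blocked (h : Ctx V T P x) {m u v : α} (A : Loose T P m u v) :
    Blocked x (Ob T P) m u :=
  h.max m u v x A.t A.p1 (fun ⟨c, c', h1, h2, h3⟩ _ =>
    absurd ((A.c2 c h2).trans (A.c2 c' h3).symm) h1) h.tour h.lin

theorem Ctx.exBL (h : Ctx V T P x) {m u v : α} (A : Loose T P m u v) :
    ∃ d e, BL T x m u v d e := by
  obtain ⟨d, r, o, h1, h2, h3, h4, h5, h6, -⟩ := h.blocker A.t (h.loose_blocked A)
  obtain ⟨e, t⟩ : ∃ e, T v d e := by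
    rcases o with t | ⟨p, -⟩ | ⟨e, -⟩
    · exact ⟨r, t⟩
    · exact h.pT p
    · exact absurd e.symm h3
  exact ⟨d, e, h.mkBL A t h1 h2 h6⟩

theorem Ctx.S1 (h : Ctx V T P x) {m u v f f' d d' y q : α} (A : Loose T P m u v)
    (bu : BL T x m v u f f') (bv : BL T x m u v d d') (c : cr x v d u y = 1) (t : T y f q)
    (yv : y ≠ v) (yd : y ≠ d) (yd' : y ≠ d') (qv : q ≠ v) (fd : f ≠ d) (fd' : f ≠ d') :
    d = q ∨ d = f' := by
  have a1 := h.tt bv.t t
  have a2 := h.tt bv.t bu.t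
  have a3 := cr_add_r x v d u y f
  have := h.nes A.t
  have := bu.du
  have := bu.eu
  have := bv.du
  have := bv.eu
  have := z2_ne
  grind

theorem Ctx.noU (h : Ctx V T P x) {m : α} (u v d d' y q : α) (A : Loose T P m u v)
    (bv : BL T x m u v d d') (c1 : cr x v d u y = 1) (c1' : cr x v d' u y = 1) (h1 : y ≠ m)
    (h2 : y ≠ v) (h3 : y ≠ d) (h4 : y ≠ d') : ¬ T y u q := by
  intro t
  have a1 := h.tt bv.t (h.s12 t)
  have a2 := h.tt (h.s23 bv.t) (h.s12 t)
  have a3 := A.c3 y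
  have a4 := h.c1 t
  have := h.nes A.t
  have := h.nes bv.t
  have := bv.du
  have := bv.eu
  have := z2_ne
  grind +splitImp

theorem common_pt (hx : Tour x) {m u v e y : α} (n1 : m ≠ u) (n2 : m ≠ v) (n3 : u ≠ v)
    (h1 : cr x m v u e = 1) (h2 : cr x m u v e = 1) (h3 : cr x v e u y = 1) (h4 : cr x u e v y = 1)
    (e1 : e ≠ m) (e2 : e ≠ u) (e3 : e ≠ v) (y1 : y ≠ u) (y2 : y ≠ v) (y3 : y ≠ e) :
    cr x u v m y = 0 ∧ cr x u v e y = 1 := by
  have := hx m u n1
  have := hx m v n2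
  have := hx u v n3
  have := hx e m e1
  have := hx e u e2
  have := hx e v e3
  have := hx y u y1
  have := hx y v y2
  have := hx y e y3
  unfold cr at *
  grind

theorem Ctx.half (h : Ctx V T P x) {m : α} (u v f f' d d' y q : α) (A : Loose T P m u v)
    (bu : BL T x m v u f f') (bv : BL T x m u v d d') (c1 : cr x v d u y = 1)
    (c1' : cr x v d' u y = 1) (c2 : cr x u f v y = 1) (c2' : cr x u f' v y = 1)
    (y1 : y ≠ m) (y2 : y ≠ u) (y3 : y ≠ v) (y4 : y ≠ f') (y5 : y ≠ d) (y6 : y ≠ d') (q2 : q ≠ v)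
    (q1 : q ≠ u) : ¬ T y f q := by
  intro t
  obtain ⟨n1, n2, n3⟩ := h.nes A.t
  obtain ⟨k1, k2, k3⟩ := h.nes bu.t
  obtain ⟨l1, l2, l3⟩ := h.nes bv.t
  obtain ⟨j1, j2, j3⟩ := h.nes t
  have b1 := bu.dm
  have b2 := bu.du
  have a1 := h.tt (h.c1 A.t) (h.s12 t) k1 y2.symm q1.symm b2.symm y3.symm q2.symm b1.symm y1.symm
  have notc : cr x m u v f = 1 → cr x v f u y = 1 → False := fun e1 e2 => by
    have := (common_pt h.tour n1 n2 n3 bu.cd e1 e2 c2 b1 k1.symm b2 y2 y3 j1).2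
    rw [a1] at this
    exact z2_ne this
  have fd : f ≠ d := by rintro rfl; exact notc bv.cd c1
  have fd' : f ≠ d' := by rintro rfl; exact notc bv.ce c1'
  have fin : ∀ d, BL T x m u v d f' → cr x v f' u y = 1 → T y f d → False := by
    intro d bv c t
    have e1 := (common_pt h.tour n1 n2 n3 bu.ce bv.ce c c2' bu.em k2.symm bu.eu y2 y3 y4).1
    have l1 := h.ne1 bv.t
    have e2 := h.tt (h.s23 A.t) (h.s12 t) b1.symm y1.symm bv.dm.symm b2.symm y3.symm l1 k1 y2.symm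
    have e3 := h.tt A.t (h.c2 t) bv.dm.symm y1.symm b1.symm bv.du.symm y2.symm k1 l1 y3.symm
    have e4 := cr_add_r x m v u f y
    have e5 := cr_add_r x m u v d y
    have e6 := bu.cd
    have e7 := bv.cd
    have hx := h.tour
    have := hx m u n1
    have := hx m v n2
    have := hx u v n3
    unfold cr at *
    grind
  have s1 := h.S1 A bu bv c1 t y3 y5 y6 q2 fd fd'
  have s2 := h.S1 A bu (h.bsw bv) c1' t y3 y6 y5 q2 fd' fd
  rcases s1 with rfl | rfl
  · rcases s2 with rfl | rfl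
    · exact l3 rfl
    · exact fin d bv c1' t
  · rcases s2 with rfl | rfl
    · exact fin d' (h.bsw bv) c1 t
    · exact l3 rfl

theorem Ctx.Fgen (h : Ctx V T P x) {m u v f f' d d' : α} (A : Loose T P m u v)
    (bu : BL T x m v u f f') (bv : BL T x m u v d d') {p q : α} (t : T m p q) (pu : p ≠ u)
    (pv : p ≠ v) : p = f ∨ p = f' ∨ p = d ∨ p = d' ∨ q = f ∨ q = f' ∨ q = d ∨ q = d' := by
  obtain ⟨n1, n2, n3⟩ := h.nes A.t
  obtain ⟨X, hX⟩ : ∃ X : α → Prop, ∀ w, X w ↔ (w = u ∨ w = v ∨ w = f ∨ w = f' ∨ w = d ∨ w = d') :=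
    ⟨_, fun _ => Iff.rfl⟩
  set R : α → α → Prop := fun p q => ∃ r, T p q r ∧ ¬ X p ∧ ¬ X q ∧ ¬ X r with hR
  have mX : ¬ X m := by
    have := bu.dm; have := bu.em; have := bv.dm; have := bv.em
    simp only [hX]; grind
  have out : ∀ y, ReflTransGen R m y → ¬ X y := fun y hy => by
    rcases reach_last hy with rfl | ⟨q, r, h⟩
    · exact mX
    · exact h.2.2.1
  have cc : ∀ s s' g g', X s → X g → X g' → s ≠ m → s ≠ s' → BL T x m s' s g g' → ∀ y,
      ReflTransGen R m y → cr x s g s' y = 1 := by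
    intro s s' g g' h1 h2 h3 h4 h5 b y hy
    have a1 : cr x s g m y = 0 := by
      refine cr_reach hy ?_
      rintro p q - ⟨r, t', i1, i2, i3⟩
      exact h.tt b.t t' (fun e => i1 (e ▸ h1)) (fun e => i2 (e ▸ h1)) (fun e => i3 (e ▸ h1))
        (fun e => i1 (e ▸ h2)) (fun e => i2 (e ▸ h2)) (fun e => i3 (e ▸ h2))
        (fun e => i1 (e ▸ h3)) (fun e => i2 (e ▸ h3))
    rw [cr_add_r x s g s' m y, a1, add_zero, h.tour.swap h5 h4 b.du b.dm, cr_l]
    exact b.cd
  have c1 := cc v u d d' (by simp [hX]) (by simp [hX]) (by simp [hX]) n2.symm n3.symm bv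
  have c1' := cc v u d' d (by simp [hX]) (by simp [hX]) (by simp [hX]) n2.symm n3.symm (h.bsw bv)
  have c2 := cc u v f f' (by simp [hX]) (by simp [hX]) (by simp [hX]) n1.symm n3 bu
  have c2' := cc u v f' f (by simp [hX]) (by simp [hX]) (by simp [hX]) n1.symm n3 (h.bsw bu)
  have step : ∀ y q r, T y q r → ReflTransGen R m y → y ≠ m → R y q := by
    intro y q r t hy hym
    have o := out y hy
    obtain ⟨yu, yv, yf, yf', yd, yd'⟩ : y ≠ u ∧ y ≠ v ∧ y ≠ f ∧ y ≠ f' ∧ y ≠ d ∧ y ≠ d' := by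
      simpa only [hX, not_or] using o
    have uv : ∀ q r, T y q r → q ≠ u ∧ q ≠ v := fun q r t => by
      constructor <;> rintro rfl
      · exact h.noU q v d d' y r A bv (c1 y hy) (c1' y hy) hym yv yd yd' t
      · exact h.noU q u f f' y r (h.l23 A) bu (c2 y hy) (c2' y hy) hym yu yf yf' t
    have last : ∀ q r, T y q r → ¬ X q := by
      intro q r t
      obtain ⟨r1, r2⟩ := uv r q (h.s23 t)
      rw [hX]
      rintro (rfl | rfl | rfl | rfl | rfl | rfl)
      · exact (uv q r t).1 rfl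
      · exact (uv q r t).2 rfl
      · exact h.half u v q f' d d' y r A bu bv (c1 y hy) (c1' y hy) (c2 y hy) (c2' y hy) hym yu yv
          yf' yd yd' r2 r1 t
      · exact h.half u v q f d d' y r A (h.bsw bu) bv (c1 y hy) (c1' y hy) (c2' y hy) (c2 y hy)
          hym yu yv yf yd yd' r2 r1 t
      · exact h.half v u q d' f f' y r (h.l23 A) bv bu (c2 y hy) (c2' y hy) (c1 y hy) (c1' y hy)
          hym yv yu yd' yf yf' r1 r2 t
      · exact h.half v u q d f f' y r (h.l23 A) (h.bsw bv) bu (c2 y hy) (c2' y hy) (c1' y hy)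
          (c1 y hy) hym yv yu yd yf yf' r1 r2 t
    exact ⟨r, t, o, last q r t, last r q (h.s23 t)⟩
  by_contra hn
  obtain ⟨qu, qv⟩ := h.link_ne (h.lc1 A) t pu pv
  have hp : R m p := ⟨q, t, mX, by simp only [hX]; grind, by simp only [hX]; grind⟩
  have := h.nocut m (h.mem t) (fun p => ReflTransGen R m p ∧ p ≠ m) (fun p h => h.2)
    (fun p q r t hp hq => ⟨hp.1.tail (step p q r t hp.1 hp.2), hq⟩) p (h.mem2 t)
    ⟨ReflTransGen.single hp, (h.ne1 t).symm⟩ u (h.mem2 A.t) n1.symm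
  exact out u this.1 ((hX u).2 (Or.inl rfl))

/-- A link at `m` meeting the link at `u` outside the link at `v`. -/
theorem Ctx.S1m (h : Ctx V T P x) {m u v f f' d d' q : α} (A : Loose T P m u v)
    (bu : BL T x m v u f f') (bv : BL T x m u v d d') (t : T m f q) (fd : f ≠ d) (fd' : f ≠ d') :
    (d = q ∧ d' = f') ∨ (d = f' ∧ d' = q) := by
  obtain ⟨n1, n2, n3⟩ := h.nes A.t
  obtain ⟨-, qv⟩ := h.link_ne (h.lc1 A) t (h.ne1 bu.t).symm bu.du
  have c : ∀ d d', BL T x m u v d d' → cr x v d u m = 1 := fun d d' b => by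
    rw [h.tour.swap n3.symm n2.symm b.du b.dm, cr_l]; exact b.cd
  have s1 := h.S1 A bu bv (c _ _ bv) t n2 bv.dm.symm bv.em.symm qv fd fd'
  have s2 := h.S1 A bu (h.bsw bv) (c _ _ (h.bsw bv)) t n2 bv.em.symm bv.dm.symm qv fd' fd
  have := h.ne3 bv.t
  grind

theorem Ctx.F1 (h : Ctx V T P x) {m u v f f' d d' : α} (A : Loose T P m u v)
    (bu : BL T x m v u f f') (bv : BL T x m u v d d') : f = d ∨ f = d' ∨ f' = d ∨ f' = d' := by
  obtain ⟨p, q, bm⟩ := h.exBL (h.lc1 A)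
  by_contra hn
  have one : ∀ p q, T m p q → p ≠ f ∧ p ≠ f' ∧ p ≠ d ∧ p ≠ d' := by
    intro p q t
    refine ⟨?_, ?_, ?_, ?_⟩ <;> rintro rfl
    · have := h.S1m A bu bv t; grind
    · have := h.S1m A (h.bsw bu) bv t; grind
    · have := h.S1m (h.l23 A) bv bu t; grind
    · have := h.S1m (h.l23 A) (h.bsw bv) bu t; grind
  have := h.Fgen A bu bv bm.t bm.dm bm.du
  have := one p q bm.t
  have := one q p (h.s23 bm.t)
  grind

theorem Ctx.F2 (h : Ctx V T P x) {m u v e f d : α} (A : Loose T P m u v)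
    (bu : BL T x m v u e f) (bv : BL T x m u v e d) (fd : f ≠ d) {p q : α} (t : T m p q)
    (pu : p ≠ u) (pv : p ≠ v) : p = e ∨ q = e ∨ (p = f ∧ q = d) ∨ (p = d ∧ q = f) := by
  have n1 := h.ne3 bu.t
  have n2 := h.ne3 bv.t
  have one : ∀ p q, T m p q → (p = f → q = e ∨ q = d) ∧ (p = d → q = e ∨ q = f) := by
    intro p q t
    constructor <;> rintro rfl
    · have := h.S1m A (h.bsw bu) bv t; grind
    · have := h.S1m (h.l23 A) (h.bsw bv) bu t; grind
  have := h.Fgen A bu bv t pu pv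
  have := one p q t
  have := one q p (h.s23 t)
  grind

theorem Ctx.F3 (h : Ctx V T P x) {m u v d e : α} (A : Loose T P m u v)
    (bu : BL T x m v u d e) (bv : BL T x m u v d e) {p q : α} (t : T m p q)
    (pu : p ≠ u) (pv : p ≠ v) : (p = d ∧ q = e) ∨ (p = e ∧ q = d) := by
  obtain ⟨n1, n2, n3⟩ := h.nes A.t
  have one : ∀ d e r, BL T x m v u d e → BL T x m u v d e → T m e r → r = d := by
    intro d e r bu bv t
    by_contra hr
    obtain ⟨k1, k2, k3⟩ := h.nes bu.t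
    obtain ⟨l1, l2, -⟩ := h.nes bv.t
    obtain ⟨j1, j2, j3⟩ := h.nes t
    obtain ⟨ru, rv⟩ := h.link_ne (h.lc1 A) t k2.symm l2.symm
    have a1 := h.tt (h.s23 t) bu.t n1 bu.dm.symm j1 ru hr j3.symm k2.symm k3.symm
    have a2 := h.tt (h.s23 t) bv.t n2 bu.dm.symm j1 rv hr j3.symm l2.symm k3.symm
    have a3 := h.tt (h.c1 A.t) (h.c1 t) k2 ru.symm n1.symm l2 rv.symm n2.symm j1 j2
    have a4 := bu.ce
    have a5 := bv.ce
    have hx := h.tour
    have := hx m u n1
    have := hx m v n2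
    have := hx u v n3
    have := hx r u ru
    have := hx r v rv
    unfold cr at *
    grind
  have := h.Fgen A bu bv t pu pv
  have := h.s23 t
  have := one d e q bu bv
  have := one d e p bu bv
  have := one e d q (h.bsw bu) (h.bsw bv)
  have := one e d p (h.bsw bu) (h.bsw bv)
  grind

end Pool.Agent.Lib.MP_c59a20_lc
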