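import Pool.Agent.Lib.MP_c59a20_lc.Flip

/-!
A loose triple all of whose links at two points pass through a common point: the case of an
exceptional link at the third point.
-/

namespace Pool.Agent.Lib.MP_c59a20_lc

variable {α : Type} {V : Finset α} {T : α → α → α → Prop} {P : α → α → Prop}
  {x : α → α → ZMod 2}

open Relation

/-- All links at `u` and `v` pass through `e`. -/
structure Star (T : α → α → α → Prop) (x : α → α → ZMod 2) (m u v e : α) : Prop where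
  em : e ≠ m
  eu : e ≠ u
  ev : e ≠ v
  ca : cr x u v m e = 1
  cb : cr x m v u e = 1
  cc : cr x m u v e = 1
  Lu : ∀ p q, T u p q → p ≠ m → p ≠ v → p = e ∨ q = e
  Lv : ∀ p q, T v p q → p ≠ m → p ≠ u → p = e ∨ q = e
  duv : ∀ w, T u e w → ¬ T v e w
  dmu : ∀ w, T m e w → ¬ T u e w
  dmv : ∀ w, T m e w → ¬ T v e w

theorem Star.sw {m u v e : α} (S : Star T x m u v e) : Star T x m v u e :=
  ⟨S.em, S.ev, S.eu, by rw [cr_l]; exact S.ca, S.cc, S.cb, S.Lv, S.Lu,
    fun w h h' => S.duv w h' h, S.dmv, S.dmu⟩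

theorem Ctx.Hu (h : Ctx V T P x) {m u v e : α} (A : Loose T P m u v) (S : Star T x m u v e)
    {U : α → Prop} (hU : ∀ f, T u e f → U f ∧ ¬ P u f) :
    ∀ b c, Ob T P u b c → b ≠ v → c ≠ v → b ≠ u → (b = e ∨ c = e) ∧ (b = e ∨ U b) := by
  intro b c o h1 h2 h3
  obtain ⟨a1, r, t, a2⟩ := h.obAt A o h3 h2
  rcases S.Lu b r t a1 h1 with rfl | rfl
  · exact ⟨Or.inl rfl, Or.inl rfl⟩
  · have := hU b (h.s23 t)
    grind

/-- Reachable sets that can only be entered through their root are trivial. -/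
theorem Ctx.root (h : Ctx V T P x) (X : α → Prop) {f u : α} (hu : X u) (huV : u ∈ V) (hf : ¬ X f)
    (step : ∀ y q r, ReflTransGen (fun p q => ∃ r, T p q r ∧ ¬ X p ∧ ¬ X q ∧ ¬ X r) f y → ¬ X y →
      y ≠ f → T y q r → ¬ X q) {p q : α} (t : T f p q) : X p ∨ X q := by
  by_contra hn
  have out : ∀ y, ReflTransGen (fun p q => ∃ r, T p q r ∧ ¬ X p ∧ ¬ X q ∧ ¬ X r) f y → ¬ X y :=
    fun y hy => by
      rcases reach_last hy with rfl | ⟨q, r, h⟩
      · exact hf
      · exact h.2.2.1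
  have := h.nocut f (h.mem t)
    (fun p => ReflTransGen (fun p q => ∃ r, T p q r ∧ ¬ X p ∧ ¬ X q ∧ ¬ X r) f p ∧ p ≠ f)
    (fun p h => h.2) (fun p q r t hp hq => ⟨hp.1.tail ⟨r, t, out p hp.1,
      step p q r hp.1 (out p hp.1) hp.2 t, step p r q hp.1 (out p hp.1) hp.2 (h.s23 t)⟩, hq⟩) p
    (h.mem2 t) ⟨ReflTransGen.single ⟨q, t, hf, fun e => hn (Or.inl e), fun e => hn (Or.inr e)⟩,
      (h.ne1 t).symm⟩ u huV (fun e => hf (e ▸ hu))
  exact out u this.1 hu

theorem Ctx.walk (h : Ctx V T P x) (X : α → Prop) {a b c f y : α} (t : T a b c) (ha : X a)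
    (hb : X b) (hc : X c)
    (hy : ReflTransGen (fun p q => ∃ r, T p q r ∧ ¬ X p ∧ ¬ X q ∧ ¬ X r) f y) :
    cr x a b f y = 0 := by
  refine cr_reach hy ?_
  rintro p q - ⟨r, t', i1, i2, i3⟩
  exact h.tt t t' (fun e => i1 (e ▸ ha)) (fun e => i2 (e ▸ ha)) (fun e => i3 (e ▸ ha))
    (fun e => i1 (e ▸ hb)) (fun e => i2 (e ▸ hb)) (fun e => i3 (e ▸ hb))
    (fun e => i1 (e ▸ hc)) (fun e => i2 (e ▸ hc))

theorem Ctx.factsB (h : Ctx V T P x) {m u v e f d : α} (A : Loose T P m u v)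
    (S : Star T x m u v e) (tu : T u e f) (tv : T v e d) (tm : T m f d) :
    (f ≠ m ∧ f ≠ v ∧ d ≠ m ∧ d ≠ u ∧ f ≠ d) ∧ cr x m f v d = 1 ∧ cr x u f v e = 1 ∧
      cr x v d e f = 1 ∧ cr x m e f d = 1 ∧ cr x v d e m = 0 := by
  obtain ⟨n1, n2, n3⟩ := h.nes A.t
  obtain ⟨k1, k2, k3⟩ := h.nes tu
  obtain ⟨l1, l2, l3⟩ := h.nes tv
  obtain ⟨j1, j2, j3⟩ := h.nes tm
  obtain ⟨fm, fv⟩ := h.link_ne (h.l23 A) tu S.em S.ev
  obtain ⟨dm, du⟩ := h.link_ne A tv S.em S.eu
  have em := S.em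
  have g1 := h.tt (h.s23 A.t) (h.c1 tu) em.symm j1 n1 l1 fv.symm n3.symm k1 k2
  have g2 := h.tt A.t (h.c1 tv) em.symm j2 n2 k1 du.symm n3 l1 l2
  have g3 := h.tt tu (h.s23 tm) n1.symm du.symm k2 em l3 k3 fm j3
  have g4 := h.tt tv tm n2.symm fv.symm l2 em k3 l3 dm j3.symm
  have g5 := h.tt (h.s23 tu) (h.s23 tv) n3 du.symm k1 fv j3 k3.symm l1.symm l3
  have cb := S.cb
  have cc := S.cc
  have hx := h.tour
  have := hx m u n1
  have := hx m v n2
  have := hx u v n3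
  have := hx e m em
  have := hx u e k1
  have := hx u f k2
  have := hx e f k3
  have := hx v e l1
  have := hx v d l2
  have := hx e d l3
  have := hx m f j1
  have := hx m d j2
  have := hx f d j3
  have := hx f v fv
  have := hx d u du
  refine ⟨⟨fm, fv, dm, du, j3⟩, ?_⟩
  unfold cr at *
  grind

theorem Ctx.B0 (h : Ctx V T P x) {m u v e f d y r : α} (A : Loose T P m u v)
    (S : Star T x m u v e) (tv : T v e d) (tm : T m f d) (fe : f ≠ e) (t : T e y r) (ym : y ≠ m)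
    (yu : y ≠ u) (yv : y ≠ v) (yd : y ≠ d) (yf : y ≠ f) (rm : r ≠ m) (rv : r ≠ v) (rd : r ≠ d) :
    cr x v d e y = 0 := by
  have a1 := h.tt (h.s23 A.t) t S.em.symm ym.symm rm.symm S.ev.symm yv.symm rv.symm S.eu.symm
    yu.symm
  have a2 := h.tt (h.s23 tm) t S.em.symm ym.symm rm.symm (h.ne3 tv).symm yd.symm rd.symm fe yf.symm
  rw [cr_add_l x v m d, cr_l, a1, a2, add_zero]

theorem Ctx.B1 (h : Ctx V T P x) {m u v e f d r : α} (A : Loose T P m u v)
    (S : Star T x m u v e) (tu : T u e f) (tv : T v e d) (tm : T m f d) (t : T f e r) :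
    r = u ∨ r = d := by
  by_contra hn
  obtain ⟨ru, rd⟩ : r ≠ u ∧ r ≠ d := not_or.1 hn
  obtain ⟨⟨fm, fv, dm, du, fd⟩, -, -, c, -, -⟩ := h.factsB A S tu tv tm
  have rv : r ≠ v := by rintro rfl; exact S.duv f tu (h.s13 t)
  have rm : r ≠ m := by rintro rfl; exact S.dmu f (h.s13 t) tu
  obtain ⟨k1, k2, k3⟩ := h.nes t
  have a1 := h.B0 A S tv tm k1 (h.c1 t) rm ru rv rd k2.symm fm fv fd
  have a2 := h.tt (h.s23 tv) (h.c2 t) rv.symm fv.symm S.ev.symm rd.symm fd.symm (h.ne3 tv).symm k3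
    k1.symm
  rw [cr_add_r x v d e r f, a1, a2, add_zero] at c
  exact z2_ne c

theorem Ctx.caseB_HU (h : Ctx V T P x) {m u v e f d : α} (A : Loose T P m u v)
    (S : Star T x m u v e) (tu : T u e f) (tv : T v e d) (tm : T m f d)
    (Nu : ∀ w, T u e w → w = f) (Nv : ∀ w, T v e w → w = d)
    (Lm : ∀ p q, T m p q → p ≠ u → p ≠ v → p = e ∨ q = e ∨ (p = f ∧ q = d) ∨ (p = d ∧ q = f)) :
    ¬ P u f ∧ ∀ p r, Ob T P f p r → p ≠ f → d ≠ p → d ≠ r → (p = e ∨ r = e) ∧ (p = e ∨ p = u) := by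
  obtain ⟨⟨fm, fv, dm, du, fd⟩, c1, c2, c3, c4, c5⟩ := h.factsB A S tu tv tm
  obtain ⟨n1, n2, n3⟩ := h.nes A.t
  obtain ⟨k1, k2, k3⟩ := h.nes tu
  obtain ⟨l1, l2, l3⟩ := h.nes tv
  have em := S.em
  have npu : ¬ P u f := fun p => by
    rw [h.pt p tv n3 k1 du.symm fv k3.symm fd] at c2
    exact z2_ne c2
  refine ⟨npu, ?_⟩
  obtain ⟨X, hX⟩ : ∃ X : α → Prop, ∀ w, X w ↔ (w = m ∨ w = u ∨ w = v ∨ w = d ∨ w = e) :=
    ⟨_, fun _ => Iff.rfl⟩
  have Xm : X m := by simp [hX]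
  have Xu : X u := by simp [hX]
  have Xv : X v := by simp [hX]
  have Xd : X d := by simp [hX]
  have Xe : X e := by simp [hX]
  have root : ∀ p q, T f p q → X p ∨ X q := by
    intro p q t
    refine h.root X Xu (h.mem tu) (by rw [hX]; grind) ?_ t
    intro y q r hy oy yf t
    obtain ⟨ym, yu, yv, yd, ye⟩ : y ≠ m ∧ y ≠ u ∧ y ≠ v ∧ y ≠ d ∧ y ≠ e := by
      simpa only [hX, not_or] using oy
    have th : cr x v d e y = 1 := by
      rw [cr_add_r x v d e f y, c3, h.walk X (h.s23 tv) Xv Xd Xe hy, add_zero]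
    have et : cr x m e f y = 0 := by
      rw [cr_add_l x m v e, h.walk X (h.s23 A.t) Xm Xv Xu hy, h.walk X tv Xv Xe Xd hy, add_zero]
    have uvm : ∀ q r, T y q r → q ≠ u ∧ q ≠ v ∧ q ≠ m := by
      intro q r t
      refine ⟨?_, ?_, ?_⟩ <;> rintro rfl
      · rcases S.Lu y r (h.s12 t) ym yv with rfl | rfl
        · exact ye rfl
        · exact yf (Nu y (h.c1 t))
      · rcases S.Lv y r (h.s12 t) ym yu with rfl | rfl
        · exact ye rfl
        · exact yd (Nv y (h.c1 t))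
      · have re : r = e := by
          have := Lm y r (h.s12 t) yu yv
          grind
        subst re
        have a := h.tt (h.s23 tv) (h.s12 t) n2.symm yv.symm l1 dm yd.symm l3.symm em ye.symm
        rw [cr_add_r x v d r q y, c5, a, add_zero] at th
        exact z2_ne th
    have ne : ∀ q r, T y q r → q ≠ e := by
      intro q r t
      rintro rfl
      obtain ⟨ru, rv, rm⟩ := uvm r q (h.s23 t)
      by_cases rd : r = d
      · subst rd
        have := h.B1 (h.l23 A) S.sw tv tu (h.s23 tm) (h.s13 t)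
        grind
      · rw [h.B0 A S tv tm k3.symm (h.s12 t) ym yu yv yd yf rm rv rd] at th
        exact z2_ne th
    obtain ⟨qu, qv, qm⟩ := uvm q r t
    obtain ⟨ru, rv, rm⟩ := uvm r q (h.s23 t)
    have qe := ne q r t
    have re := ne r q (h.s23 t)
    have qd : q ≠ d := by
      rintro rfl
      have a1 := h.tt A.t t ym.symm qm.symm rm.symm yu.symm qu.symm ru.symm yv.symm qv.symm
      have a2 := h.tt tu t yu.symm qu.symm ru.symm ye.symm qe.symm re.symm yf.symm fd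
      rw [cr_add_r x m e f y q, et, cr_add_l x m u e, a1, a2] at c4
      simp at c4
    rw [hX]; grind
  have B2 : ∀ p r, T f p r → d ≠ p → d ≠ r → (p = u ∧ r = e) ∨ (p = e ∧ r = u) := by
    have one : ∀ p r, T f p r → d ≠ p → d ≠ r → X p → (p = u ∧ r = e) ∨ (p = e ∧ r = u) := by
      intro p r t h1 h2 hp
      rcases (hX p).1 hp with rfl | rfl | rfl | rfl | rfl
      · have := Lm f r (h.s12 t) k2.symm fv
        have := S.dmu f
        have := h.c1 t
        grind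
      · have := S.Lu f r (h.s12 t) fm fv
        grind
      · have := S.Lv f r (h.s12 t) fm k2.symm
        have := S.duv f tu
        have := h.c1 t
        grind
      · exact absurd rfl h1
      · have := h.B1 A S tu tv tm t
        grind
    intro p r t h1 h2
    rcases root p r t with hp | hp
    · exact one p r t h1 h2 hp
    · have := one r p (h.s23 t) h2 h1 hp
      grind
  intro p r o pf dp dr
  rcases o with t | ⟨pp, -⟩ | ⟨e, -⟩
  · have := B2 p r t dp dr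
    grind
  · suffices hs : p = e from ⟨Or.inl hs, Or.inl hs⟩
    by_contra pe
    obtain ⟨s, t⟩ := h.pT pp
    have pu : p ≠ u := by rintro rfl; exact npu (h.ps pp)
    by_cases ds : d = s
    · subst ds
      have pm : p ≠ m := by
        rintro rfl
        rw [h.pt (h.ps pp) (h.s23 tv) n2 dm.symm em.symm fv fd k3.symm] at c1
        exact z2_ne c1
      have pv : p ≠ v := by
        rintro rfl
        have := S.Lv f d (h.s12 t) fm k2.symm
        grind
      have a1 := h.tt tu (h.s13 t) du.symm pu.symm k2 l3 (Ne.symm pe) k3 fd pf.symm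
      have a2 := h.tt tv t fv.symm pv.symm l2 k3 (Ne.symm pe) l3 fd.symm dp
      have a3 := h.tt A.t (h.s13 t) dm.symm pm.symm fm.symm du.symm pu.symm k2 l2 pv.symm
      have a4 := h.tt (h.s23 A.t) t fm.symm pm.symm dm.symm fv.symm pv.symm l2 k2 pu.symm
      unfold cr at a1 a2 a3 a4 c4
      grind
    · have := B2 p s t dp ds
      grind
  · exact absurd e.symm pf

theorem Ctx.caseB (h : Ctx V T P x) {m u v e f d : α} (A : Loose T P m u v)
    (S : Star T x m u v e) (tu : T u e f) (tv : T v e d) (tm : T m f d)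
    (Nu : ∀ w, T u e w → w = f) (Nv : ∀ w, T v e w → w = d)
    (Lm : ∀ p q, T m p q → p ≠ u → p ≠ v → p = e ∨ q = e ∨ (p = f ∧ q = d) ∨ (p = d ∧ q = f)) :
    False := by
  obtain ⟨a1, a2⟩ := h.caseB_HU A S tu tv tm Nu Nv Lm
  obtain ⟨b1, b2⟩ := h.caseB_HU (h.l23 A) S.sw tv tu (h.s23 tm) Nv Nu (fun p q t h1 h2 => by
    have := Lm p q t h2 h1
    tauto)
  obtain ⟨⟨fm, fv, dm, du, fd⟩, -⟩ := h.factsB A S tu tv tm
  refine h.VL A (· = f) (· = d) S.cc S.ev fm.symm (h.ne2 tu) fv.symm (h.ne3 tu) (h.ne2 tv)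
    (h.ne3 tv) (h.Hu A S fun w t => ?_) (h.Hu (h.l23 A) S.sw fun w t => ?_) ?_ ?_
  · rw [Nu w t]; exact ⟨rfl, a1⟩
  · rw [Nv w t]; exact ⟨rfl, b1⟩
  · rintro f p r d o rfl h1 rfl h2 h3
    exact a2 p r o h1 h2 h3
  · rintro d p r f o rfl h1 rfl h2 h3
    exact b2 p r o h1 h2 h3

end Pool.Agent.Lib.MP_c59a20_lc
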