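import Pool.Agent.Lib.MP_c59a20_lc.Stage1b

/-!
A loose triple all of whose links pass through a common point.
-/

namespace Pool.Agent.Lib.MP_c59a20_lc

variable {α : Type} {V : Finset α} {T : α → α → α → Prop} {P : α → α → Prop}
  {x : α → α → ZMod 2}

open Relation

/-- All links at `m`, `u` and `v` pass through `e`. -/
structure Star3 (T : α → α → α → Prop) (x : α → α → ZMod 2) (m u v e : α) : Prop
    extends Star T x m u v e where
  Lm : ∀ p q, T m p q → p ≠ u → p ≠ v → p = e ∨ q = e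

theorem Star3.s23 {m u v e : α} (S : Star3 T x m u v e) : Star3 T x m v u e :=
  ⟨S.toStar.sw, fun p q t h1 h2 => S.Lm p q t h2 h1⟩

theorem Star3.s12 {m u v e : α} (S : Star3 T x m u v e) : Star3 T x u m v e :=
  ⟨⟨S.eu, S.em, S.ev, S.cb, S.ca, by rw [cr_l]; exact S.cc, S.Lm,
    fun p q t h1 h2 => S.Lv p q t h2 h1, S.dmv, fun w h h' => S.dmu w h' h, S.duv⟩, S.Lu⟩

theorem Ctx.term (h : Ctx V T P x) {m u v e z f d : α} (A : Loose T P m u v)
    (S : Star3 T x m u v e) (tm : T m e z) (tu : T u e f) (tv : T v e d) :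
    cr x m z f d = 1 ∧ z ≠ u ∧ z ≠ v ∧ z ≠ f ∧ z ≠ d := by
  obtain ⟨n1, n2, n3⟩ := h.nes A.t
  obtain ⟨j1, j2, j3⟩ := h.nes tm
  obtain ⟨zu, zv⟩ := h.link_ne (h.lc1 A) tm S.eu S.ev
  obtain ⟨fm, fv⟩ := h.link_ne (h.l23 A) tu S.em S.ev
  obtain ⟨dm, du⟩ := h.link_ne A tv S.em S.eu
  have zf : z ≠ f := by rintro rfl; exact S.dmu z tm tu
  have zd : z ≠ d := by rintro rfl; exact S.dmv z tm tv
  refine ⟨?_, zu, zv, zf, zd⟩
  have a1 := h.tt (h.s23 tm) (h.s23 tu) n1 fm.symm j1 zu zf j3.symm S.eu (h.ne3 tu)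
  have a2 := h.tt (h.s23 tm) (h.s23 tv) n2 dm.symm j1 zv zd j3.symm S.ev (h.ne3 tv)
  have a3 := h.tt (h.c1 A.t) (h.c1 tm) S.eu.symm zu.symm n1.symm S.ev.symm zv.symm n2.symm j1 j2
  have a4 := S.ca
  have hx := h.tour
  have := hx m u n1
  have := hx m v n2
  have := hx z u zu
  have := hx z v zv
  unfold cr at *
  grind

theorem Ctx.noPu (h : Ctx V T P x) {m u v e z f d : α} (A : Loose T P m u v)
    (S : Star3 T x m u v e) (tm : T m e z) (tu : T u e f) (tv : T v e d) : ¬ P u f := by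
  intro p
  obtain ⟨n1, n2, n3⟩ := h.nes A.t
  obtain ⟨k1, k2, k3⟩ := h.nes tu
  obtain ⟨-, fm, fv, fz, fd⟩ := h.term (h.l12 A) S.s12 tu tm tv
  obtain ⟨-, zu, -⟩ := h.term A S tm tu tv
  obtain ⟨dm, du⟩ := h.link_ne A tv S.em S.eu
  have a1 := h.pt p tm n1.symm k1 zu.symm fm k3.symm fz
  have a2 := h.pt p tv n3 k1 du.symm fv k3.symm fd
  have a3 := (h.mkBL (h.l23 A) tu S.em S.ev S.cb).ce
  rw [h.tour.swap n1 fm.symm n3.symm fv.symm] at a3
  unfold cr at *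
  grind

/-- Walks away from the loose triple that do not step on `e`. -/
def Away (T : α → α → α → Prop) (m u v e p q : α) : Prop :=
  ∃ r, T p q r ∧ (p ≠ m ∧ p ≠ u ∧ p ≠ v) ∧ (q ≠ m ∧ q ≠ u ∧ q ≠ v) ∧ (r ≠ m ∧ r ≠ u ∧ r ≠ v) ∧
    p ≠ e ∧ q ≠ e

theorem Ctx.nomix (h : Ctx V T P x) {m u v e z f d : α} (A : Loose T P m u v)
    (S : Star3 T x m u v e) (tm : T m e z) (tu : T u e f) (tv : T v e d) (nt : ¬ T f d z) :
    ¬ ReflTransGen (Away T m u v e) f d ∧ ¬ ReflTransGen (Away T m u v e) f z := by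
  obtain ⟨t1, zu, zv, zf, zd⟩ := h.term A S tm tu tv
  obtain ⟨t2, fm, fv, -, fd⟩ := h.term (h.l12 A) S.s12 tu tm tv
  obtain ⟨t3, dm, du, -, -⟩ := h.term (h.lc2 A) S.s23.s12 tv tm tu
  set R' : α → α → Prop := fun p q => ∃ r, T p q r ∧ (p ≠ m ∧ p ≠ u ∧ p ≠ v) ∧
    (q ≠ m ∧ q ≠ u ∧ q ≠ v) ∧ (r ≠ m ∧ r ≠ u ∧ r ≠ v) ∧ p ≠ e ∧ q ≠ e ∧ (p ≠ d ∧ p ≠ z) ∧
    (q ≠ d ∧ q ≠ z) ∧ (r ≠ d ∧ r ≠ z) with hR'
  have out : ∀ p, ReflTransGen R' f p → p ≠ d ∧ p ≠ z := fun p hp => by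
    rcases reach_last hp with rfl | ⟨q, r, h⟩
    · exact ⟨fd, zf.symm⟩
    · exact h.2.2.2.2.2.2.2.1
  have key : ∀ w, ReflTransGen (Away T m u v e) f w → w ≠ d ∧ w ≠ z := by
    intro w hw
    by_contra hn
    obtain ⟨p, q, w1, ⟨r, t, ⟨pm, pu, pv⟩, ⟨qm, qu, qv⟩, ⟨rm, ru, rv⟩, pe, qe⟩, w3⟩ :=
      exit_step (R' := R') hw fun h => hn (out w h)
    obtain ⟨pd, pz⟩ := out p w1
    have s1 : cr x m z f p = 0 := cr_reach w1 (by
      rintro p q - ⟨r, t, ⟨pm, -, -⟩, ⟨qm, -, -⟩, ⟨rm, -, -⟩, pe, qe, ⟨-, pz⟩, ⟨-, qz⟩, -, rz⟩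
      exact h.tt (h.s23 tm) t pm.symm qm.symm rm.symm pz.symm qz.symm rz.symm pe.symm qe.symm)
    have s2 : cr x v d f p = 0 := cr_reach w1 (by
      rintro p q - ⟨r, t, ⟨-, -, pv⟩, ⟨-, -, qv⟩, ⟨-, -, rv⟩, pe, qe, ⟨pd, -⟩, ⟨qd, -⟩, rd, -⟩
      exact h.tt (h.s23 tv) t pv.symm qv.symm rv.symm pd.symm qd.symm rd.symm pe.symm qe.symm)
    have both : ¬ T p d z := by
      intro t
      by_cases pf : p = f
      · exact nt (pf ▸ t)
      · rw [h.tt (h.s23 tu) (h.s13 t) zu.symm du.symm pu.symm zf.symm fd (Ne.symm pf)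
          (h.ne3 tm) (h.ne3 tv)] at t2
        exact z2_ne t2
    have hd : ∀ s, T p d s → s ≠ m → False := by
      intro s t sm
      by_cases sz : s = z
      · exact both (sz ▸ t)
      · rw [cr_add_r x m z f p d, s1, h.tt (h.s23 tm) t pm.symm dm.symm sm.symm pz.symm zd
          (Ne.symm sz) pe.symm (h.ne3 tv), add_zero] at t1
        exact z2_ne t1
    have hz : ∀ s, T p z s → s ≠ v → False := by
      intro s t sv
      by_cases sd : s = d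
      · exact both (h.s23 (sd ▸ t))
      · rw [cr_r, cr_add_r x v d f p z, s2, h.tt (h.s23 tv) t pv.symm zv.symm sv.symm pd.symm
          zd.symm (Ne.symm sd) pe.symm (h.ne3 tm), add_zero] at t3
        exact z2_ne t3
    refine w3 ⟨r, t, ⟨pm, pu, pv⟩, ⟨qm, qu, qv⟩, ⟨rm, ru, rv⟩, pe, qe, ⟨pd, pz⟩, ⟨?_, ?_⟩, ?_, ?_⟩
      <;> rintro rfl
    · exact hd r t rm
    · exact hz r t rv
    · exact hd q (h.s23 t) qm
    · exact hz q (h.s23 t) qv
  exact ⟨fun h => (key d h).1 rfl, fun h => (key z h).2 rfl⟩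

theorem Ctx.caseC2_HU (h : Ctx V T P x) {m u v e z d : α} (A : Loose T P m u v)
    (S : Star3 T x m u v e) (tm : T m e z) (tv : T v e d)
    (nt : ∀ z f d, T m e z → T u e f → T v e d → ¬ T f d z) {U : α → Prop}
    (hU : ∀ w, U w ↔ ∃ f, T u e f ∧ ReflTransGen (Away T m u v e) f w) :
    (∀ w, U w → (w ≠ m ∧ w ≠ u ∧ w ≠ v) ∧ w ≠ e) ∧
    ∀ f p r, Ob T P f p r → U f → ¬ U p → (p = e ∨ r = e) ∧ (p = e ∨ p = u) := by
  have out : ∀ w, U w → (w ≠ m ∧ w ≠ u ∧ w ≠ v) ∧ w ≠ e := fun w hw => by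
    obtain ⟨f, tu, hw⟩ := (hU w).1 hw
    rcases reach_last hw with rfl | ⟨q, r, h⟩
    · obtain ⟨fm, fv⟩ := h.link_ne (h.l23 A) tu S.em S.ev
      exact ⟨⟨fm, (h.ne2 tu).symm, fv⟩, (h.ne3 tu).symm⟩
    · exact ⟨h.2.2.1, h.2.2.2.2.2⟩
  refine ⟨out, ?_⟩
  have tri : ∀ f p r, T f p r → U f → ¬ U p → p = e ∨ (p = u ∧ r = e) := by
    intro f p r t hf hp
    obtain ⟨⟨fm, fu, fv⟩, fe⟩ := out f hf
    obtain ⟨f0, tu, hw⟩ := (hU f).1 hf
    have mv : ∀ p r, T f p r → p ≠ m ∧ p ≠ v := by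
      intro p r t
      constructor <;> rintro rfl
      · rcases S.Lm f r (h.s12 t) fu fv with rfl | rfl
        · exact fe rfl
        · exact (h.nomix A S (h.c1 t) tu tv (nt _ _ _ (h.c1 t) tu tv)).2 hw
      · rcases S.Lv f r (h.s12 t) fm fu with rfl | rfl
        · exact fe rfl
        · exact (h.nomix A S tm tu (h.c1 t) (nt _ _ _ tm tu (h.c1 t))).1 hw
    obtain ⟨pm, pv⟩ := mv p r t
    obtain ⟨rm, rv⟩ := mv r p (h.s23 t)
    by_cases pu : p = u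
    · subst pu
      exact Or.inr ⟨rfl, (S.Lu f r (h.s12 t) fm fv).resolve_left fe⟩
    by_cases ru : r = u
    · subst ru
      exact Or.inl ((S.Lu f p (h.c2 t) fm fv).resolve_left fe)
    by_contra hn
    exact hp ((hU p).2 ⟨f0, tu, hw.tail ⟨r, t, ⟨fm, fu, fv⟩, ⟨pm, pu, pv⟩, ⟨rm, ru, rv⟩, fe,
      fun e => hn (Or.inl e)⟩⟩)
  intro f p r o hf hp
  rcases o with t | ⟨pp, -⟩ | ⟨e, -⟩
  · have := tri f p r t hf hp
    tauto
  · obtain ⟨s, t⟩ := h.pT pp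
    rcases tri f p s t hf hp with e | ⟨rfl, rfl⟩
    · exact ⟨Or.inl e, Or.inl e⟩
    · exact absurd (h.ps pp) (h.noPu A S tm (h.c1 t) tv)
  · exact absurd (e ▸ hf) hp

theorem Ctx.caseC2 (h : Ctx V T P x) {m u v e z f d : α} (A : Loose T P m u v)
    (S : Star3 T x m u v e) (tm : T m e z) (tu : T u e f) (tv : T v e d)
    (nt : ∀ z f d, T m e z → T u e f → T v e d → ¬ T f d z) : False := by
  obtain ⟨a1, a2⟩ := h.caseC2_HU A S tm tv nt (fun _ => Iff.rfl)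
  obtain ⟨b1, b2⟩ := h.caseC2_HU (h.l23 A) S.s23 tm tu
    (fun z d f h1 h2 h3 t => nt z f d h1 h3 h2 (h.s12 t)) (fun _ => Iff.rfl)
  exact h.VL A _ _ S.cc S.ev (fun k => (a1 _ k).1.1 rfl) (fun k => (a1 _ k).1.2.1 rfl)
    (fun k => (a1 _ k).1.2.2 rfl) (fun k => (a1 _ k).2 rfl) (fun k => (b1 _ k).1.2.1 rfl)
    (fun k => (b1 _ k).2 rfl)
    (h.Hu A S.toStar fun w t => ⟨⟨w, t, ReflTransGen.refl⟩, h.noPu A S tm t tv⟩)
    (h.Hu (h.l23 A) S.toStar.sw fun w t => ⟨⟨w, t, ReflTransGen.refl⟩,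
      h.noPu (h.l23 A) S.s23 tm t tu⟩)
    (fun f p r _ o h1 h2 _ _ _ => a2 f p r o h1 h2) (fun f p r _ o h1 h2 _ _ _ => b2 f p r o h1 h2)

theorem Ctx.uniqC1 (h : Ctx V T P x) {m u v e z f d : α} (A : Loose T P m u v)
    (S : Star3 T x m u v e) (tm : T m e z) (tv : T v e d) (tr : T f d z) :
    ∀ w, T u e w → w = f := by
  intro w tw
  by_contra wf
  obtain ⟨t2, -, -, wz, wd⟩ := h.term (h.l12 A) S.s12 tw tm tv
  obtain ⟨-, zu, -⟩ := h.term A S tm tw tv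
  obtain ⟨-, -, du, -, -⟩ := h.term (h.lc2 A) S.s23.s12 tv tm tw
  have fu : u ≠ f := by
    rintro rfl
    obtain ⟨-, dm, -⟩ := h.term (h.lc2 A) S.s23.s12 tv tm tw
    have := S.Lu d z tr dm (h.ne2 tv).symm
    have := h.ne3 tv
    have := h.ne3 tm
    grind
  rw [h.tt (h.s23 tw) (h.s13 tr) zu.symm du.symm fu wz wd wf (h.ne3 tm) (h.ne3 tv)] at t2
  exact z2_ne t2

theorem Ctx.caseC1_HU (h : Ctx V T P x) {m u v e z f d : α} (A : Loose T P m u v)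
    (S : Star3 T x m u v e) (tm : T m e z) (tu : T u e f) (tv : T v e d) (tr : T f d z) :
    ∀ p r, Ob T P f p r → p ≠ f → d ≠ p → d ≠ r → (p = e ∨ r = e) ∧ (p = e ∨ p = u) := by
  obtain ⟨t1, zu, zv, zf, zd⟩ := h.term A S tm tu tv
  obtain ⟨t2, fm, fv, -, fd⟩ := h.term (h.l12 A) S.s12 tu tm tv
  obtain ⟨t3, dm, du, -, -⟩ := h.term (h.lc2 A) S.s23.s12 tv tm tu
  have Nu := h.uniqC1 A S tm tv tr
  have Nv := h.uniqC1 (h.l23 A) S.s23 tm tu (h.s12 tr)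
  have Nm := h.uniqC1 (h.l12 A) S.s12 tu tv (h.s13 tr)
  obtain ⟨n1, n2, n3⟩ := h.nes A.t
  obtain ⟨j1, j2, j3⟩ := h.nes tm
  obtain ⟨k1, k2, k3⟩ := h.nes tu
  obtain ⟨l1, l2, l3⟩ := h.nes tv
  have zeta : cr x m z e f + cr x v d e f = 1 := by
    have a1 := h.tt (h.s23 A.t) (h.c1 tu) j1 fm.symm n1 l1 fv.symm n3.symm k1 k2
    have a2 := h.tt (h.s13 tr) tu zu j3.symm zf du l3.symm fd.symm k2.symm k3.symm
    rw [h.tour.swap zu.symm du.symm zf.symm fd] at t2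
    unfold cr at *
    grind
  obtain ⟨X, hX⟩ : ∃ X : α → Prop, ∀ w, X w ↔ (w = m ∨ w = u ∨ w = v ∨ w = z ∨ w = d ∨ w = e) :=
    ⟨_, fun _ => Iff.rfl⟩
  have Xm : X m := by simp [hX]
  have Xu : X u := by simp [hX]
  have Xv : X v := by simp [hX]
  have Xz : X z := by simp [hX]
  have Xd : X d := by simp [hX]
  have Xe : X e := by simp [hX]
  -- triples at a point with the invariants of `f`
  have loc : ∀ y, y ≠ m → y ≠ u → y ≠ v → y ≠ z → y ≠ d → y ≠ e → cr x m z f y = 0 →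
      cr x v d f y = 0 → ∀ q r, T y q r → q ≠ m ∧ q ≠ v ∧ (q = u → r = e ∧ y = f) ∧
        (q = z → r = d ∧ y = f) ∧ (q = d → r = z ∧ y = f) := by
    intro y ym yu yv yz yd ye w1 w2
    have mv : ∀ q r, T y q r → q ≠ m ∧ q ≠ v := by
      intro q r t
      constructor <;> rintro rfl
      · rcases S.Lm y r (h.s12 t) yu yv with rfl | rfl
        · exact ye rfl
        · exact yz (Nm y (h.c1 t))
      · rcases S.Lv y r (h.s12 t) ym yu with rfl | rfl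
        · exact ye rfl
        · exact yd (Nv y (h.c1 t))
    have both : T y z d → y = f := fun t => by
      by_contra yf
      rw [h.tt (h.s23 tu) (h.c1 t) zu.symm du.symm yu.symm zf.symm fd (Ne.symm yf) j3 l3] at t2
      exact z2_ne t2
    intro q r t
    obtain ⟨rm, rv⟩ := mv r q (h.s23 t)
    refine ⟨(mv q r t).1, (mv q r t).2, ?_, ?_, ?_⟩ <;> rintro rfl
    · rcases S.Lu y r (h.s12 t) ym yv with rfl | rfl
      · exact absurd rfl ye
      · exact ⟨rfl, Nu y (h.c1 t)⟩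
    · by_cases rd : r = d
      · exact ⟨rd, both (rd ▸ t)⟩
      · rw [cr_r, cr_add_r x v d f y q, w2, h.tt (h.s23 tv) t yv.symm zv.symm rv.symm yd.symm
          zd.symm (Ne.symm rd) ye.symm j3, add_zero] at t3
        exact absurd t3 z2_ne
    · by_cases rz : r = z
      · exact ⟨rz, both (h.s23 (rz ▸ t))⟩
      · rw [cr_add_r x m z f y q, w1, h.tt (h.s23 tm) t ym.symm dm.symm rm.symm yz.symm zd
          (Ne.symm rz) ye.symm l3, add_zero] at t1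
        exact absurd t1 z2_ne
  have zero : ∀ y r, T e y r → y ≠ m → y ≠ u → y ≠ v → y ≠ z → y ≠ d → y ≠ f → r ≠ m → r ≠ v →
      r ≠ z → r ≠ d → cr x m z e y + cr x v d e y = 0 := by
    intro y r t ym yu yv yz yd yf rm rv rz rd
    have a1 := h.tt (h.s23 A.t) t j1 ym.symm rm.symm l1 yv.symm rv.symm k1 yu.symm
    have a2 := h.tt (h.s13 tr) t j3.symm yz.symm rz.symm l3.symm yd.symm rd.symm k3.symm yf.symm
    unfold cr at a1 a2 ⊢
    grind
  have root : ∀ p q, T f p q → X p ∨ X q := by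
    intro p q t
    refine h.root X Xu (h.mem tu) (by rw [hX]; grind) ?_ t
    intro y q r hy oy yf t
    obtain ⟨ym, yu, yv, yz, yd, ye⟩ : y ≠ m ∧ y ≠ u ∧ y ≠ v ∧ y ≠ z ∧ y ≠ d ∧ y ≠ e := by
      simpa only [hX, not_or] using oy
    have w1 := h.walk X (h.s23 tm) Xm Xz Xe hy
    have w2 := h.walk X (h.s23 tv) Xv Xd Xe hy
    obtain ⟨q1, q2, q3, q4, q5⟩ := loc y ym yu yv yz yd ye w1 w2 q r t
    obtain ⟨r1, r2, r3, r4, r5⟩ := loc y ym yu yv yz yd ye w1 w2 r q (h.s23 t)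
    have qe : q ≠ e := by
      rintro rfl
      have := zero y r (h.s12 t) ym yu yv yz yd yf r1 r2 (fun e => yf (r4 e).2)
        (fun e => yf (r5 e).2)
      rw [cr_add_r x m z q f y, cr_add_r x v d q f y, w1, w2, add_zero, add_zero, zeta] at this
      exact z2_ne this.symm
    rw [hX]
    rintro (e | e | e | e | e | e)
    · exact q1 e
    · exact yf (q3 e).2
    · exact q2 e
    · exact yf (q4 e).2
    · exact yf (q5 e).2
    · exact qe e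
  have atf := loc f fm k2.symm fv zf.symm fd k3.symm (cr_self_r _ _ _ _) (cr_self_r _ _ _ _)
  have ate : ∀ r, T f e r → r = u := by
    intro r t
    by_contra ru
    obtain ⟨r1, r2, -, r4, r5⟩ := atf r e (h.s23 t)
    have rz : r ≠ z := fun e => l3 (r4 e).1
    have rd : r ≠ d := fun e => j3 (r5 e).1
    obtain ⟨-, i2, i3⟩ := h.nes t
    have a1 := zero r f (h.c1 t) r1 ru r2 rz rd i2.symm fm fv zf.symm fd
    have a2 := h.tt (h.s23 tm) (h.s23 t) fm.symm r1.symm j1 zf rz.symm j3.symm k3 i3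
    have a3 := h.tt (h.s23 tv) (h.s23 t) fv.symm r2.symm l1 fd.symm rd.symm l3.symm k3 i3
    rw [cr_add_r x m z e f r, cr_add_r x v d e f r, a2, a3, add_zero, add_zero, zeta] at a1
    exact z2_ne a1.symm
  have cls : ∀ p r, T f p r → (p = u ∧ r = e) ∨ (p = e ∧ r = u) ∨ (p = z ∧ r = d) ∨
      (p = d ∧ r = z) := by
    have one : ∀ p r, T f p r → X p → (p = u ∧ r = e) ∨ (p = e ∧ r = u) ∨ (p = z ∧ r = d) ∨
        (p = d ∧ r = z) := by
      intro p r t hp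
      obtain ⟨q1, q2, q3, q4, q5⟩ := atf p r t
      rcases (hX p).1 hp with e | e | e | e | e | e
      · exact absurd e q1
      · exact Or.inl ⟨e, (q3 e).1⟩
      · exact absurd e q2
      · exact Or.inr (Or.inr (Or.inl ⟨e, (q4 e).1⟩))
      · exact Or.inr (Or.inr (Or.inr ⟨e, (q5 e).1⟩))
      · exact Or.inr (Or.inl ⟨e, ate r (e ▸ t)⟩)
    intro p r t
    rcases root p r t with hp | hp
    · exact one p r t hp
    · have := one r p (h.s23 t) hp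
      tauto
  intro p r o pf dp dr
  rcases o with t | ⟨pp, -⟩ | ⟨e, -⟩
  · rcases cls p r t with e | e | e | e
    · exact ⟨Or.inr e.2, Or.inr e.1⟩
    · exact ⟨Or.inl e.1, Or.inl e.1⟩
    · exact absurd e.2.symm dr
    · exact absurd e.1.symm dp
  · obtain ⟨s, t⟩ := h.pT pp
    rcases cls p s t with ⟨rfl, -⟩ | e | ⟨rfl, -⟩ | e
    · exact absurd (h.ps pp) (h.noPu A S tm tu tv)
    · exact ⟨Or.inl e.1, Or.inl e.1⟩
    · rw [h.tour.swap zv.symm fv.symm zd.symm fd.symm,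
        h.pt (h.ps pp) (h.s23 tv) zv zd j3.symm fv fd k3.symm] at t3
      exact absurd t3 z2_ne
    · exact absurd e.1.symm dp
  · exact absurd e.symm pf

theorem Ctx.caseC1 (h : Ctx V T P x) {m u v e z f d : α} (A : Loose T P m u v)
    (S : Star3 T x m u v e) (tm : T m e z) (tu : T u e f) (tv : T v e d) (tr : T f d z) :
    False := by
  obtain ⟨-, fm, fv, -, -⟩ := h.term (h.l12 A) S.s12 tu tm tv
  have Nu := h.uniqC1 A S tm tv tr
  have Nv := h.uniqC1 (h.l23 A) S.s23 tm tu (h.s12 tr)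
  refine h.VL A (· = f) (· = d) S.cc S.ev fm.symm (h.ne2 tu) fv.symm (h.ne3 tu) (h.ne2 tv)
    (h.ne3 tv) (h.Hu A S.toStar fun w t => ⟨Nu w t, h.noPu A S tm t tv⟩)
    (h.Hu (h.l23 A) S.toStar.sw fun w t => ⟨Nv w t, h.noPu (h.l23 A) S.s23 tm t tu⟩) ?_ ?_
  · rintro f p r d o rfl h1 rfl h2 h3
    exact h.caseC1_HU A S tm tu tv tr p r o h1 h2 h3
  · rintro d p r f o rfl h1 rfl h2 h3
    exact h.caseC1_HU (h.l23 A) S.s23 tm tv tu (h.s12 tr) p r o h1 h2 h3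

end Pool.Agent.Lib.MP_c59a20_lc
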