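import Pool.Agent.Lib.MP_c59a20_lc.Stage1c

/-!
There is no loose triple.
-/

namespace Pool.Agent.Lib.MP_c59a20_lc

variable {α : Type} {V : Finset α} {T : α → α → α → Prop} {P : α → α → Prop}
  {x : α → α → ZMod 2}

theorem third_one (hx : Tour x) {m u v : α} (w : α) (n1 : m ≠ u) (n2 : m ≠ v) (n3 : u ≠ v) :
    cr x u v m w + cr x m v u w + cr x m u v w = 1 := by
  have := hx m u n1
  have := hx m v n2
  have := hx u v n3
  unfold cr; grind

theorem Ctx.noeq (h : Ctx V T P x) {m u v d e : α} (A : Loose T P m u v)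
    (bu : BL T x m v u d e) (bv : BL T x m u v d e) : False := by
  obtain ⟨n1, n2, n3⟩ := h.nes A.t
  have Lm := fun p q t h1 h2 => h.F3 A bu bv (p := p) (q := q) t h1 h2
  have bm : BL T x u v m d e := by
    obtain ⟨p, q, b⟩ := h.exBL (h.lc1 A)
    rcases Lm p q b.t b.dm b.du with ⟨rfl, rfl⟩ | ⟨rfl, rfl⟩
    · exact b
    · exact h.bsw b
  have Lu := fun p q t h1 h2 => h.F3 (h.l12 A) bm bv.sw (p := p) (q := q) t h1 h2
  have Lv := fun p q t h1 h2 => h.F3 (h.lc2 A) bm.sw bu.sw (p := p) (q := q) t h1 h2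
  have aux : ∀ d e, BL T x m v u d e → BL T x m u v d e → P u d → P v e → ¬ P m d ∧ ¬ P m e := by
    intro d e bu bv p1 p2
    obtain ⟨k1, k2, k3⟩ := h.nes bu.t
    obtain ⟨l1, l2, -⟩ := h.nes bv.t
    have a := h.pp p1 p2 n3 k2 l1.symm k3
    constructor <;> intro p
    · have b := h.pp p p2 n2 bv.em.symm l1.symm k3
      have c := bv.ce
      unfold cr at *
      grind
    · have b := h.pp p p1 n1 bv.dm.symm k2.symm k3.symm
      have c := bu.cd
      rw [h.tour.swap n3 k2 l1.symm k3] at a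
      unfold cr at *
      grind
  have other : ¬ P m d → ¬ P m e → False := fun p1 p2 =>
    h.alpha (h.lc2 A) (fun p q t h1 h2 => Lm p q t h2 h1) (fun p q t h1 h2 => Lu p q t h2 h1)
      bu.sw.cd bu.sw.ce (fun k => p1 k.1) (fun k => p2 k.1)
  refine h.alpha A Lu Lv bv.cd bv.ce (fun k => ?_) (fun k => ?_)
  · have := aux d e bu bv k.1 k.2
    exact other this.1 this.2
  · have := aux e d (h.bsw bu) (h.bsw bv) k.1 k.2
    exact other this.2 this.1

theorem Ctx.star_main (h : Ctx V T P x) {m u v e f d : α} (A : Loose T P m u v)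
    (bu : BL T x m v u e f) (bv : BL T x m u v e d)
    (Lu : ∀ p q, T u p q → p ≠ m → p ≠ v → p = e ∨ q = e)
    (Lv : ∀ p q, T v p q → p ≠ m → p ≠ u → p = e ∨ q = e) : False := by
  obtain ⟨n1, n2, n3⟩ := h.nes A.t
  have ca : cr x u v m e = 1 := by
    have := third_one h.tour e n1 n2 n3
    have := bu.cd
    have := bv.cd
    grind
  have mu : ∀ w, T u e w → BL T x m v u e w := fun w t => h.mkBL (h.l23 A) t bu.dm bu.du bu.cd
  have mv : ∀ w, T v e w → BL T x m u v e w := fun w t => h.mkBL A t bv.dm bv.du bv.cd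
  have mm : ∀ w, T m e w → BL T x u v m e w := fun w t => h.mkBL (h.lc1 A) t bv.du bu.du ca
  have S : Star T x m u v e := ⟨bu.dm, bv.du, bu.du, ca, bu.cd, bv.cd, Lu, Lv,
    fun w t t' => h.noeq A (mu w t) (mv w t'),
    fun w t t' => h.noeq (h.lc2 A) (mm w t).sw (mu w t').sw,
    fun w t t' => h.noeq (h.l12 A) (mm w t) (mv w t').sw⟩
  have F2 := fun f d tu tv p q t h1 h2 => h.F2 A (mu f tu) (mv d tv)
    (fun e => S.duv f tu (e ▸ tv)) (p := p) (q := q) t h1 h2
  by_cases tm : T m f d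
  · have fe := h.ne3 bu.t
    have de := h.ne3 bv.t
    have fd := h.ne3 tm
    refine h.caseB A S bu.t bv.t tm (fun w t => ?_) (fun w t => ?_) (F2 f d bu.t bv.t)
    · have := F2 w d t bv.t f d tm (h.ne2 bu.t).symm bu.eu
      grind
    · have := F2 f w bu.t t f d tm (h.ne2 bu.t).symm bu.eu
      grind
  have S3 : Star3 T x m u v e := ⟨S, fun p q t h1 h2 => by
    rcases F2 f d bu.t bv.t p q t h1 h2 with e | e | ⟨rfl, rfl⟩ | ⟨rfl, rfl⟩
    · exact Or.inl e
    · exact Or.inr e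
    · exact absurd t tm
    · exact absurd (h.s23 t) tm⟩
  obtain ⟨z, tz⟩ : ∃ z, T m e z := by
    obtain ⟨p, q, b⟩ := h.exBL (h.lc1 A)
    rcases S3.Lm p q b.t b.dm b.du with rfl | rfl
    · exact ⟨q, b.t⟩
    · exact ⟨p, h.s23 b.t⟩
  by_cases tr : ∃ z f d, T m e z ∧ T u e f ∧ T v e d ∧ T f d z
  · obtain ⟨z, f, d, t1, t2, t3, t4⟩ := tr
    exact h.caseC1 A S3 t1 t2 t3 t4
  · exact h.caseC2 A S3 tz bu.t bv.t fun z f d t1 t2 t3 t4 => tr ⟨z, f, d, t1, t2, t3, t4⟩

theorem Ctx.two_exc (h : Ctx V T P x) {m u v e g f d : α} (A : Loose T P m u v)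
    (bm : BL T x u v m e g) (bu : BL T x m v u e f) (bv : BL T x m u v e d) (t1 : T m f d)
    (t2 : T u g d) : False := by
  obtain ⟨n1, n2, n3⟩ := h.nes A.t
  have de := h.ne3 bv.t
  have a1 := h.tt (h.s23 t1) bu.t n1 bu.dm.symm bu.em.symm bv.eu de.symm (h.ne3 t1).symm
    (h.ne2 bu.t).symm (h.ne3 bu.t).symm
  have a2 := h.tt bm.t (h.s23 t2) n1 bv.em.symm (h.ne2 bm.t) bv.du de (h.ne3 bm.t) bm.em (h.ne3 t2)
  have a3 := bv.cd
  have a4 := bv.ce
  have := h.tour.three (a := m) bv.eu.symm bv.du.symm de.symm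
  have := z2_ne
  unfold cr at *
  grind

theorem Ctx.star3 (h : Ctx V T P x) {m u v e g f d : α} (A : Loose T P m u v)
    (bm : BL T x u v m e g) (bu : BL T x m v u e f) (bv : BL T x m u v e d) : False := by
  have fd : f ≠ d := by rintro rfl; exact h.noeq A bu bv
  have gd : g ≠ d := by rintro rfl; exact h.noeq (h.l12 A) bm bv.sw
  have gf : g ≠ f := by rintro rfl; exact h.noeq (h.lc2 A) bm.sw bu.sw
  have Lm : ¬ T m f d → ∀ p q, T m p q → p ≠ u → p ≠ v → p = e ∨ q = e := by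
    intro n p q t h1 h2
    have := h.F2 A bu bv fd t h1 h2
    have := h.s23 t
    grind
  have Lu : ¬ T u g d → ∀ p q, T u p q → p ≠ m → p ≠ v → p = e ∨ q = e := by
    intro n p q t h1 h2
    have := h.F2 (h.l12 A) bm bv.sw gd t h1 h2
    have := h.s23 t
    grind
  have Lv : ¬ T v g f → ∀ p q, T v p q → p ≠ m → p ≠ u → p = e ∨ q = e := by
    intro n p q t h1 h2
    have := h.F2 (h.lc2 A) bm.sw bu.sw gf t h1 h2
    have := h.s23 t
    grind
  by_cases eu : T u g d
  · exact h.star_main (h.l12 A) bm bv.sw (Lm fun t => h.two_exc A bm bu bv t eu)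
      (fun p q t h1 h2 => Lv (fun t' => h.two_exc (h.lc1 A) bu.sw bv.sw bm (h.s23 eu)
        (h.s23 t')) p q t h2 h1)
  by_cases ev : T v g f
  · exact h.star_main (h.lc2 A) bm.sw bu.sw
      (fun p q t h1 h2 => Lm (fun t' => h.two_exc (h.l23 A) bm.sw bv bu (h.s23 t') ev) p q t h2 h1)
      (fun p q t h1 h2 => Lu eu p q t h2 h1)
  · exact h.star_main A bu bv (Lu eu) (Lv ev)

theorem Ctx.triangle (h : Ctx V T P x) {m u v e f d : α} (A : Loose T P m u v)
    (bm : BL T x u v m f d) (bu : BL T x m v u e f) (bv : BL T x m u v e d) : False := by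
  obtain ⟨n1, n2, n3⟩ := h.nes A.t
  have side : ∀ u v f d, Loose T P m u v → BL T x u v m f d → BL T x m v u e f →
      BL T x m u v e d → ∀ p q, T u p q → p ≠ m → p ≠ v → p = e ∨ q = e := by
    intro u v f d A bm bu bv p q t h1 h2
    obtain ⟨n1, n2, n3⟩ := h.nes A.t
    have c : cr x m v u d = 1 := by
      have := third_one h.tour d n1 n2 n3
      have := bm.ce
      have := bv.ce
      grind
    have no : ∀ g, ¬ T u d g := fun g t =>
      h.star3 A (h.bsw bm) (h.mkBL (h.l23 A) t bv.em bm.eu c) (h.bsw bv)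
    rcases h.F2 (h.l12 A) (h.bsw bm) (h.bsw bv).sw (h.ne3 bu.t).symm t h1 h2 with
      rfl | rfl | ⟨-, e⟩ | ⟨e, -⟩
    · exact absurd t (no q)
    · exact absurd (h.s23 t) (no p)
    · exact Or.inr e
    · exact Or.inl e
  exact h.star_main A bu bv (side u v f d A bm bu bv)
    (side v u d f (h.l23 A) (h.bsw bm).sw bv bu)

theorem Ctx.not_loose (h : Ctx V T P x) {m u v : α} (A : Loose T P m u v) : False := by
  have fin : ∀ e f d, BL T x m v u e f → BL T x m u v e d → False := by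
    intro e f d bu bv
    have fd : f ≠ d := by rintro rfl; exact h.noeq A bu bv
    obtain ⟨p, q, bm⟩ := h.exBL (h.lc1 A)
    rcases h.F2 A bu bv fd bm.t bm.dm bm.du with rfl | rfl | ⟨rfl, rfl⟩ | ⟨rfl, rfl⟩
    · exact h.star3 A bm bu bv
    · exact h.star3 A (h.bsw bm) bu bv
    · exact h.triangle A bm bu bv
    · exact h.triangle A (h.bsw bm) bu bv
  obtain ⟨f, f', bu⟩ := h.exBL (h.l23 A)
  obtain ⟨d, d', bv⟩ := h.exBL A
  rcases h.F1 A bu bv with rfl | rfl | rfl | rfl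
  · exact fin _ _ _ bu bv
  · exact fin _ _ _ bu (h.bsw bv)
  · exact fin _ _ _ (h.bsw bu) bv
  · exact fin _ _ _ (h.bsw bu) (h.bsw bv)

end Pool.Agent.Lib.MP_c59a20_lc
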