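import Pool.Agent.Lib.MP_c59a20_lc.Stage1d

/-!
A triple with exactly one distinguished pair: the part hanging on that pair.
-/

namespace Pool.Agent.Lib.MP_c59a20_lc

variable {α : Type} {V : Finset α} {T : α → α → α → Prop} {P : α → α → Prop}
  {x : α → α → ZMod 2}

open Relation

/-- A triple with `uv` distinguished, whose other pairs are not and lie in no other triple. -/
structure Pend (T : α → α → α → Prop) (P : α → α → Prop) (m u v : α) : Prop where
  t : T m u v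
  p : P u v
  c1 : ∀ r, T m u r → r = v
  c2 : ∀ r, T m v r → r = u
  p1 : ¬ P m u
  p2 : ¬ P m v

theorem Ctx.psw (h : Ctx V T P x) {m u v : α} (A : Pend T P m u v) : Pend T P m v u :=
  ⟨h.s23 A.t, h.ps A.p, A.c2, A.c1, A.p2, A.p1⟩

theorem Ctx.pend_blocked (h : Ctx V T P x) {m u v : α} (A : Pend T P m u v) :
    Blocked x (Ob T P) m u :=
  h.max m u v x A.t A.p1 (fun ⟨c, c', h1, h2, h3⟩ _ =>
    absurd ((A.c2 c h2).trans (A.c2 c' h3).symm) h1) h.tour h.lin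

/-- The points other than `v` of a well chosen object blocking `mu`. -/
structure BO (T : α → α → α → Prop) (P : α → α → Prop) (x : α → α → ZMod 2) (m u v : α)
    (B : α → Prop) : Prop where
  ne : ∀ w, B w → w ≠ m ∧ w ≠ u ∧ w ≠ v ∧ cr x m u v w = 1
  ob : ∀ w, B w → ∃ r, Ob T P v w r ∧ (r = v ∨ B r)
  K : ∀ p s, Ob T P u p s → p ≠ v → p ≠ u → ¬ B p → ∃ w, B w ∧ w ≠ s

theorem Ctx.exBO (h : Ctx V T P x) {m u v : α} (A : Pend T P m u v) : ∃ B, BO T P x m u v B := by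
  obtain ⟨d, r, o, h1, h2, h3, h4, h5, h6, -⟩ := h.blocker A.t (h.pend_blocked A)
  obtain ⟨n1, n2, n3⟩ := h.nes A.t
  by_cases hs : ∃ s, T v d s ∧ s ≠ u
  · obtain ⟨s, t, su⟩ := hs
    have sm : s ≠ m := by rintro rfl; exact h2 (A.c2 d (h.c2 t))
    obtain ⟨k1, k2, k3⟩ := h.nes t
    have cs : cr x m u v s = 1 := by
      rw [cr_add_r x m u v d s, h6, h.tt A.t (h.c1 t) h1.symm sm.symm n2 h2.symm su.symm n3 k1 k2,
        add_zero]
    refine ⟨fun w => w = d ∨ w = s, ?_, ?_, ?_⟩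
    · rintro w (rfl | rfl)
      · exact ⟨h1, h2, h3, h6⟩
      · exact ⟨sm, su, k2.symm, cs⟩
    · rintro w (rfl | rfl)
      · exact ⟨s, Or.inl t, Or.inr (Or.inr rfl)⟩
      · exact ⟨d, Or.inl (h.s23 t), Or.inr (Or.inl rfl)⟩
    · intro p s' _ _ _ _
      by_cases e : d = s'
      · exact ⟨s, Or.inr rfl, e ▸ k3.symm⟩
      · exact ⟨d, Or.inl rfl, e⟩
  · have only : ∀ s, T v d s → s = u := fun s t => by
      by_contra e
      exact hs ⟨s, t, e⟩
    have pvd : P v d := by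
      rcases o with t | ⟨p, -⟩ | ⟨e, -⟩
      · exact absurd (only r t) h5
      · exact p
      · exact absurd e.symm h3
    refine ⟨fun w => w = d, ?_, ?_, ?_⟩
    · rintro w rfl
      exact ⟨h1, h2, h3, h6⟩
    · rintro w rfl
      exact ⟨v, Or.inr (Or.inl ⟨pvd, Or.inl rfl⟩), Or.inl rfl⟩
    · intro p s o pv pu pd
      refine ⟨d, rfl, ?_⟩
      rintro rfl
      have t := Ctx.oT o pu.symm h2.symm pd
      obtain ⟨s, t'⟩ := h.pT pvd
      rw [only s t'] at t'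
      obtain ⟨c, c', e1, e2, e3⟩ := h.i2 pvd t' ⟨m, d, h1.symm, h.s13 A.t, h.s23 t'⟩
        ⟨v, p, pv.symm, h.c1 t', h.c2 t⟩
      exact e1 ((only c e2).trans (only c' e3).symm)

theorem Ctx.att0 (h : Ctx V T P x) {m u v y s : α} {B : α → Prop} (A : Pend T P m u v)
    (bv : BO T P x m u v B) (c1 : ∀ d, B d → cr x v d u y = 1) (yu : y ≠ u) (yv : y ≠ v)
    (yB : ¬ B y) (o : Ob T P y u s) : s = v := by
  by_contra sv
  obtain ⟨w, hw, ws⟩ := bv.K y s (h.o12 o) yv yu yB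
  obtain ⟨r, o', hr⟩ := bv.ob w hw
  have n3 := h.ne3 A.t
  have c := c1 w hw
  rw [h.lin v w r u y s o' (h.o12 o) n3.symm yv.symm (Ne.symm sv) (bv.ne w hw).2.1
    (fun e => yB (e ▸ hw)) ws
    (by rcases hr with rfl | hr; exacts [n3.symm, (bv.ne r hr).2.1])
    (by rcases hr with rfl | hr; exacts [yv.symm, fun e => yB (e ▸ hr)])] at c
  exact z2_ne c

theorem Ctx.noexit (h : Ctx V T P x) (M1 : ∀ a b c, T a b c → P a b ∨ P a c ∨ P b c)
    {m u v y w q : α} {Bu Bv : α → Prop} (A : Pend T P m u v)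
    (bu : BO T P x m v u Bu) (bv : BO T P x m u v Bv) (c1 : ∀ d, Bv d → cr x v d u y = 1)
    (al : cr x u v m y = 0) (yu : y ≠ u) (yv : y ≠ v) (yBu : ¬ Bu y) (yBv : ¬ Bv y)
    (o : Ob T P y w q) (qu : q ≠ u) (qv : q ≠ v) : ¬ Bu w := by
  intro hw
  obtain ⟨n1, n2, n3⟩ := h.nes A.t
  obtain ⟨wm, wv, wu, cw⟩ := bu.ne w hw
  have aw : cr x u v m w = 0 := by
    rw [cr_add_r x u v m y w, al, h.po A.p o yu.symm wu.symm qu.symm yv.symm wv.symm qv.symm,
      add_zero]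
  have gw : cr x m u v w = 0 := by
    have := third_one h.tour w n1 n2 n3
    grind
  have wB : ¬ Bv w := fun k => z2_ne (gw.symm.trans (bv.ne w k).2.2.2)
  obtain ⟨r, ou, hr⟩ := bu.ob w hw
  have rv : r ≠ v := by rcases hr with rfl | hr; exacts [n3, (bu.ne r hr).2.1]
  have rm : r ≠ m := by rcases hr with rfl | hr; exacts [n1.symm, (bu.ne r hr).1]
  obtain ⟨d, hd, dr⟩ := bv.K w r ou wv wu wB
  obtain ⟨dm, du, dv, cd⟩ := bv.ne d hd
  obtain ⟨s, ov, hs⟩ := bv.ob d hd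
  have dw : d ≠ w := fun e => wB (e ▸ hd)
  have dy : d ≠ y := fun e => yBv (e ▸ hd)
  have su : s ≠ u := by rcases hs with rfl | hs; exacts [n3.symm, (bv.ne s hs).2.1]
  have sm : s ≠ m := by rcases hs with rfl | hs; exacts [n2.symm, (bv.ne s hs).1]
  have sw : s ≠ w := by rcases hs with rfl | hs; exacts [wv.symm, fun e => wB (e ▸ hs)]
  have sy : s ≠ y := by rcases hs with rfl | hs; exacts [yv.symm, fun e => yBv (e ▸ hs)]
  have a1 := h.lin v d s u w r ov ou n3.symm wv.symm rv.symm du dw dr su sw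
  have c := c1 d hd
  have dq : d = q := by
    by_contra dq
    rw [cr_add_r x v d u w y, a1, cr_r,
      h.lin v d s y w q ov o yv.symm wv.symm qv.symm dy dw dq sy sw, add_zero] at c
    exact z2_ne c
  subst dq
  have t : T y w d := Ctx.oT o (fun e => yBu (e ▸ hw)) dy.symm dw.symm
  have nwd : cr x m u w d = 1 := by
    rw [cr_add_r x m u w v d, cr_r, gw, cd, zero_add]
  have ym : y = m := by
    by_contra ym
    rw [h.tt A.t (h.c1 t) wm.symm dm.symm (Ne.symm ym) wu.symm du.symm yu.symm wv.symm dv.symm]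
      at nwd
    exact z2_ne nwd
  subst ym
  rcases M1 y w d t with p | p | p
  · have a2 := h.po p ov n2 dm.symm sm.symm wv dw.symm sw.symm
    rw [h.tour.swap n2 dm.symm wv dw.symm, cr_add_r x v d y u w, a1, add_zero, cr_r, c] at a2
    exact z2_ne a2.symm
  · have a2 := h.po p ou n1 wm.symm rm.symm du dw dr
    rw [cr_add_l x y v d, cw, a1, add_zero] at a2
    exact z2_ne a2.symm
  · have a2 := h.pt p A.t wm wu wv dm du dv
    rw [h.tour.swap wm wu dm du, nwd] at a2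
    exact z2_ne a2.symm

/-- A set containing `m` that is attached to the rest only through triples on `uv`. -/
structure ZS (T : α → α → α → Prop) (P : α → α → Prop) (m u v : α) (Z : α → Prop) : Prop where
  zm : Z m
  zu : ¬ Z u
  zv : ¬ Z v
  cl : ∀ y p s, Z y → Ob T P y p s → (Z p ∧ Z s) ∨ (p = u ∧ s = v) ∨ (p = v ∧ s = u)

theorem ZS.sw {m u v : α} {Z : α → Prop} (h : ZS T P m u v Z) : ZS T P m v u Z :=
  ⟨h.zm, h.zv, h.zu, fun y p s h1 h2 => by have := h.cl y p s h1 h2; tauto⟩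

theorem Ctx.exZS (h : Ctx V T P x) (M1 : ∀ a b c, T a b c → P a b ∨ P a c ∨ P b c) {m u v : α}
    (A : Pend T P m u v) : ∃ Z, ZS T P m u v Z := by
  obtain ⟨n1, n2, n3⟩ := h.nes A.t
  obtain ⟨Bv, bv⟩ := h.exBO A
  obtain ⟨Bu, bu⟩ := h.exBO (h.psw A)
  obtain ⟨X, hX⟩ : ∃ X : α → Prop, ∀ w, X w ↔ (w = u ∨ w = v ∨ Bu w ∨ Bv w) :=
    ⟨_, fun _ => Iff.rfl⟩
  set R : α → α → Prop := fun p q => ∃ r, Ob T P p q r ∧ ¬ X p ∧ ¬ X q ∧ ¬ X r with hR
  have Xu : X u := (hX u).2 (Or.inl rfl)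
  have Xv : X v := (hX v).2 (Or.inr (Or.inl rfl))
  have XBu : ∀ w, Bu w → X w := fun w k => (hX w).2 (Or.inr (Or.inr (Or.inl k)))
  have XBv : ∀ w, Bv w → X w := fun w k => (hX w).2 (Or.inr (Or.inr (Or.inr k)))
  have out : ∀ y, ReflTransGen R m y → ¬ X y := fun y hy => by
    rcases reach_last hy with rfl | ⟨q, r, h⟩
    · rw [hX]
      rintro (e | e | e | e)
      exacts [n1 e, n2 e, (bu.ne _ e).1 rfl, (bv.ne _ e).1 rfl]
    · exact h.2.2.1
  have walk : ∀ a b c y, Ob T P a b c → X a → X b → X c → ReflTransGen R m y →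
      cr x a b m y = 0 := by
    intro a b c y o ha hb hc hy
    refine cr_reach hy ?_
    rintro p q - ⟨r, t', i1, i2, i3⟩
    exact h.lin a b c p q r o t' (fun e => i1 (e ▸ ha)) (fun e => i2 (e ▸ ha))
      (fun e => i3 (e ▸ ha)) (fun e => i1 (e ▸ hb)) (fun e => i2 (e ▸ hb)) (fun e => i3 (e ▸ hb))
      (fun e => i1 (e ▸ hc)) (fun e => i2 (e ▸ hc))
  have cc : ∀ u v B, u ≠ v → m ≠ v → X v → (∀ w, B w → X w) → BO T P x m u v B → ∀ y,
      ReflTransGen R m y → ∀ d, B d → cr x v d u y = 1 := by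
    intro u v B n3 n2 Xv XB b y hy d hd
    obtain ⟨r, o, hr⟩ := b.ob d hd
    obtain ⟨dm, du, -, c⟩ := b.ne d hd
    rw [cr_add_r x v d u m y, walk v d r y o Xv (XB d hd)
      (by rcases hr with rfl | hr; exacts [Xv, XB r hr]) hy, add_zero,
      h.tour.swap n3.symm n2.symm du dm, cr_l, c]
  refine ⟨ReflTransGen R m, ReflTransGen.refl, fun k => out u k Xu, fun k => out v k Xv, ?_⟩
  intro y p s hy o
  have oy := out y hy
  obtain ⟨yu, yv, yBu, yBv⟩ : y ≠ u ∧ y ≠ v ∧ ¬ Bu y ∧ ¬ Bv y := by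
    simpa only [hX, not_or] using oy
  have c1 := cc u v Bv n3 n2 Xv XBv bv y hy
  have c2 := cc v u Bu n3.symm n1 Xu XBu bu y hy
  have al := walk u v u y (Or.inr (Or.inl ⟨A.p, Or.inl rfl⟩)) Xu Xv Xu hy
  have au : ∀ s, Ob T P y u s → s = v := fun s o => h.att0 A bv c1 yu yv yBv o
  have av : ∀ s, Ob T P y v s → s = u := fun s o => h.att0 (h.psw A) bu c2 yv yu yBu o
  by_cases pu : p = u
  · exact Or.inr (Or.inl ⟨pu, au s (pu ▸ o)⟩)
  by_cases pv : p = v
  · exact Or.inr (Or.inr ⟨pv, av s (pv ▸ o)⟩)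
  have su : s ≠ u := by rintro rfl; exact pv (au p (h.o23 o))
  have sv : s ≠ v := by rintro rfl; exact pu (av p (h.o23 o))
  have nx : ∀ p s, Ob T P y p s → p ≠ u → p ≠ v → s ≠ u → s ≠ v → ¬ X p := by
    intro p s o pu pv su sv
    rw [hX]
    rintro (e | e | e | e)
    · exact pu e
    · exact pv e
    · exact h.noexit M1 A bu bv c1 al yu yv yBu yBv o su sv e
    · exact h.noexit M1 (h.psw A) bv bu c2 (by rw [cr_l]; exact al) yv yu yBv yBu o sv su e
  have h1 := nx p s o pu pv su sv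
  have h2 := nx s p (h.o23 o) su sv pu pv
  exact Or.inl ⟨hy.tail ⟨s, o, oy, h1, h2⟩, hy.tail ⟨p, h.o23 o, oy, h2, h1⟩⟩

end Pool.Agent.Lib.MP_c59a20_lc
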