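import Pool.Agent.Lib.MP_c59a20_lc.Basic

/-!
Triple systems with a set of distinguished pairs, and maximal choices of such pairs.
-/

namespace Pool.Agent.Lib.MP_c59a20_lc

variable {α : Type}

/-- A symmetric system of triples of distinct points of `V`. -/
structure Tri (V : Finset α) (T : α → α → α → Prop) : Prop where
  s12 : ∀ {a b c}, T a b c → T b a c
  s23 : ∀ {a b c}, T a b c → T a c b
  ne1 : ∀ {a b c}, T a b c → a ≠ b
  mem : ∀ {a b c}, T a b c → a ∈ V

/-- Objects: triples, and distinguished pairs written with a repeated point. -/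
def Ob (T : α → α → α → Prop) (P : α → α → Prop) (a b c : α) : Prop :=
  T a b c ∨ (P a b ∧ (c = a ∨ c = b)) ∨ (a = b ∧ P a c)

/-- Chords of two objects that avoid the other object do not cross. -/
def Lin (x : α → α → ZMod 2) (O : α → α → α → Prop) : Prop :=
  ∀ a b c p q r, O a b c → O p q r → a ≠ p → a ≠ q → a ≠ r → b ≠ p → b ≠ q → b ≠ r →
    c ≠ p → c ≠ q → cr x a b p q = 0

/-- The chord `ab` crosses a chord of an object avoiding `a` and `b`. -/
def Blocked (x : α → α → ZMod 2) (O : α → α → α → Prop) (a b : α) : Prop :=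
  ∃ p q r, O p q r ∧ a ≠ p ∧ a ≠ q ∧ a ≠ r ∧ b ≠ p ∧ b ≠ q ∧ b ≠ r ∧ cr x a b p q = 1

/-- The pair `ab` lies in two triples. -/
def Co2 (T : α → α → α → Prop) (a b : α) : Prop := ∃ c c', c ≠ c' ∧ T a b c ∧ T a b c'

/-- No point separates the system. -/
def NoCut (V : Finset α) (T : α → α → α → Prop) : Prop :=
  ∀ s ∈ V, ∀ S : α → Prop, (∀ p, S p → p ≠ s) → (∀ p q r, T p q r → S p → q ≠ s → S q) →
    ∀ p ∈ V, S p → ∀ w ∈ V, w ≠ s → S w

structure Good (T : α → α → α → Prop) (P : α → α → Prop) : Prop where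
  ps : ∀ {a b}, P a b → P b a
  pT : ∀ {a b}, P a b → ∃ c, T a b c
  i2 : ∀ {a b c}, P a b → T a b c → Co2 T a c → Co2 T b c → Co2 T a b

def MaxP (T : α → α → α → Prop) (P : α → α → Prop) : Prop :=
  ∀ a b c x, T a b c → ¬ P a b → (Co2 T a c → Co2 T b c → Co2 T a b) → Tour x →
    Lin x (Ob T P) → Blocked x (Ob T P) a b

structure Ctx (V : Finset α) (T : α → α → α → Prop) (P : α → α → Prop)
    (x : α → α → ZMod 2) : Prop extends Tri V T, Good T P where
  tour : Tour x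
  lin : Lin x (Ob T P)
  max : MaxP T P
  nocut : NoCut V T

section tri

variable {V : Finset α} {T : α → α → α → Prop}

theorem Tri.s13 (h : Tri V T) {a b c : α} (t : T a b c) : T c b a := h.s12 (h.s23 (h.s12 t))
theorem Tri.c1 (h : Tri V T) {a b c : α} (t : T a b c) : T b c a := h.s23 (h.s12 t)
theorem Tri.c2 (h : Tri V T) {a b c : α} (t : T a b c) : T c a b := h.s12 (h.s23 t)
theorem Tri.ne2 (h : Tri V T) {a b c : α} (t : T a b c) : a ≠ c := h.ne1 (h.s23 t)
theorem Tri.ne3 (h : Tri V T) {a b c : α} (t : T a b c) : b ≠ c := h.ne1 (h.c1 t)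
theorem Tri.nes (h : Tri V T) {a b c : α} (t : T a b c) : a ≠ b ∧ a ≠ c ∧ b ≠ c :=
  ⟨h.ne1 t, h.ne2 t, h.ne3 t⟩
theorem Tri.mem2 (h : Tri V T) {a b c : α} (t : T a b c) : b ∈ V := h.mem (h.s12 t)
theorem Tri.mem3 (h : Tri V T) {a b c : α} (t : T a b c) : c ∈ V := h.mem (h.c2 t)

theorem Tri.co2s (h : Tri V T) {a b : α} (c : Co2 T a b) : Co2 T b a := by
  obtain ⟨c, c', h1, h2, h3⟩ := c
  exact ⟨c, c', h1, h.s12 h2, h.s12 h3⟩

theorem co2_uniq {a b c d : α} (h : ¬ Co2 T a b) (t : T a b c) (t' : T a b d) : d = c := by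
  by_contra e
  exact h ⟨d, c, e, t', t⟩

end tri

theorem exists_max [DecidableEq α] {V : Finset α} {T : α → α → α → Prop} (hT : Tri V T)
    {x : α → α → ZMod 2} (hx : Tour x) (hL : Lin x T) :
    ∃ P y, Good T P ∧ Tour y ∧ Lin y (Ob T P) ∧ MaxP T P := by
  classical
  set ok : Finset (α × α) → Prop := fun Q => Good T (fun a b => (a, b) ∈ Q) ∧
    ∃ y, Tour y ∧ Lin y (Ob T (fun a b => (a, b) ∈ Q)) with hok
  have h0 : ∅ ∈ (V ×ˢ V).powerset.filter ok := by
    simp only [Finset.mem_filter, Finset.empty_mem_powerset, true_and, hok]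
    refine ⟨⟨by simp, by simp, by simp⟩, x, hx, ?_⟩
    intro a b c p q r h1 h2
    simp only [Ob, Finset.notMem_empty, false_and, and_false, or_false] at h1 h2
    exact hL a b c p q r h1 h2
  obtain ⟨Q, hQ, hmax⟩ := Finset.exists_max_image _ Finset.card ⟨_, h0⟩
  obtain ⟨hQV, hG, y, hy, hyL⟩ := Finset.mem_filter.1 hQ
  refine ⟨_, y, hG, hy, hyL, ?_⟩
  intro a b c z t hn hc hz hzL
  by_contra hb
  have hab := hT.ne1 t
  have mem : ∀ p q, (p, q) ∈ insert (a, b) (insert (b, a) Q) ↔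
      (p = a ∧ q = b) ∨ (p = b ∧ q = a) ∨ (p, q) ∈ Q := fun p q => by simp
  have hun : ∀ p q r, Ob T (fun a b => (a, b) ∈ Q) p q r → a ≠ p → a ≠ q → a ≠ r → b ≠ p →
      b ≠ q → b ≠ r → cr z a b p q = 0 := fun p q r h1 h2 h3 h4 h5 h6 h7 =>
    z2_zero fun h8 => hb ⟨p, q, r, h1, h2, h3, h4, h5, h6, h7, h8⟩
  have hnew : insert (a, b) (insert (b, a) Q) ∈ (V ×ˢ V).powerset.filter ok := by
    refine Finset.mem_filter.2 ⟨?_, ⟨?_, ?_, ?_⟩, z, hz, ?_⟩
    · rw [Finset.mem_powerset] at hQV ⊢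
      intro e he
      simp only [Finset.mem_insert] at he
      rcases he with rfl | rfl | he
      · exact Finset.mem_product.2 ⟨hT.mem t, hT.mem2 t⟩
      · exact Finset.mem_product.2 ⟨hT.mem2 t, hT.mem t⟩
      · exact hQV he
    · intro p q h
      rw [mem] at h ⊢
      have := @hG.ps p q
      tauto
    · intro p q h
      rcases (mem p q).1 h with ⟨rfl, rfl⟩ | ⟨rfl, rfl⟩ | h
      · exact ⟨c, t⟩
      · exact ⟨c, hT.s12 t⟩
      · exact hG.pT h
    · intro p q r h t' c1 c2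
      rcases (mem p q).1 h with ⟨rfl, rfl⟩ | ⟨rfl, rfl⟩ | h
      · by_contra h3
        rw [co2_uniq h3 t t'] at c1 c2
        exact h3 (hc c1 c2)
      · by_contra h3
        rw [co2_uniq h3 (hT.s12 t) t'] at c1 c2
        exact h3 (hT.co2s (hc c2 c1))
      · exact hG.i2 h t' c1 c2
    · have split : ∀ p q r, Ob T (fun p q => (p, q) ∈ insert (a, b) (insert (b, a) Q)) p q r →
          Ob T (fun a b => (a, b) ∈ Q) p q r ∨ p = q ∨
            (((p = a ∧ q = b) ∨ (p = b ∧ q = a)) ∧ (r = a ∨ r = b)) := by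
        intro p q r h
        unfold Ob at h ⊢
        simp only [mem] at h
        grind
      intro p q r p' q' r' h1 h2 n1 n2 n3 n4 n5 n6 n7 n8
      rcases split p q r h1 with g1 | g1 | ⟨g1, g1'⟩
      · rcases split p' q' r' h2 with g2 | g2 | ⟨g2, g2'⟩
        · exact hzL p q r p' q' r' g1 g2 n1 n2 n3 n4 n5 n6 n7 n8
        · rw [g2]; exact cr_self_r _ _ _ _
        · rw [hz.swap n1 n2 n4 n5]
          rcases g2 with ⟨rfl, rfl⟩ | ⟨rfl, rfl⟩
          · exact hun p q r g1 n1.symm n4.symm n7.symm n2.symm n5.symm n8.symm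
          · rw [cr_l]; exact hun p q r g1 n2.symm n5.symm n8.symm n1.symm n4.symm n7.symm
      · rw [g1]; exact cr_self_l _ _ _ _
      · rcases split p' q' r' h2 with g2 | g2 | ⟨g2, g2'⟩
        · rcases g1 with ⟨rfl, rfl⟩ | ⟨rfl, rfl⟩
          · exact hun p' q' r' g2 n1 n2 n3 n4 n5 n6
          · rw [cr_l]; exact hun p' q' r' g2 n4 n5 n6 n1 n2 n3
        · rw [g2]; exact cr_self_r _ _ _ _
        · grind
  have h1 := hmax _ hnew
  have h2 : Q.card < (insert (a, b) (insert (b, a) Q)).card :=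
    Finset.card_lt_card ⟨fun e he => by simp [he], fun h => hn (h (by simp))⟩
  omega

namespace Ctx

variable {V : Finset α} {T : α → α → α → Prop} {P : α → α → Prop} {x : α → α → ZMod 2}

theorem pne (h : Ctx V T P x) {a b : α} (p : P a b) : a ≠ b := by
  obtain ⟨c, t⟩ := h.pT p
  exact h.ne1 t

theorem o12 (h : Ctx V T P x) {a b c : α} (o : Ob T P a b c) : Ob T P b a c := by
  have := @h.s12 a b c
  have := @h.ps a b
  unfold Ob at *; grind

theorem o23 (h : Ctx V T P x) {a b c : α} (o : Ob T P a b c) : Ob T P a c b := by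
  have := @h.s23 a b c
  have := @h.ps a b
  unfold Ob at *; grind

theorem oc1 (h : Ctx V T P x) {a b c : α} (o : Ob T P a b c) : Ob T P b c a := h.o23 (h.o12 o)
theorem oc2 (h : Ctx V T P x) {a b c : α} (o : Ob T P a b c) : Ob T P c a b := h.o12 (h.o23 o)
theorem o13 (h : Ctx V T P x) {a b c : α} (o : Ob T P a b c) : Ob T P c b a := h.o12 (h.oc1 o)

theorem tt (h : Ctx V T P x) {a b c p q r : α} (t : T a b c) (t' : T p q r) :
    a ≠ p → a ≠ q → a ≠ r → b ≠ p → b ≠ q → b ≠ r → c ≠ p → c ≠ q → cr x a b p q = 0 :=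
  h.lin a b c p q r (Or.inl t) (Or.inl t')

theorem tob (h : Ctx V T P x) {a b c p q r : α} (t : T a b c) (o : Ob T P p q r) :
    a ≠ p → a ≠ q → a ≠ r → b ≠ p → b ≠ q → b ≠ r → c ≠ p → c ≠ q → cr x a b p q = 0 :=
  h.lin a b c p q r (Or.inl t) o

theorem po (h : Ctx V T P x) {a b p q r : α} (t : P a b) (o : Ob T P p q r) :
    a ≠ p → a ≠ q → a ≠ r → b ≠ p → b ≠ q → b ≠ r → cr x a b p q = 0 :=
  fun h1 h2 h3 h4 h5 h6 =>
    h.lin a b a p q r (Or.inr (Or.inl ⟨t, Or.inl rfl⟩)) o h1 h2 h3 h4 h5 h6 h1 h2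

theorem pt (h : Ctx V T P x) {a b p q r : α} (t : P a b) (t' : T p q r) :
    a ≠ p → a ≠ q → a ≠ r → b ≠ p → b ≠ q → b ≠ r → cr x a b p q = 0 :=
  h.po t (Or.inl t')

theorem pp (h : Ctx V T P x) {a b p q : α} (t : P a b) (t' : P p q) :
    a ≠ p → a ≠ q → b ≠ p → b ≠ q → cr x a b p q = 0 :=
  fun h1 h2 h3 h4 => h.po t (Or.inr (Or.inl ⟨t', Or.inl rfl⟩)) h1 h2 h1 h3 h4 h3

/-- An object with three distinct points is a triple. -/
theorem oT {a b c : α} (o : Ob T P a b c) (h1 : a ≠ b) (h2 : a ≠ c) (h3 : b ≠ c) : T a b c := by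
  unfold Ob at o; grind

theorem oP {a b c : α} (h : Ctx V T P x) (o : Ob T P a b c) (h1 : a ≠ b) (h2 : c = a ∨ c = b) :
    P a b := by
  have := fun t : T a b c => h.nes t
  unfold Ob at o; grind

theorem change (h : Ctx V T P x) {y : α → α → ZMod 2} (hy : Tour y) (hL : Lin y (Ob T P)) :
    Ctx V T P y := { h with tour := hy, lin := hL }

/-- A blocker of a side of a triple passes through the third point. -/
theorem blocker (h : Ctx V T P x) {m u v : α} (t : T m u v) (b : Blocked x (Ob T P) m u) :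
    ∃ d r, Ob T P v d r ∧ d ≠ m ∧ d ≠ u ∧ d ≠ v ∧ r ≠ m ∧ r ≠ u ∧ cr x m u v d = 1 ∧
      (r ≠ v → cr x m u v r = 1) := by
  obtain ⟨p, q, r, o, h1, h2, h3, h4, h5, h6, h7⟩ := b
  have key : ∀ d r, Ob T P v d r → m ≠ d → m ≠ r → u ≠ d → u ≠ r → cr x m u v d = 1 →
      ∃ d r, Ob T P v d r ∧ d ≠ m ∧ d ≠ u ∧ d ≠ v ∧ r ≠ m ∧ r ≠ u ∧ cr x m u v d = 1 ∧
      (r ≠ v → cr x m u v r = 1) := by
    intro d r o h2 h3 h5 h6 h7
    have hd : d ≠ v := by
      rintro rfl
      rw [cr_self_r] at h7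
      exact z2_ne h7
    refine ⟨d, r, o, h2.symm, h5.symm, hd, h3.symm, h6.symm, h7, fun hr => ?_⟩
    have := h.tob t (h.oc1 o) h2 h3 (h.ne2 t) h5 h6 (h.ne3 t) hd.symm hr.symm
    rw [cr_add_r x m u v d r, h7, this, add_zero]
  by_cases hp : v = p
  · subst hp; exact key q r o h2 h3 h5 h6 h7
  by_cases hq : v = q
  · subst hq; exact key p r (h.o12 o) h1 h3 h4 h6 (by rw [cr_r]; exact h7)
  · rw [h.tob t o h1 h2 h3 h4 h5 h6 hp hq] at h7
    exact absurd h7 z2_ne

end Ctx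

end Pool.Agent.Lib.MP_c59a20_lc
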